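import Pool.Agent.H526.PE.Stm

/-!
# The inequality of Gowers-Cauchy-Schwarz with a polynomial phase
-/

namespace Pool.Agent.H526.PE.Gcsp

open Finset
open scoped ComplexConjugate

section step

variable {U T : Type} [AddCommGroup U] [Fintype U] [AddCommGroup T] [Fintype T]

lemma sum_shift (F : U → ℂ) (a : U) : ∑ u, F (u + a) = ∑ u, F u :=
  Equiv.sum_comp (Equiv.addRight a) F

/-- the van der Corput inequality -/
lemma vdc (φ : T →+ U) (F : U → ℂ) :
    ‖(∑ u, F u) / Fintype.card U‖ ^ 2 ≤
      (∑ t : T, ‖(∑ u, conj (F u) * F (u + φ t)) / Fintype.card U‖) / Fintype.card T := by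
  have hn1 : ‖(Fintype.card U : ℂ)‖ = (Fintype.card U : ℝ) := Complex.norm_natCast _
  have hm1 : ‖(Fintype.card T : ℂ)‖ = (Fintype.card T : ℝ) := Complex.norm_natCast _
  have hn0 : 0 < (Fintype.card U : ℝ) := by exact_mod_cast Fintype.card_pos
  have hm0 : 0 < (Fintype.card T : ℝ) := by exact_mod_cast Fintype.card_pos
  have h2 : ∑ u, ∑ t : T, F (u + φ t) = (Fintype.card T : ℂ) * ∑ u, F u := by
    rw [Finset.sum_comm]
    simp only [sum_shift]
    rw [Finset.sum_const, Finset.card_univ, nsmul_eq_mul]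
  have h3 : ‖∑ u, ∑ t : T, F (u + φ t)‖ ^ 2 ≤
      (Fintype.card U : ℝ) * ∑ u, ‖∑ t : T, F (u + φ t)‖ ^ 2 := by
    have h31 : ‖∑ u, ∑ t : T, F (u + φ t)‖ ^ 2 ≤ (∑ u, ‖∑ t : T, F (u + φ t)‖) ^ 2 :=
      pow_le_pow_left₀ (norm_nonneg _) (norm_sum_le _ _) 2
    have := sq_sum_le_card_mul_sum_sq (s := (Finset.univ : Finset U))
      (f := fun u => ‖∑ t : T, F (u + φ t)‖)
    rw [Finset.card_univ] at this
    exact h31.trans this
  have h4 : ((∑ u, ‖∑ t : T, F (u + φ t)‖ ^ 2 : ℝ) : ℂ) =
      (Fintype.card T : ℂ) * ∑ t : T, ∑ u, conj (F u) * F (u + φ t) := by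
    push_cast
    have e1 : ∀ u, ((‖∑ t : T, F (u + φ t)‖ : ℂ)) ^ 2 =
        ∑ t : T, ∑ t' : T, conj (F (u + φ t)) * F (u + φ t') := by
      intro u
      rw [← Complex.conj_mul', map_sum, Finset.sum_mul_sum]
    simp only [e1]
    rw [Finset.sum_comm]
    have e2 : ∀ t : T, ∑ u, ∑ t' : T, conj (F (u + φ t)) * F (u + φ t') =
        ∑ t' : T, ∑ u, conj (F u) * F (u + φ t') := by
      intro t
      rw [Finset.sum_comm]
      rw [← Equiv.sum_comp (Equiv.addRight t)
        (fun t' : T => ∑ u, conj (F (u + φ t)) * F (u + φ t'))]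
      refine Finset.sum_congr rfl fun t' _ => ?_
      rw [← sum_shift (fun u => conj (F u) * F (u + φ t')) (φ t)]
      refine Finset.sum_congr rfl fun u _ => ?_
      simp only [Equiv.coe_addRight, map_add]
      rw [add_comm (φ t') (φ t), add_assoc]
    simp only [e2]
    rw [Finset.sum_const, Finset.card_univ, nsmul_eq_mul]
  have h5 : ∑ u, ‖∑ t : T, F (u + φ t)‖ ^ 2 ≤
      (Fintype.card T : ℝ) * ∑ t : T, ‖∑ u, conj (F u) * F (u + φ t)‖ := by
    have h51 : (0 : ℝ) ≤ ∑ u, ‖∑ t : T, F (u + φ t)‖ ^ 2 :=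
      Finset.sum_nonneg fun u _ => pow_nonneg (norm_nonneg _) 2
    have h52 := congrArg (fun z : ℂ => ‖z‖) h4
    simp only [Complex.norm_real, Real.norm_of_nonneg h51, norm_mul, hm1] at h52
    rw [h52]
    exact mul_le_mul_of_nonneg_left (norm_sum_le _ _) hm0.le
  have h6 : ∑ t : T, ‖(∑ u, conj (F u) * F (u + φ t)) / Fintype.card U‖ =
      (∑ t : T, ‖∑ u, conj (F u) * F (u + φ t)‖) / Fintype.card U := by
    rw [Finset.sum_div]
    refine Finset.sum_congr rfl fun t _ => ?_
    rw [norm_div, hn1]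
  rw [h2, norm_mul, hm1] at h3
  rw [h6, norm_div, hn1, div_pow, div_div, div_le_div_iff₀ (by positivity) (by positivity)]
  set m : ℝ := (Fintype.card T : ℝ) with hm
  set n : ℝ := (Fintype.card U : ℝ) with hn
  set A : ℝ := ∑ t : T, ‖∑ u, conj (F u) * F (u + φ t)‖ with hA
  set x : ℝ := ‖∑ u, F u‖ with hx
  have h7 : m * x ^ 2 ≤ n * A := by
    have h8 : m * (m * x ^ 2) ≤ m * (n * A) := by
      calc m * (m * x ^ 2) = (m * x) ^ 2 := by ring
        _ ≤ n * ∑ u, ‖∑ t : T, F (u + φ t)‖ ^ 2 := h3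
        _ ≤ n * (m * A) := mul_le_mul_of_nonneg_left h5 hn0.le
        _ = m * (n * A) := by ring
    exact le_of_mul_le_mul_left h8 hm0
  have h9 := mul_le_mul_of_nonneg_left h7 hn0.le
  nlinarith [h9]

end step

section resample

variable {T Λ : Type} [Fintype T] [Fintype Λ] [DecidableEq Λ]

/-- resampling of one coordinate -/
lemma sum_update (H : (Λ → T) → ℝ) (a : Λ) :
    ∑ t : Λ → T, ∑ s : T, H (Function.update t a s) = Fintype.card T * ∑ t : Λ → T, H t := by
  let e : ((Λ → T) × T) ≃ ((Λ → T) × T) :=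
    { toFun := fun p => (Function.update p.1 a p.2, p.1 a)
      invFun := fun p => (Function.update p.1 a p.2, p.1 a)
      left_inv := fun p => by
        refine Prod.ext ?_ ?_
        · simp
        · simp
      right_inv := fun p => by
        refine Prod.ext ?_ ?_
        · simp
        · simp }
  have h1 : ∑ p : (Λ → T) × T, H (e p).1 = ∑ p : (Λ → T) × T, H p.1 :=
    Equiv.sum_comp e (fun p => H p.1)
  rw [Fintype.sum_prod_type, Fintype.sum_prod_type] at h1
  have h2 : ∑ t : Λ → T, ∑ s : T, H (Function.update t a s) =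
      ∑ t : Λ → T, ∑ s : T, H (e (t, s)).1 := rfl
  rw [h2, h1]
  simp only [Finset.sum_const, Finset.card_univ, nsmul_eq_mul]
  rw [Finset.mul_sum]

end resample

variable {U T Λ : Type} [AddCommGroup U] [Fintype U] [AddCommGroup T] [Fintype T] [Fintype Λ]
    [DecidableEq Λ]

lemma partial_gcs (φ : Λ → T →+ U) (f : U → ℝ) (P : U → ℂ) (k : ℕ) (hP : Ph k P)
    (S : Finset Λ) :
    ∃ Q : (Λ → T) → U → ℂ, (∀ t, Ph (k - S.card) (Q t)) ∧
      (∀ b, b ∉ S → ∀ (t : Λ → T) (s : T), Q (Function.update t b s) = Q t) ∧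
      ‖(∑ u, (f u : ℂ) * P u) / Fintype.card U‖ ^ (2 ^ S.card) ≤
      (∑ t : Λ → T, ‖(∑ u, ((∏ A ∈ S.powerset, f (u + ∑ l ∈ A, φ l (t l)) : ℝ) : ℂ) * Q t u) /
        Fintype.card U‖) / (Fintype.card T : ℝ) ^ Fintype.card Λ := by
  have hN : (Fintype.card (Λ → T) : ℝ) = (Fintype.card T : ℝ) ^ Fintype.card Λ := by
    rw [Fintype.card_fun]; push_cast; rfl
  have hN0 : (0 : ℝ) < (Fintype.card T : ℝ) ^ Fintype.card Λ := by
    have : (0 : ℝ) < Fintype.card T := by exact_mod_cast Fintype.card_pos
    positivity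
  have hT0 : (0 : ℝ) < Fintype.card T := by exact_mod_cast Fintype.card_pos
  induction S using Finset.induction_on with
  | empty =>
    refine ⟨fun _ => P, fun _ => by simpa using hP, fun _ _ _ _ => rfl, ?_⟩
    simp only [Finset.card_empty, pow_zero, pow_one, Finset.powerset_empty,
      Finset.prod_singleton, Finset.sum_empty, add_zero]
    rw [Finset.sum_const, Finset.card_univ, nsmul_eq_mul, hN]
    rw [mul_comm, mul_div_assoc, div_self hN0.ne', mul_one]
  | insert a S ha ih =>
    obtain ⟨Q, hQ, hQi, ih⟩ := ih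
    set N : ℝ := (Fintype.card T : ℝ) ^ Fintype.card Λ with hNdef
    set G : (Λ → T) → U → ℝ := fun t u => ∏ A ∈ S.powerset, f (u + ∑ l ∈ A, φ l (t l)) with hG
    set F : (Λ → T) → U → ℂ := fun t u => (G t u : ℂ) * Q t u with hF
    refine ⟨fun t u => Q t (u + φ a (t a)) * conj (Q t u), ?_, ?_, ?_⟩
    · intro t
      rw [Finset.card_insert_of_notMem ha]
      have h := hQ t
      rcases Nat.eq_zero_or_pos (k - S.card) with h0 | h0
      · rw [h0] at h
        have h1 : k - (S.card + 1) = 0 := by omega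
        rw [h1]
        intro u
        show Q t (u + φ a (t a)) * conj (Q t u) = 1
        rw [h, h, map_one, mul_one]
      · obtain ⟨j, hj⟩ : ∃ j, k - S.card = j + 1 := ⟨k - S.card - 1, by omega⟩
        rw [hj] at h
        have h1 : k - (S.card + 1) = j := by omega
        rw [h1]
        exact h (φ a (t a))
    · intro b hb t s
      have hba : a ≠ b := fun h => hb (h ▸ Finset.mem_insert_self a S)
      have hbS : b ∉ S := fun h => hb (Finset.mem_insert_of_mem h)
      funext u
      show Q (Function.update t b s) (u + φ a (Function.update t b s a)) *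
        conj (Q (Function.update t b s) u) = _
      rw [hQi b hbS, Function.update_of_ne hba]
    · have hprod : ∀ (t : Λ → T) (u : U),
          ((∏ A ∈ (insert a S).powerset, f (u + ∑ l ∈ A, φ l (t l)) : ℝ) : ℂ) *
            (Q t (u + φ a (t a)) * conj (Q t u)) = conj (F t u) * F t (u + φ a (t a)) := by
        intro t u
        have h1 : ∏ A ∈ (insert a S).powerset, f (u + ∑ l ∈ A, φ l (t l)) =
            G t u * G t (u + φ a (t a)) := by
          rw [Finset.prod_powerset_insert ha]
          simp only [hG]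
          congr 1
          refine Finset.prod_congr rfl fun A hA => ?_
          have haA : a ∉ A := fun h => ha (Finset.mem_powerset.1 hA h)
          rw [Finset.sum_insert haA, add_assoc]
        rw [h1]
        simp only [hF, map_mul, Complex.conj_ofReal]
        push_cast
        ring
      simp only [hprod]
      -- independence of the coordinate a
      have hind : ∀ (t : Λ → T) (s : T), F (Function.update t a s) = F t := by
        intro t s
        have hg : G (Function.update t a s) = G t := by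
          funext u
          simp only [hG]
          refine Finset.prod_congr rfl fun A hA => ?_
          congr 2
          refine Finset.sum_congr rfl fun l hl => ?_
          have hla : l ≠ a := fun h => ha (Finset.mem_powerset.1 hA (h ▸ hl))
          rw [Function.update_of_ne hla]
        funext u
        simp only [hF]
        rw [hg, hQi a ha]
      rw [Finset.card_insert_of_notMem ha, pow_succ, pow_mul]
      have h0 : 0 ≤ ‖(∑ u, (f u : ℂ) * P u) / Fintype.card U‖ ^ (2 ^ S.card) :=
        pow_nonneg (norm_nonneg _) _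
      refine (pow_le_pow_left₀ h0 ih 2).trans ?_
      rw [div_pow]
      have h1 : (∑ t : Λ → T, ‖(∑ u, F t u) / Fintype.card U‖) ^ 2 ≤
          N * ∑ t : Λ → T, ‖(∑ u, F t u) / Fintype.card U‖ ^ 2 := by
        have := sq_sum_le_card_mul_sum_sq (s := (Finset.univ : Finset (Λ → T)))
          (f := fun t => ‖(∑ u, F t u) / Fintype.card U‖)
        rwa [Finset.card_univ, hN] at this
      have h2 : ∀ t : Λ → T, ‖(∑ u, F t u) / Fintype.card U‖ ^ 2 ≤
          (∑ s : T, ‖(∑ u, conj (F t u) * F t (u + φ a s)) / Fintype.card U‖) /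
            Fintype.card T := fun t => vdc (φ a) (F t)
      have h3 : ∑ t : Λ → T, ‖(∑ u, F t u) / Fintype.card U‖ ^ 2 ≤
          ∑ t : Λ → T, ‖(∑ u, conj (F t u) * F t (u + φ a (t a))) / Fintype.card U‖ := by
        refine (Finset.sum_le_sum fun t _ => h2 t).trans ?_
        rw [← Finset.sum_div, div_le_iff₀ hT0]
        have h4 := sum_update (T := T) (fun t : Λ → T =>
          ‖(∑ u, conj (F t u) * F t (u + φ a (t a))) / Fintype.card U‖) a
        simp only [hind, Function.update_self] at h4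
        rw [h4, mul_comm]
      rw [div_le_div_iff₀ (by positivity) hN0]
      have h5 : (∑ t : Λ → T, ‖(∑ u, F t u) / Fintype.card U‖) ^ 2 ≤
          N * ∑ t : Λ → T, ‖(∑ u, conj (F t u) * F t (u + φ a (t a))) / Fintype.card U‖ :=
        h1.trans (mul_le_mul_of_nonneg_left h3 hN0.le)
      calc (∑ t : Λ → T, ‖(∑ u, F t u) / Fintype.card U‖) ^ 2 * N
          ≤ (N * ∑ t : Λ → T, ‖(∑ u, conj (F t u) * F t (u + φ a (t a))) / Fintype.card U‖) * N :=
            mul_le_mul_of_nonneg_right h5 hN0.le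
        _ = (∑ t : Λ → T, ‖(∑ u, conj (F t u) * F t (u + φ a (t a))) / Fintype.card U‖) *
              N ^ 2 := by ring

/-- **The inequality of Gowers-Cauchy-Schwarz with a polynomial phase.** -/
theorem main : Pool.Agent.H526.PE.S_gcsp := by
  intro U T Λ _ _ _ _ _ _ φ f P k _ hP hk
  obtain ⟨Q, hQ, -, h⟩ := partial_gcs φ f P k hP Finset.univ
  rw [Finset.powerset_univ, Finset.card_univ] at h
  refine h.trans (le_of_eq ?_)
  congr 1
  refine Finset.sum_congr rfl fun t _ => ?_
  have h1 : ∀ u, Q t u = 1 := by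
    have h2 := hQ t
    rw [Finset.card_univ, Nat.sub_eq_zero_of_le hk] at h2
    exact h2
  simp only [h1, mul_one]
  rw [← Complex.ofReal_sum, ← Complex.ofReal_natCast, ← Complex.ofReal_div, Complex.norm_real,
    Real.norm_eq_abs]

end Pool.Agent.H526.PE.Gcsp
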