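import Pool.Agent.H526.PE.Stm
import Pool.Agent.H985.KP.Loc2

/-!
# Elementary properties of polynomial phases (project PE of helper526, task PHL, helper139)
-/

set_option autoImplicit false

namespace Pool.Agent.H526.PE.Phl

open scoped Classical ComplexConjugate
open Pool.Agent.H985.KP (sg)
open Pool.Agent.H526.PE

theorem ph_mul {G : Type} [AddCommGroup G] (k : ℕ) :
    ∀ P Q : G → ℂ, Ph k P → Ph k Q → Ph k (fun u => P u * Q u) := by
  induction k with
  | zero =>
    intro P Q hP hQ u
    show P u * Q u = 1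
    rw [show P u = 1 from hP u, show Q u = 1 from hQ u, mul_one]
  | succ k ih =>
    intro P Q hP hQ y
    have h1 := ih _ _ (hP y) (hQ y)
    have h2 : (fun u => P (u + y) * Q (u + y) * conj (P u * Q u)) =
        fun u => P (u + y) * conj (P u) * (Q (u + y) * conj (Q u)) := by
      funext u
      rw [map_mul]
      ring
    show Ph k (fun u => P (u + y) * Q (u + y) * conj (P u * Q u))
    rw [h2]
    exact h1

theorem ph_conj {G : Type} [AddCommGroup G] (k : ℕ) :
    ∀ P : G → ℂ, Ph k P → Ph k (fun u => conj (P u)) := by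
  induction k with
  | zero =>
    intro P hP u
    show conj (P u) = 1
    rw [show P u = 1 from hP u, map_one]
  | succ k ih =>
    intro P hP y
    have h1 := ih _ (hP y)
    have h2 : (fun u => conj (P (u + y)) * conj (conj (P u))) =
        fun u => conj (P (u + y) * conj (P u)) := by
      funext u
      rw [map_mul]
    show Ph k (fun u => conj (P (u + y)) * conj (conj (P u)))
    rw [h2]
    exact h1

theorem ph_succ {G : Type} [AddCommGroup G] (k : ℕ) :
    ∀ P : G → ℂ, Ph k P → Ph (k + 1) P := by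
  induction k with
  | zero =>
    intro P hP y u
    show P (u + y) * conj (P u) = 1
    rw [show P (u + y) = 1 from hP (u + y), show P u = 1 from hP u, map_one, mul_one]
  | succ k ih =>
    intro P hP y
    exact ih _ (hP y)

theorem ph_pull {G H : Type} [AddCommGroup G] [AddCommGroup H] (φ : H →+ G) (g : G) (k : ℕ) :
    ∀ P : G → ℂ, Ph k P → Ph k (fun u => P (g + φ u)) := by
  induction k with
  | zero =>
    intro P hP u
    exact hP (g + φ u)
  | succ k ih =>
    intro P hP y
    have h1 := ih _ (hP (φ y))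
    have h2 : (fun u => P (g + φ (u + y)) * conj (P (g + φ u))) =
        fun u => P (g + φ u + φ y) * conj (P (g + φ u)) := by
      funext u
      rw [map_add, add_assoc]
    show Ph k (fun u => P (g + φ (u + y)) * conj (P (g + φ u)))
    rw [h2]
    exact h1

theorem ph_norm {G : Type} [AddCommGroup G] (k : ℕ) :
    ∀ P : G → ℂ, Ph k P → ∀ u, ‖P u‖ = 1 := by
  induction k with
  | zero =>
    intro P hP u
    rw [show P u = 1 from hP u, norm_one]
  | succ k ih =>
    intro P hP u
    have h1 := ih _ (hP 0) u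
    rw [add_zero, norm_mul, RCLike.norm_conj] at h1
    nlinarith [norm_nonneg (P u)]

theorem ph_const {G : Type} [AddCommGroup G] (z : ℂ) (hz : ‖z‖ = 1) : Ph 1 (fun _ : G => z) := by
  intro y u
  show z * conj z = 1
  rw [Complex.mul_conj, Complex.normSq_eq_norm_sq, hz, one_pow, Complex.ofReal_one]

theorem ph_char {G : Type} [AddCommGroup G] (χ : G → ℝ) (h1 : ∀ v, χ v = 1 ∨ χ v = -1)
    (h2 : ∀ v w, χ (v + w) = χ v * χ w) : Ph 2 (fun u => (χ u : ℂ)) := by
  intro y
  have h3 : (fun u => (χ (u + y) : ℂ) * conj (χ u : ℂ)) = fun _ => ((χ y : ℝ) : ℂ) := by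
    funext u
    rw [Complex.conj_ofReal, ← Complex.ofReal_mul, h2]
    congr 1
    rcases h1 u with h | h <;> rw [h] <;> ring
  show Ph 1 (fun u => (χ (u + y) : ℂ) * conj (χ u : ℂ))
  rw [h3]
  refine ph_const _ ?_
  rw [Complex.norm_real, Real.norm_eq_abs]
  rcases h1 y with h | h <;> rw [h] <;> norm_num

theorem ph_sg {K : Type} [Field K] [Fintype K] [CharP K 2] {G : Type} [AddCommGroup G] (q : G → K)
    (h : ∀ u x y z, q u + q (u + x) + q (u + y) + q (u + z) + q (u + x + y) + q (u + x + z) +
      q (u + y + z) + q (u + x + y + z) = 0) : Ph 3 (fun u => (sg (q u) : ℂ)) := by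
  intro x y z u
  show ((sg (q (u + z + y + x)) : ℂ) * conj (sg (q (u + z + y)) : ℂ) *
      conj ((sg (q (u + z + x)) : ℂ) * conj (sg (q (u + z)) : ℂ))) *
    conj ((sg (q (u + y + x)) : ℂ) * conj (sg (q (u + y)) : ℂ) *
      conj ((sg (q (u + x)) : ℂ) * conj (sg (q u) : ℂ))) = 1
  have h1 := h u x y z
  have e1 : u + z + y + x = u + x + y + z := by abel
  have e2 : u + z + y = u + y + z := by abel
  have e3 : u + z + x = u + x + z := by abel
  have e4 : u + y + x = u + x + y := by abel
  rw [e1, e2, e3, e4]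
  have h2 := congrArg sg h1
  rw [Pool.Agent.H985.KP.Loc2.sg_zero] at h2
  simp only [Pool.Agent.H985.KP.Loc2.sg_add] at h2
  simp only [map_mul, Complex.conj_ofReal]
  have h3 := congrArg (fun r : ℝ => (r : ℂ)) h2
  simp only [Complex.ofReal_mul, Complex.ofReal_one] at h3
  rw [← h3]
  ring

theorem main : S_phl :=
  ⟨fun _ _ k P Q => ph_mul k P Q, fun _ _ k P => ph_conj k P, fun _ _ k P => ph_succ k P,
    fun _ _ _ _ k P φ g => ph_pull φ g k P, fun _ _ k P => ph_norm k P,
    fun _ _ z hz => ph_const z hz, fun _ _ χ h1 h2 => ph_char χ h1 h2,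
    fun _ _ _ _ _ _ q h => ph_sg q h⟩

end Pool.Agent.H526.PE.Phl
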