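import Pool.Agent.H526.PE.Stm

/-!
# The indicator function of a residue class is an average of phases
-/

set_option autoImplicit false

namespace Pool.Agent.H526.PE.Cls

open Polynomial
open scoped Classical ComplexConjugate

theorem mul_conj_one {G : Type} [AddCommGroup G] [Finite G] (ψ : AddChar G ℂ) (x : G) :
    ψ x * conj (ψ x) = 1 := by
  rw [Complex.mul_conj, Complex.normSq_eq_norm_sq, AddChar.norm_apply]
  simp

theorem ph2 {G H : Type} [AddCommGroup G] [Finite G] [AddCommGroup H] (φ : H →+ G)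
    (ψ : AddChar G ℂ) (r : H) : Ph 2 (fun a => ψ (φ (a - r))) := by
  intro y y' u
  have h1 : ∀ v : H, ψ (φ (v + y - r)) * conj (ψ (φ (v - r))) = ψ (φ y) := by
    intro v
    have h2 : φ (v + y - r) = φ y + φ (v - r) := by
      rw [← map_add]
      congr 1
      abel
    rw [h2, AddChar.map_add_eq_mul, mul_assoc, mul_conj_one, mul_one]
  show (ψ (φ (u + y' + y - r)) * conj (ψ (φ (u + y' - r)))) *
    conj (ψ (φ (u + y - r)) * conj (ψ (φ (u - r)))) = 1
  rw [h1, h1, mul_conj_one]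

theorem main : Pool.Agent.H526.PE.S_cls := by
  intro K _ _ _ Q r hQ
  have : Module.Finite K (AdjoinRoot Q) := (AdjoinRoot.powerBasis hQ).finite
  have hfin : Finite (AdjoinRoot Q) := Module.finite_of_finite K
  let _ : Fintype (AdjoinRoot Q) := Fintype.ofFinite _
  obtain ⟨e⟩ : Nonempty (Fin (Fintype.card (AdjoinRoot Q)) ≃ AddChar (AdjoinRoot Q) ℂ) :=
    ⟨(Fintype.equivFinOfCardEq AddChar.card_eq).symm⟩
  refine ⟨Fintype.card (AdjoinRoot Q),
    fun i a => e i ((AdjoinRoot.mk Q).toAddMonoidHom (a - r)), Fintype.card_pos, fun i => ?_,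
    fun a => ?_⟩
  · exact ph2 (AdjoinRoot.mk Q).toAddMonoidHom (e i) r
  · have h1 : ∑ i, e i ((AdjoinRoot.mk Q).toAddMonoidHom (a - r)) =
        ∑ ψ : AddChar (AdjoinRoot Q) ℂ, ψ (AdjoinRoot.mk Q (a - r)) :=
      Equiv.sum_comp e fun ψ => ψ (AdjoinRoot.mk Q (a - r))
    rw [h1, AddChar.sum_apply_eq_ite]
    have hN : (Fintype.card (AdjoinRoot Q) : ℂ) ≠ 0 := by
      exact_mod_cast Fintype.card_ne_zero
    by_cases h : Q ∣ a - r
    · rw [if_pos h, if_pos (AdjoinRoot.mk_eq_zero.2 h), div_self hN]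
    · rw [if_neg h, if_neg (fun h' => h (AdjoinRoot.mk_eq_zero.1 h')), zero_div]

end Pool.Agent.H526.PE.Cls
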