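import Pool.Agent.H526.PE.Stm
import Pool.Agent.H604.LD.FinM

/-!
# Task G1: Chowla for the product, with polynomial phases (helper980, for helper526)
-/

set_option autoImplicit false
set_option linter.unusedSectionVars false

namespace Pool.Agent.H526.PE.G1Asm

open Polynomial
open scoped Classical ComplexConjugate
open Pool.Agent.H694.Typ (Mn mem_Mn card_Mn)

theorem ph_mono (h : S_phl) {G : Type} [AddCommGroup G] {k l : ℕ} (hkl : k ≤ l) {P : G → ℂ}
    (hP : Ph k P) : Ph l P := by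
  induction l, hkl using Nat.le_induction with
  | base => exact hP
  | succ l _ ih => exact h.2.2.1 G l P ih

theorem ph_one (h : S_phl) {G : Type} [AddCommGroup G] {l : ℕ} (hl : 1 ≤ l) :
    Ph l (fun _ : G => (1 : ℂ)) :=
  ph_mono h hl (h.2.2.2.2.2.1 G 1 (by simp))

theorem ph_prod (h : S_phl) {G : Type} [AddCommGroup G] {l : ℕ} (hl : 1 ≤ l) {ι : Type}
    (t : Finset ι) (P : ι → G → ℂ) (hP : ∀ i ∈ t, Ph l (P i)) : Ph l (fun u => ∏ i ∈ t, P i u) := by
  classical
  induction t using Finset.induction_on with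
  | empty => exact ph_one h hl
  | insert i t hi ih =>
    have h1 := h.1 G l (P i) (fun u => ∏ i ∈ t, P i u) (hP i (Finset.mem_insert_self i t))
      (ih fun j hj => hP j (Finset.mem_insert_of_mem hj))
    have h2 : (fun u => ∏ j ∈ insert i t, P j u) = fun u => P i u * ∏ j ∈ t, P j u := by
      funext u
      exact Finset.prod_insert hi
    rw [h2]
    exact h1

section

variable {K : Type} [Field K] [Fintype K]

/-- the polynomials of degree less than `H` -/
noncomputable def UH (K : Type) [Field K] [Fintype K] (H : ℕ) : Finset K[X] :=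
  (Mn K H).image (fun a => a - X ^ H)

theorem mem_UH {H : ℕ} {u : K[X]} : u ∈ UH K H ↔ u.degree < (H : WithBot ℕ) := by
  unfold UH
  rw [Finset.mem_image]
  constructor
  · rintro ⟨a, ha, rfl⟩
    rw [mem_Mn] at ha
    have h1 : a.degree = (X ^ H : K[X]).degree := by
      rw [degree_X_pow, degree_eq_natDegree ha.1.ne_zero, ha.2]
    have h2 := degree_sub_lt_of_ne_zero_monic_aux ha.1 (monic_X_pow H) h1
    rw [degree_X_pow] at h2
    exact h2
  · intro hu
    refine ⟨u + X ^ H, ?_, by ring⟩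
    rw [mem_Mn]
    have h2 : u.degree < (X ^ H : K[X]).degree := by rwa [degree_X_pow]
    refine ⟨(monic_X_pow _).add_of_right h2, ?_⟩
    rw [natDegree_add_eq_right_of_degree_lt h2, natDegree_X_pow]
where
  degree_sub_lt_of_ne_zero_monic_aux {a b : K[X]} (ha : a.Monic) (hb : b.Monic)
      (h : a.degree = b.degree) : (a - b).degree < b.degree := by
    rw [← h]
    exact degree_sub_lt h ha.ne_zero (by rw [ha.leadingCoeff, hb.leadingCoeff])

theorem card_UH (H : ℕ) : (UH K H).card = Fintype.card K ^ H := by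
  unfold UH
  rw [Finset.card_image_of_injective _ (fun a b h => sub_left_injective h), card_Mn]

theorem add_mem {m : ℕ} {a w : K[X]} (ha : a ∈ Mn K m) (hw : w.degree < (m : WithBot ℕ)) :
    a + w ∈ Mn K m := by
  rw [mem_Mn] at ha ⊢
  have h1 : w.degree < a.degree := by
    rw [degree_eq_natDegree ha.1.ne_zero, ha.2]
    exact hw
  exact ⟨ha.1.add_of_left h1, by rw [natDegree_add_eq_left_of_degree_lt h1, ha.2]⟩

theorem deg_mul {B u : K[X]} {H m : ℕ} (hB : B ≠ 0) (hu : u.degree < (H : WithBot ℕ))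
    (hm : B.natDegree + H ≤ m) : (B * u).degree < (m : WithBot ℕ) := by
  by_cases h0 : u = 0
  · rw [h0, mul_zero, degree_zero]
    exact WithBot.bot_lt_coe _
  · rw [degree_eq_natDegree (mul_ne_zero hB h0), natDegree_mul hB h0]
    rw [degree_eq_natDegree h0] at hu
    have h1 : u.natDegree < H := by exact_mod_cast hu
    exact_mod_cast (by omega : B.natDegree + u.natDegree < m)

theorem shift {m : ℕ} (Φ : K[X] → ℂ) {w : K[X]} (hw : w.degree < (m : WithBot ℕ)) :
    ∑ a ∈ Mn K m, Φ (a + w) = ∑ a ∈ Mn K m, Φ a := by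
  refine Finset.sum_nbij' (fun a => a + w) (fun a => a - w) (fun a ha => add_mem ha hw)
    (fun a ha => ?_) (fun a _ => add_sub_cancel_right a w) (fun a _ => sub_add_cancel a w)
    (fun a _ => rfl)
  rw [sub_eq_add_neg]
  exact add_mem ha (by rwa [degree_neg])

end

theorem main : S_g1asm := by
  intro hlocu hlocq hphl K _ _ _ f μ n c s ε hf hc hε
  choose γ b e hγ hb hce using fun i => Pool.Agent.H604.LD.FINM.data (hc i)
  obtain ⟨B, hB⟩ : ∃ B : K[X], B = ∏ i, b i ^ 6 := ⟨_, rfl⟩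
  have hB0 : B ≠ 0 := by
    rw [hB]
    exact Finset.prod_ne_zero_iff.2 fun i _ => pow_ne_zero _ (hb i).ne_zero
  have hdvd : ∀ i, b i ^ 6 ∣ B := fun i => by
    rw [hB]
    exact Finset.dvd_prod_of_mem (fun i => b i ^ 6) (Finset.mem_univ i)
  obtain ⟨s', hs'⟩ : ∃ s', s' = max s 3 := ⟨_, rfl⟩
  have hs1 : s ≤ s' := by rw [hs']; exact le_max_left _ _
  have hs3 : 3 ≤ s' := by rw [hs']; exact le_max_right _ _
  obtain ⟨H, N1, hN1⟩ := hlocu K f μ B s' ε hf hB0 hε
  choose N2 hN2 using fun i => hlocq K (γ i) (b i) (e i) (c i) 1 B (hγ i) (hb i) (hce i) monic_one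
    (hdvd i) hB0 H
  refine ⟨N1 + (∑ i, N2 i) + (B.natDegree + H), fun m hm P hP => ?_⟩
  have hmB : B.natDegree + H ≤ m := by omega
  have hmN : ∀ i, N2 i ≤ m := fun i => by
    have := Finset.single_le_sum (f := N2) (fun j _ => Nat.zero_le _) (Finset.mem_univ i)
    omega
  -- the data in the windows
  have hloc : ∀ a : K[X], ∃ (σ : ℂ) (Q : K[X] → ℂ), ‖σ‖ ≤ 1 ∧ Ph s' Q ∧ (a ∈ Mn K m →
      ∀ u : K[X], u.degree < (H : WithBot ℕ) →
        P (a + B * u) * (((∏ i, (lio ((a + B * u) ^ 2 + c i) : ℝ)) : ℝ) : ℂ) = σ * Q u) := by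
    intro a
    by_cases ha : a ∈ Mn K m
    · have ha' := mem_Mn.1 ha
      choose σ Q hσ hQ hQu using fun i => hN2 i a ha'.1 (by rw [ha'.2]; exact hmN i)
      refine ⟨∏ i, σ i, fun u => P (a + B * u) * ∏ i, Q i u, ?_, ?_, fun _ u hu => ?_⟩
      · rw [norm_prod]
        exact Finset.prod_le_one (fun i _ => norm_nonneg _) fun i _ => hσ i
      · refine hphl.1 K[X] s' _ _ ?_ ?_
        · exact ph_mono hphl hs1 (hphl.2.2.2.1 K[X] K[X] s P (AddMonoidHom.mulLeft B) a hP)
        · exact ph_prod hphl (by omega) Finset.univ Q fun i _ => ph_mono hphl hs3 (hQ i)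
      · have h1 : (((∏ i, (lio ((a + B * u) ^ 2 + c i) : ℝ)) : ℝ) : ℂ) =
            ∏ i, (σ i * Q i u) := by
          rw [Complex.ofReal_prod]
          refine Finset.prod_congr rfl fun i _ => ?_
          have h2 := hQu i u hu
          rw [one_mul] at h2
          exact h2
        rw [h1, Finset.prod_mul_distrib]
        ring
    · exact ⟨0, fun _ => 1, by simp, ph_one hphl (by omega), fun h => absurd h ha⟩
  choose σ Q hσ hQ hQu using hloc
  have hset : {u : K[X] | u.degree < (H : WithBot ℕ)} = ((UH K H : Finset K[X]) : Set K[X]) := by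
    ext u
    exact mem_UH.symm
  have hmain := hN1 m (by omega) Q hQ
  simp only [hset, finsum_mem_coe_finset] at hmain
  set Φ : K[X] → ℂ := fun a =>
    P a * (((lio (f.eval a) : ℝ) * ∏ i, (lio (a ^ 2 + c i) : ℝ) : ℝ) : ℂ) with hΦ
  have hq : (0 : ℝ) < (Fintype.card K : ℝ) ^ H := by
    have : 0 < Fintype.card K := Fintype.card_pos
    positivity
  have hsum : ((Fintype.card K : ℂ) ^ H) * ∑ a ∈ Mn K m, Φ a =
      ∑ a ∈ Mn K m, ∑ u ∈ UH K H, Φ (a + B * u) := by
    rw [Finset.sum_comm]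
    have h1 : ∀ u ∈ UH K H, ∑ a ∈ Mn K m, Φ (a + B * u) = ∑ a ∈ Mn K m, Φ a := fun u hu =>
      shift Φ (deg_mul hB0 (mem_UH.1 hu) hmB)
    rw [Finset.sum_congr rfl h1, Finset.sum_const, card_UH, nsmul_eq_mul]
    push_cast
    rfl
  have hin : ∀ a ∈ Mn K m, ‖∑ u ∈ UH K H, Φ (a + B * u)‖ ≤
      ‖∑ u ∈ UH K H, ((lio (f.eval (a + B * u)) : ℝ) : ℂ) * Q a u‖ := by
    intro a ha
    have h1 : ∑ u ∈ UH K H, Φ (a + B * u) =
        σ a * ∑ u ∈ UH K H, ((lio (f.eval (a + B * u)) : ℝ) : ℂ) * Q a u := by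
      rw [Finset.mul_sum]
      refine Finset.sum_congr rfl fun u hu => ?_
      have h2 := hQu a ha u (mem_UH.1 hu)
      show P (a + B * u) * (((lio (f.eval (a + B * u)) : ℝ) *
        ∏ i, (lio ((a + B * u) ^ 2 + c i) : ℝ) : ℝ) : ℂ) = _
      rw [Complex.ofReal_mul]
      linear_combination ((lio (f.eval (a + B * u)) : ℝ) : ℂ) * h2
    rw [h1, norm_mul]
    exact mul_le_of_le_one_left (norm_nonneg _) (hσ a)
  have h5 : (Fintype.card K : ℝ) ^ H * ‖∑ a ∈ Mn K m, Φ a‖ ≤
      ε * (Fintype.card K : ℝ) ^ (m + H) := by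
    have h6 : ‖((Fintype.card K : ℂ) ^ H) * ∑ a ∈ Mn K m, Φ a‖ =
        (Fintype.card K : ℝ) ^ H * ‖∑ a ∈ Mn K m, Φ a‖ := by
      rw [norm_mul, norm_pow, Complex.norm_natCast]
    rw [← h6, hsum]
    exact (norm_sum_le _ _).trans ((Finset.sum_le_sum hin).trans hmain)
  have h7 : (Fintype.card K : ℝ) ^ H * ‖∑ a ∈ Mn K m, Φ a‖ ≤
      (Fintype.card K : ℝ) ^ H * (ε * (Fintype.card K : ℝ) ^ m) := by
    refine h5.trans (le_of_eq ?_)
    rw [pow_add]
    ring
  exact le_of_mul_le_mul_left h7 hq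

end Pool.Agent.H526.PE.G1Asm
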