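import Pool.Agent.H526.PE.Stm
import Pool.Agent.H604.LD.FinM
import Pool.Agent.H524.Cw.Lio

/-!
# Task G2 (helper328, for helper526)
-/

set_option autoImplicit false

namespace Pool.Agent.H526.PE.G2Asm

open Polynomial
open scoped Classical ComplexConjugate
open Pool.Agent.H694.Typ (Mn mem_Mn pol pol_inj pol_degree exists_pol)
open Pool.Agent.H526.PE

/-! ### the Liouville function -/

section lio

variable {K : Type} [Field K]

theorem lio_eq (F : K[X]) : lio F = Pool.Agent.H524.Cw.lio F := rfl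

theorem lio_one : lio (1 : K[X]) = 1 := Pool.Agent.H524.Cw.lio_unit isUnit_one

theorem lio_mul (F G : K[X]) : lio (F * G) = lio F * lio G := Pool.Agent.H524.Cw.lio_mul F G

theorem abs_lio (F : K[X]) : |(lio F : ℝ)| ≤ 1 := Pool.Agent.H524.Cw.abs_lio F

theorem lio_prod {ι : Type} (S : Finset ι) (F : ι → K[X]) :
    lio (∏ i ∈ S, F i) = ∏ i ∈ S, lio (F i) := by
  induction S using Finset.induction_on with
  | empty => rw [Finset.prod_empty, Finset.prod_empty, lio_one]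
  | insert a S ha ih => rw [Finset.prod_insert ha, Finset.prod_insert ha, lio_mul, ih]

theorem abs_prod_lio {ι : Type} (S : Finset ι) (F : ι → K[X]) :
    |∏ i ∈ S, (lio (F i) : ℝ)| ≤ 1 := by
  rw [Finset.abs_prod]
  exact Finset.prod_le_one (fun i _ => abs_nonneg _) fun i _ => abs_lio _

end lio

/-! ### windows -/

section win

variable {K : Type} [Field K] [Fintype K]

theorem win_sum (H : ℕ) (φ : K[X] → ℂ) : ∑ᶠ u ∈ {u : K[X] | u.degree < (H : WithBot ℕ)}, φ u =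
    ∑ c : Fin H → K, φ (pol c) := by
  have himg : {u : K[X] | u.degree < (H : WithBot ℕ)} =
      ((Finset.univ.image (pol : (Fin H → K) → K[X]) : Finset K[X]) : Set K[X]) := by
    ext u
    simp only [Set.mem_ofPred_eq, Finset.coe_image, Finset.coe_univ, Set.image_univ, Set.mem_range]
    constructor
    · intro h
      exact exists_pol h
    · rintro ⟨c, rfl⟩
      exact pol_degree c
  rw [himg, finsum_mem_coe_finset, Finset.sum_image (fun a _ b _ h => pol_inj h)]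

theorem Mn_add {d : ℕ} {w : K[X]} (hw : w.degree < (d : WithBot ℕ)) {B : K[X]} (hB : B ∈ Mn K d) :
    B + w ∈ Mn K d := by
  rw [mem_Mn] at hB ⊢
  have hd : w.degree < B.degree := by
    rw [degree_eq_natDegree hB.1.ne_zero, hB.2]
    exact hw
  exact ⟨hB.1.add_of_left hd, by rw [natDegree_add_eq_left_of_degree_lt hd, hB.2]⟩

theorem shift {d : ℕ} {w : K[X]} (hw : w.degree < (d : WithBot ℕ)) (Φ : K[X] → ℂ) :
    ∑ B ∈ Mn K d, Φ (B + w) = ∑ B ∈ Mn K d, Φ B := by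
  refine Finset.sum_bij' (fun B _ => B + w) (fun B _ => B - w) (fun B hB => Mn_add hw hB)
    (fun B hB => ?_) (fun B _ => add_sub_cancel_right B w) (fun B _ => sub_add_cancel B w)
    (fun B _ => rfl)
  rw [sub_eq_add_neg]
  exact Mn_add (by rwa [degree_neg]) hB

omit [Fintype K] in
theorem deg_lt {B₀ u : K[X]} {H d : ℕ} (h : B₀.natDegree + H ≤ d) (hu : u.degree < (H : WithBot ℕ)) :
    (B₀ * u).degree < (d : WithBot ℕ) := by
  by_cases h0 : B₀ * u = 0
  · rw [h0, degree_zero]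
    exact WithBot.bot_lt_coe _
  · have hB : B₀ ≠ 0 := left_ne_zero_of_mul h0
    have hu0 : u ≠ 0 := right_ne_zero_of_mul h0
    have h1 : u.natDegree < H := (natDegree_lt_iff_degree_lt hu0).2 hu
    rw [degree_eq_natDegree h0, natDegree_mul hB hu0]
    exact_mod_cast (by omega : B₀.natDegree + u.natDegree < d)

theorem avg {d H : ℕ} {B₀ : K[X]} (h : B₀.natDegree + H ≤ d) (Φ : K[X] → ℂ) :
    ((Fintype.card K : ℂ) ^ H) * ∑ B ∈ Mn K d, Φ B =
      ∑ B ∈ Mn K d, ∑ᶠ u ∈ {u : K[X] | u.degree < (H : WithBot ℕ)}, Φ (B + B₀ * u) := by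
  simp only [win_sum]
  rw [Finset.sum_comm]
  have h1 : ∀ c : Fin H → K, ∑ B ∈ Mn K d, Φ (B + B₀ * pol c) = ∑ B ∈ Mn K d, Φ B :=
    fun c => shift (deg_lt h (pol_degree c)) Φ
  rw [Finset.sum_congr rfl fun c _ => h1 c, Finset.sum_const, Finset.card_univ, nsmul_eq_mul,
    Fintype.card_fun, Fintype.card_fin, Nat.cast_pow]

end win

/-! ### local phases -/

/-- in the window `W` is a constant times a phase -/
def LP {K : Type} [Field K] (s H : ℕ) (W : K[X] → ℂ) : Prop :=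
  ∃ (σ : ℂ) (P : K[X] → ℂ), ‖σ‖ ≤ 1 ∧ Ph s P ∧ ∀ u : K[X], u.degree < (H : WithBot ℕ) → W u = σ * P u

section lp

variable {K : Type} [Field K]

theorem Ph_mono (hl : S_phl) {G : Type} [AddCommGroup G] {s t : ℕ} (h : s ≤ t) {P : G → ℂ}
    (hP : Ph s P) : Ph t P := by
  induction h with
  | refl => exact hP
  | step _ ih => exact hl.2.2.1 G _ P ih

theorem LP_mono (hl : S_phl) {s t H : ℕ} (h : s ≤ t) {W : K[X] → ℂ} (hW : LP s H W) : LP t H W := by
  obtain ⟨σ, P, h1, h2, h3⟩ := hW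
  exact ⟨σ, P, h1, Ph_mono hl h h2, h3⟩

theorem LP_mul (hl : S_phl) {s H : ℕ} {W V : K[X] → ℂ} (hW : LP s H W) (hV : LP s H V) :
    LP s H (fun u => W u * V u) := by
  obtain ⟨σ, P, h1, h2, h3⟩ := hW
  obtain ⟨τ, Q, k1, k2, k3⟩ := hV
  refine ⟨σ * τ, fun u => P u * Q u, ?_, hl.1 _ _ _ _ h2 k2, fun u hu => ?_⟩
  · rw [norm_mul]
    exact mul_le_one₀ h1 (norm_nonneg _) k1
  · change W u * V u = σ * τ * (P u * Q u)
    rw [h3 u hu, k3 u hu]
    ring

theorem LP_prod (hl : S_phl) {s H : ℕ} {ι : Type} (S : Finset ι) {W : ι → K[X] → ℂ}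
    (hW : ∀ i ∈ S, LP s H (W i)) : LP s H (fun u => ∏ i ∈ S, W i u) := by
  induction S using Finset.induction_on with
  | empty =>
    refine ⟨1, fun _ => 1, by simp, ?_, fun u _ => by simp⟩
    exact Ph_mono hl (Nat.zero_le s) (fun _ => rfl)
  | insert a S ha ih =>
    have h1 := LP_mul hl (hW a (Finset.mem_insert_self a S))
      (ih fun i hi => hW i (Finset.mem_insert_of_mem hi))
    have h2 : (fun u => ∏ i ∈ insert a S, W i u) = fun u => W a u * ∏ i ∈ S, W i u := by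
      funext u
      rw [Finset.prod_insert ha]
    rw [h2]
    exact h1

end lp

/-! ### products of linear forms -/

section lin

theorem sep_prod {F ι : Type} [Field F] [Fintype ι] (A b : ι → F) (hA : ∀ x, A x ≠ 0)
    (hAb : ∀ x y, x ≠ y → A x * b y ≠ A y * b x) : (∏ x, (C (A x) * X + C (b x))).Separable := by
  refine separable_prod' (fun x _ y _ hxy => ?_) fun x _ => ?_
  · have hd : A x * b y - A y * b x ≠ 0 := sub_ne_zero.2 (hAb x y hxy)
    refine ⟨-(C (A x * b y - A y * b x)⁻¹ * C (A y)), C (A x * b y - A y * b x)⁻¹ * C (A x), ?_⟩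
    have h1 : -(C (A x * b y - A y * b x)⁻¹ * C (A y)) * (C (A x) * X + C (b x)) +
        C (A x * b y - A y * b x)⁻¹ * C (A x) * (C (A y) * X + C (b y)) =
        C ((A x * b y - A y * b x)⁻¹ * (A x * b y - A y * b x)) := by
      rw [C_mul, C_sub, C_mul, C_mul]
      ring
    rw [h1, inv_mul_cancel₀ hd, C_1]
  · have h1 : derivative (C (A x) * X + C (b x)) = C (A x) := by
      rw [derivative_add, derivative_mul, derivative_C, derivative_X, derivative_C]
      ring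
    rw [Separable, h1]
    refine ⟨0, C (A x)⁻¹, ?_⟩
    rw [zero_mul, zero_add, ← C_mul, inv_mul_cancel₀ (hA x), C_1]

theorem eval_prod_lin {K : Type} [Field K] {ι : Type} [Fintype ι] (A b : ι → K[X]) (B : K[X]) :
    (∏ x, (C (A x) * X + C (b x)) : K[X][X]).eval B = ∏ x, (A x * B + b x) := by
  rw [eval_prod]
  refine Finset.prod_congr rfl fun x _ => ?_
  rw [eval_add, eval_mul, eval_C, eval_X, eval_C]

theorem adf_prod {K : Type} [Field K] {ι : Type} [Fintype ι] [Nonempty ι] (A b : ι → K[X])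
    (hA : ∀ x, A x ≠ 0) (hAb : ∀ x y, x ≠ y → A x * b y ≠ A y * b x) :
    Adf (∏ x, (C (A x) * X + C (b x)) : K[X][X]) 1 := by
  have hinj := RatFunc.algebraMap_injective K
  refine ⟨?_, ?_, one_ne_zero, ?_⟩
  · have h1 : ∀ x ∈ (Finset.univ : Finset ι), (C (A x) * X + C (b x) : K[X][X]) ≠ 0 := by
      intro x _ h0
      have := natDegree_linear (a := A x) (b := b x) (hA x)
      rw [h0, natDegree_zero] at this
      omega
    rw [natDegree_prod _ _ h1, Finset.sum_congr rfl fun x _ => natDegree_linear (hA x),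
      Finset.sum_const, Finset.card_univ, smul_eq_mul, mul_one]
    exact Fintype.card_pos
  · have h1 : (∏ x, (C (A x) * X + C (b x)) : K[X][X]).map (algebraMap K[X] (RatFunc K)) =
        ∏ x, (C (algebraMap K[X] (RatFunc K) (A x)) * X +
          C (algebraMap K[X] (RatFunc K) (b x))) := by
      rw [Polynomial.map_prod]
      refine Finset.prod_congr rfl fun x _ => ?_
      rw [Polynomial.map_add, Polynomial.map_mul, map_C, map_X, map_C]
    rw [h1]
    refine sep_prod _ _ (fun x h0 => hA x (hinj (by rw [h0, map_zero]))) fun x y hxy h0 => ?_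
    rw [← map_mul, ← map_mul] at h0
    exact hAb x y hxy (hinj h0)
  · intro θ hθ
    rw [map_prod, Finset.prod_eq_zero_iff] at hθ
    obtain ⟨x, _, hx⟩ := hθ
    rw [map_add, map_mul, aeval_C, aeval_C, aeval_X] at hx
    refine ⟨algebraMap K[X] (RatFunc K) (b x) / algebraMap K[X] (RatFunc K) (A x), 0, ?_, ?_⟩
    · have h0 := isSeparable_algebraMap (F := RatFunc K) (K := AlgebraicClosure (RatFunc K)) 0
      rwa [map_zero] at h0
    · rw [IsScalarTower.algebraMap_apply K[X] (RatFunc K) (AlgebraicClosure (RatFunc K)),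
        IsScalarTower.algebraMap_apply K[X] (RatFunc K) (AlgebraicClosure (RatFunc K))] at hx
      have hA0 : algebraMap (RatFunc K) (AlgebraicClosure (RatFunc K))
          (algebraMap K[X] (RatFunc K) (A x)) ≠ 0 := by
        intro h0
        have h1 : algebraMap K[X] (RatFunc K) (A x) = 0 :=
          (algebraMap (RatFunc K) (AlgebraicClosure (RatFunc K))).injective (by rw [h0, map_zero])
        exact hA x (hinj (by rw [h1, map_zero]))
      rw [map_one, one_mul, map_div₀, zero_pow (by norm_num)]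
      have h2 : θ + algebraMap (RatFunc K) (AlgebraicClosure (RatFunc K))
          (algebraMap K[X] (RatFunc K) (b x)) / algebraMap (RatFunc K)
          (AlgebraicClosure (RatFunc K)) (algebraMap K[X] (RatFunc K) (A x)) =
          (algebraMap (RatFunc K) (AlgebraicClosure (RatFunc K))
            (algebraMap K[X] (RatFunc K) (A x)) * θ +
          algebraMap (RatFunc K) (AlgebraicClosure (RatFunc K))
            (algebraMap K[X] (RatFunc K) (b x))) / algebraMap (RatFunc K)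
          (AlgebraicClosure (RatFunc K)) (algebraMap K[X] (RatFunc K) (A x)) := by
        rw [add_div, mul_div_cancel_left₀ _ hA0]
      rw [h2, hx, zero_div]

end lin

/-! ### two primes -/

section pair

variable {K : Type} [Field K]

/-- the product of the values of the Liouville function -/
noncomputable def GG {k n : ℕ} (α β : Fin k → K[X]) (c : Fin n → K[X]) (a : K[X]) : ℝ :=
  (∏ j, (lio (α j * a + β j) : ℝ)) * ∏ i, (lio (a ^ 2 + c i) : ℝ)

theorem abs_GG {k n : ℕ} (α β : Fin k → K[X]) (c : Fin n → K[X]) (a : K[X]) :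
    |GG α β c a| ≤ 1 := by
  unfold GG
  rw [abs_mul]
  exact mul_le_one₀ (abs_prod_lio _ _) (abs_nonneg _) (abs_prod_lio _ _)

/-- the two primes -/
def RR (P₁ Q₁ : K[X]) : Bool → K[X]
  | true => P₁
  | false => Q₁

theorem det_ne {k : ℕ} {α β : Fin k → K[X]} (hα : ∀ j, α j ≠ 0) (hβ : ∀ j, β j ≠ 0)
    (hαβ : ∀ i j, i ≠ j → α i * β j ≠ α j * β i) {P₁ Q₁ : K[X]} (hP : P₁.Monic) (hQ : Q₁.Monic)
    (hPi : Irreducible P₁) (hQi : Irreducible Q₁) (hne : P₁ ≠ Q₁)
    (hPd : ∀ i j, (α i * β j).natDegree < P₁.natDegree)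
    (hQd : ∀ i j, (α i * β j).natDegree < Q₁.natDegree) (x y : Fin k × Bool) (hxy : x ≠ y) :
    α x.1 * RR P₁ Q₁ x.2 * β y.1 ≠ α y.1 * RR P₁ Q₁ y.2 * β x.1 := by
  have hR : ∀ t, RR P₁ Q₁ t ≠ 0 := by
    intro t
    cases t
    · exact hQ.ne_zero
    · exact hP.ne_zero
  have key : ∀ (R S : K[X]) (i j : Fin k), R.Monic → S.Monic → Irreducible R → Irreducible S →
      R ≠ S → (α j * β i).natDegree < R.natDegree → α i * R * β j ≠ α j * S * β i := by
    intro R S i j hRm hSm hRi hSi hRS hd h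
    have h1 : R ∣ S * (α j * β i) := ⟨α i * β j, by linear_combination -h⟩
    rcases hRi.prime.dvd_or_dvd h1 with h2 | h2
    · exact hRS (eq_of_monic_of_associated hRm hSm (hRi.associated_of_dvd hSi h2))
    · have h3 := natDegree_le_of_dvd h2 (mul_ne_zero (hα j) (hβ i))
      omega
  obtain ⟨i, t⟩ := x
  obtain ⟨j, t'⟩ := y
  intro h
  by_cases ht : t = t'
  · subst ht
    have hij : i ≠ j := fun h0 => hxy (by rw [h0])
    apply hαβ i j hij
    apply mul_left_cancel₀ (hR t)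
    linear_combination h
  · cases t <;> cases t'
    · exact ht rfl
    · exact key Q₁ P₁ i j hQ hP hQi hPi hne.symm (hQd j i) h
    · exact key P₁ Q₁ i j hP hQ hPi hQi hne (hPd j i) h
    · exact ht rfl

theorem lio_eval {k : ℕ} (α β : Fin k → K[X]) (P₁ Q₁ B : K[X]) :
    (lio ((∏ x : Fin k × Bool, (C (α x.1 * RR P₁ Q₁ x.2) * X + C (β x.1)) : K[X][X]).eval B) : ℝ) =
      (∏ j, (lio (α j * (P₁ * B) + β j) : ℝ)) * ∏ j, (lio (α j * (Q₁ * B) + β j) : ℝ) := by
  rw [eval_prod_lin (fun x : Fin k × Bool => α x.1 * RR P₁ Q₁ x.2) (fun x => β x.1), lio_prod,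
    Int.cast_prod, Fintype.prod_prod_type, ← Finset.prod_mul_distrib]
  refine Finset.prod_congr rfl fun j _ => ?_
  rw [Fintype.prod_bool]
  change (lio (α j * P₁ * B + β j) : ℝ) * (lio (α j * Q₁ * B + β j) : ℝ) = _
  rw [mul_assoc, mul_assoc]

theorem Ph_lin (hl : S_phl) {s : ℕ} {P : K[X] → ℂ} (hP : Ph s P) (P₁ a B₀ : K[X]) :
    Ph s (fun u => P (P₁ * (a + B₀ * u))) := by
  have h := hl.2.2.2.1 K[X] K[X] s P (AddMonoidHom.mulLeft (P₁ * B₀)) (P₁ * a) hP
  have h2 : (fun u => P (P₁ * (a + B₀ * u))) =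
      fun u => P (P₁ * a + (AddMonoidHom.mulLeft (P₁ * B₀)) u) := by
    funext u
    rw [AddMonoidHom.coe_mulLeft]
    congr 1
    ring
  rw [h2]
  exact h

end pair

theorem pair {K : Type} [Field K] [Fintype K] [CharP K 2] (hu : S_locu) (hq : S_locq) (hl : S_phl)
    {k n : ℕ} {α β : Fin k → K[X]} {c : Fin n → K[X]} (hk : 1 ≤ k) (hα : ∀ j, α j ≠ 0)
    (hβ : ∀ j, β j ≠ 0) (hαβ : ∀ i j, i ≠ j → α i * β j ≠ α j * β i) (hc : ∀ i, ¬ IsSquare (c i))
    {P₁ Q₁ : K[X]} (hP : P₁.Monic) (hQ : Q₁.Monic)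
    (hPi : Irreducible P₁) (hQi : Irreducible Q₁) (hne : P₁ ≠ Q₁)
    (hPd : ∀ i j, (α i * β j).natDegree < P₁.natDegree)
    (hQd : ∀ i j, (α i * β j).natDegree < Q₁.natDegree) (s : ℕ) (ε : ℝ) (hε : 0 < ε) :
    ∃ d₀ : ℕ, ∀ d : ℕ, d₀ ≤ d → ∀ P : K[X] → ℂ, Ph s P →
      ‖∑ B ∈ Mn K d, (P (P₁ * B) * ((GG α β c (P₁ * B) : ℝ) : ℂ)) *
        conj (P (Q₁ * B) * ((GG α β c (Q₁ * B) : ℝ) : ℂ))‖ ≤ ε * (Fintype.card K : ℝ) ^ d := by
  choose γ b e hγ hb hcd using fun i => Pool.Agent.H604.LD.FINM.data (hc i)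
  have hB₀ : (∏ i, b i ^ 6) ≠ 0 := Finset.prod_ne_zero_iff.2 fun i _ => pow_ne_zero 6 (hb i).ne_zero
  have hdvd : ∀ i, b i ^ 6 ∣ ∏ i, b i ^ 6 := fun i =>
    Finset.dvd_prod_of_mem (fun i => b i ^ 6) (Finset.mem_univ i)
  generalize (∏ i, b i ^ 6) = B₀ at hB₀ hdvd
  have hR : ∀ t, RR P₁ Q₁ t ≠ 0 := by
    intro t
    cases t
    · exact hQ.ne_zero
    · exact hP.ne_zero
  have : Nonempty (Fin k) := ⟨⟨0, hk⟩⟩
  have hf := adf_prod (fun x : Fin k × Bool => α x.1 * RR P₁ Q₁ x.2) (fun x => β x.1)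
    (fun x => mul_ne_zero (hα _) (hR _)) (det_ne hα hβ hαβ hP hQ hPi hQi hne hPd hQd)
  have hev := lio_eval α β P₁ Q₁
  generalize (∏ x : Fin k × Bool, (C (α x.1 * RR P₁ Q₁ x.2) * X + C (β x.1)) : K[X][X]) = f
    at hf hev
  obtain ⟨H, N, hN⟩ := hu K f 1 B₀ (max s 3) ε hf hB₀ hε
  choose N1 hN1 using fun i => hq K (γ i) (b i) (e i) (c i) P₁ B₀ (hγ i) (hb i) (hcd i) hP
    (hdvd i) hB₀ H
  choose N2 hN2 using fun i => hq K (γ i) (b i) (e i) (c i) Q₁ B₀ (hγ i) (hb i) (hcd i) hQ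
    (hdvd i) hB₀ H
  refine ⟨max (max N (B₀.natDegree + H)) (max (Finset.univ.sup N1) (Finset.univ.sup N2)),
    fun d hd P hPh => ?_⟩
  have hd1 : N ≤ d := (le_max_left _ _).trans ((le_max_left _ _).trans hd)
  have hd2 : B₀.natDegree + H ≤ d := (le_max_right _ _).trans ((le_max_left _ _).trans hd)
  have hd3 : ∀ i, N1 i ≤ d := fun i =>
    (Finset.le_sup (Finset.mem_univ i)).trans ((le_max_left _ _).trans ((le_max_right _ _).trans hd))
  have hd4 : ∀ i, N2 i ≤ d := fun i =>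
    (Finset.le_sup (Finset.mem_univ i)).trans ((le_max_right _ _).trans ((le_max_right _ _).trans hd))
  have hloc : ∀ a : K[X], ∃ (σ : ℂ) (P' : K[X] → ℂ), ‖σ‖ ≤ 1 ∧ Ph (max s 3) P' ∧ (a ∈ Mn K d →
      ∀ u : K[X], u.degree < (H : WithBot ℕ) →
        (P (P₁ * (a + B₀ * u)) * ((GG α β c (P₁ * (a + B₀ * u)) : ℝ) : ℂ)) *
        conj (P (Q₁ * (a + B₀ * u)) * ((GG α β c (Q₁ * (a + B₀ * u)) : ℝ) : ℂ)) =
          σ * (((lio (f.eval (a + B₀ * u)) : ℝ) : ℂ) * P' u)) := by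
    intro a
    by_cases ha : a ∈ Mn K d
    · have ha' := mem_Mn.1 ha
      have h1 : LP (max s 3) H (fun u => P (P₁ * (a + B₀ * u)) * conj (P (Q₁ * (a + B₀ * u)))) := by
        refine ⟨1, _, by simp, Ph_mono hl (le_max_left s 3)
          (hl.1 _ _ _ _ (Ph_lin hl hPh P₁ a B₀) (hl.2.1 _ _ _ (Ph_lin hl hPh Q₁ a B₀))),
          fun u _ => (one_mul _).symm⟩
      have h2 : LP (max s 3) H (fun u => ∏ i, (((lio ((P₁ * (a + B₀ * u)) ^ 2 + c i) : ℝ) : ℂ) *
          ((lio ((Q₁ * (a + B₀ * u)) ^ 2 + c i) : ℝ) : ℂ))) := by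
        refine LP_prod hl _ fun i _ => LP_mono hl (le_max_right s 3) (LP_mul hl ?_ ?_)
        · exact hN1 i a ha'.1 (by rw [ha'.2]; exact hd3 i)
        · exact hN2 i a ha'.1 (by rw [ha'.2]; exact hd4 i)
      obtain ⟨σ, P', h3, h4, h5⟩ := LP_mul hl h1 h2
      refine ⟨σ, P', h3, h4, fun _ u hu => ?_⟩
      have h6 := h5 u hu
      have h7 : σ * (((lio (f.eval (a + B₀ * u)) : ℝ) : ℂ) * P' u) =
          ((lio (f.eval (a + B₀ * u)) : ℝ) : ℂ) * (σ * P' u) := by ring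
      rw [h7, ← h6, hev (a + B₀ * u)]
      unfold GG
      beta_reduce
      rw [map_mul, Complex.conj_ofReal, Finset.prod_mul_distrib]
      push_cast
      ring
    · exact ⟨0, fun _ => 1, by simp, Ph_mono hl (Nat.zero_le _) (fun _ => rfl),
        fun h => absurd h ha⟩
  choose σ P' hσ hP' hw using hloc
  have h1 := avg hd2 (fun B => (P (P₁ * B) * ((GG α β c (P₁ * B) : ℝ) : ℂ)) *
        conj (P (Q₁ * B) * ((GG α β c (Q₁ * B) : ℝ) : ℂ)))
  have h2 : ∀ a ∈ Mn K d, (∑ᶠ u ∈ {u : K[X] | u.degree < (H : WithBot ℕ)},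
      (P (P₁ * (a + B₀ * u)) * ((GG α β c (P₁ * (a + B₀ * u)) : ℝ) : ℂ)) *
        conj (P (Q₁ * (a + B₀ * u)) * ((GG α β c (Q₁ * (a + B₀ * u)) : ℝ) : ℂ))) =
      σ a * ∑ᶠ u ∈ {u : K[X] | u.degree < (H : WithBot ℕ)},
        ((lio (f.eval (a + B₀ * u)) : ℝ) : ℂ) * P' a u := by
    intro a ha
    rw [win_sum, win_sum, Finset.mul_sum]
    exact Finset.sum_congr rfl fun v _ => hw a ha (pol v) (pol_degree v)
  have h3 := hN d hd1 P' hP'
  have hq0 : (0 : ℝ) < (Fintype.card K : ℝ) := by exact_mod_cast Fintype.card_pos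
  have h4 : (Fintype.card K : ℝ) ^ H *
      ‖∑ B ∈ Mn K d, (P (P₁ * B) * ((GG α β c (P₁ * B) : ℝ) : ℂ)) *
        conj (P (Q₁ * B) * ((GG α β c (Q₁ * B) : ℝ) : ℂ))‖ ≤
      ε * (Fintype.card K : ℝ) ^ (d + H) := by
    have h5 : (Fintype.card K : ℝ) ^ H *
      ‖∑ B ∈ Mn K d, (P (P₁ * B) * ((GG α β c (P₁ * B) : ℝ) : ℂ)) *
        conj (P (Q₁ * B) * ((GG α β c (Q₁ * B) : ℝ) : ℂ))‖ =
      ‖((Fintype.card K : ℂ) ^ H) * ∑ B ∈ Mn K d, (P (P₁ * B) * ((GG α β c (P₁ * B) : ℝ) : ℂ)) *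
        conj (P (Q₁ * B) * ((GG α β c (Q₁ * B) : ℝ) : ℂ))‖ := by
      rw [norm_mul, norm_pow, Complex.norm_natCast]
    rw [h5, h1, Finset.sum_congr rfl h2]
    refine (norm_sum_le _ _).trans (le_trans (Finset.sum_le_sum fun a _ => ?_) h3)
    rw [norm_mul]
    exact mul_le_of_le_one_left (norm_nonneg _) (hσ a)
  have h6 : ε * (Fintype.card K : ℝ) ^ (d + H) =
      (Fintype.card K : ℝ) ^ H * (ε * (Fintype.card K : ℝ) ^ d) := by
    rw [pow_add]
    ring
  rw [h6] at h4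
  exact le_of_mul_le_mul_left h4 (pow_pos hq0 H)

theorem main : S_g2asm := by
  intro hu hq hK hl K _ _ _ k n α β c s ε hk hα hβ hαβ hc hε
  have h := hK K {g | ∃ P : K[X] → ℂ, Ph s P ∧ g = fun a => P a * ((GG α β c a : ℝ) : ℂ)}
    (1 + ∑ i, ∑ j, (α i * β j).natDegree) ?_ ?_ ε hε
  · obtain ⟨m₀, hm₀⟩ := h
    exact ⟨m₀, fun m hm P hP F hF => hm₀ m hm _ ⟨P, hP, rfl⟩ F hF⟩
  · rintro g ⟨P, hP, rfl⟩ f
    change ‖P f * ((GG α β c f : ℝ) : ℂ)‖ ≤ 1
    rw [norm_mul, hl.2.2.2.2.1 _ _ _ hP f, one_mul, Complex.norm_real]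
    exact abs_GG α β c f
  · intro P₁ Q₁ hP hQ hPi hQi hne hdeg hz ε' hε'
    have hle : ∀ i j, (α i * β j).natDegree ≤ ∑ i, ∑ j, (α i * β j).natDegree := by
      intro i j
      refine le_trans ?_ (Finset.single_le_sum (f := fun i => ∑ j, (α i * β j).natDegree)
        (fun i _ => Nat.zero_le _) (Finset.mem_univ i))
      exact Finset.single_le_sum (f := fun j => (α i * β j).natDegree)
        (fun i _ => Nat.zero_le _) (Finset.mem_univ j)
    obtain ⟨d₀, hd₀⟩ := pair hu hq hl (n := n) hk hα hβ hαβ hc hP hQ hPi hQi hne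
      (fun i j => by have := hle i j; omega) (fun i j => by have := hle i j; omega) s ε' hε'
    refine ⟨d₀, fun d hd g hg => ?_⟩
    obtain ⟨P, hPh, rfl⟩ := hg
    exact hd₀ d hd P hPh

end Pool.Agent.H526.PE.G2Asm
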