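import Pool.Agent.H526.PE.Stm
import Pool.Agent.H604.LD.FinM

/-!
# Task G3: all multiplicative functions, the non-degenerate case (helper860, for helper526)
-/

set_option autoImplicit false
set_option linter.unusedSectionVars false

namespace Pool.Agent.H526.PE.G3Asm

open Polynomial
open scoped Classical ComplexConjugate
open Pool.Agent.H694.Typ (Mn)
open Pool.Agent.H604.LD (om p1 rf bB)
open Pool.Agent.H526.PE

theorem abs_lio_le {K : Type} [Field K] (F : K[X]) : |(lio F : ℝ)| ≤ 1 := by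
  unfold lio
  split_ifs with h
  · simp
  · rw [Int.cast_pow, abs_pow]
    simp

theorem norm_prod_lio_le {K : Type} [Field K] {n : ℕ} (f : Fin n → K[X]) :
    ‖((∏ i, (lio (f i) : ℝ) : ℝ) : ℂ)‖ ≤ 1 := by
  rw [Complex.norm_real, Real.norm_eq_abs, Finset.abs_prod]
  exact Finset.prod_le_one (fun i _ => abs_nonneg _) (fun i _ => abs_lio_le _)

/-- The family of functions. -/
def fam {K : Type} [Field K] {n : ℕ} (c : Fin n → K[X]) (s : ℕ) : Set (K[X] → ℂ) :=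
  {g | ∃ P : K[X] → ℂ, Ph s P ∧
    ∀ a, g a = P a * ((∏ i, (lio (a ^ 2 + c i) : ℝ) : ℝ) : ℂ)}

theorem nondeg {K : Type} [Field K] [Fintype K] [CharP K 2] {n : ℕ} {γ : Fin n → K}
    {b e c : Fin n → K[X]} (hγ : ∀ i, γ i ≠ 0) (hb : ∀ i, (b i).Monic)
    (hcd : ∀ i, c i = e i ^ 2 + X * (C (γ i) * b i) ^ 2)
    (hnd : ∑ i, 1 / rf (derivative (c i)) ≠ 0 ∨ ∑ i, rf (c i) / rf (derivative (c i)) ^ 2 ≠ 0) :
    om γ b ≠ 0 ∨ p1 γ b e ≠ 0 := by
  by_contra hcon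
  push Not at hcon
  obtain ⟨h1, h2⟩ := hcon
  have hder : ∀ i, derivative (c i) = (C (γ i) * b i) ^ 2 := fun i =>
    Pool.Agent.H604.LD.FINM.der (hcd i)
  have hz : rf (0 : K[X]) = 0 := map_zero _
  have hs1 : ∑ i, 1 / rf (derivative (c i)) = 0 := by
    have h3 : ∑ i, 1 / rf (derivative (c i)) = (rf (om γ b) / rf (bB γ b)) ^ 2 := by
      rw [← Pool.Agent.H604.LD.FINM.sum1 hγ hb]
      exact Finset.sum_congr rfl fun i _ => by rw [hder]
    rw [h3, h1, hz, zero_div, zero_pow (by norm_num)]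
  have hs2 : ∑ i, rf (c i) / rf (derivative (c i)) ^ 2 = 0 := by
    have h3 : ∑ i, rf (c i) / rf (derivative (c i)) ^ 2 =
        (rf (p1 γ b e) / rf (bB γ b) ^ 2) ^ 2 + rf X * (rf (om γ b) / rf (bB γ b)) ^ 2 := by
      rw [← Pool.Agent.H604.LD.FINM.sum2 hγ hb]
      exact Finset.sum_congr rfl fun i _ => by rw [hder, hcd i]
    rw [h3, h1, h2, hz, zero_div, zero_div, zero_pow (by norm_num), mul_zero, add_zero]
  rcases hnd with h | h
  · exact h hs1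
  · exact h hs2

/-- The phase of the product of two dilates. -/
theorem ph_two (hphl : S_phl) {K : Type} [Field K] (s : ℕ) (P : K[X] → ℂ) (hP : Ph s P)
    (A₁ A₂ : K[X]) : Ph s (fun B => P (A₁ * B) * conj (P (A₂ * B))) := by
  obtain ⟨h1, h2, -, h4, -⟩ := hphl
  have h5 : ∀ A : K[X], Ph s (fun B => P (A * B)) := by
    intro A
    have h6 := h4 K[X] K[X] s P (AddMonoidHom.mulLeft A) 0 hP
    have h7 : (fun u => P (0 + (AddMonoidHom.mulLeft A) u)) = fun B => P (A * B) := by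
      funext B
      rw [zero_add, AddMonoidHom.coe_mulLeft]
    rw [h7] at h6
    exact h6
  exact h1 K[X] s _ _ (h5 A₁) (h2 K[X] s _ (h5 A₂))

/-- **Task G3.** -/
theorem main : Pool.Agent.H526.PE.S_g3asm := by
  intro htiim hkat hphl K _ _ _ n c s ε hc hnd hε
  choose γ b e hγ hb hcd using fun i => Pool.Agent.H604.LD.FINM.data (hc i)
  have hor : om γ b ≠ 0 ∨ p1 γ b e ≠ 0 := nondeg hγ hb hcd hnd
  have hbd : ∀ g ∈ fam c s, ∀ f, ‖g f‖ ≤ 1 := by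
    rintro g ⟨P, hP, hg⟩ f
    obtain ⟨-, -, -, -, h5, -⟩ := hphl
    rw [hg, norm_mul, h5 K[X] s P hP f, one_mul]
    exact norm_prod_lio_le _
  have hcor : ∀ P Q : K[X], P.Monic → Q.Monic → Irreducible P → Irreducible Q → P ≠ Q →
      P.natDegree = Q.natDegree → 0 ≤ P.natDegree → ∀ ε : ℝ, 0 < ε → ∃ d₀ : ℕ, ∀ d : ℕ, d₀ ≤ d →
      ∀ g ∈ fam c s, ‖∑ B ∈ Mn K d, g (P * B) * conj (g (Q * B))‖ ≤
        ε * (Fintype.card K : ℝ) ^ d := by
    intro A₁ A₂ hA₁ hA₂ _ _ hne _ _ ε' hε'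
    obtain ⟨d₀, hd₀⟩ := htiim K n γ b e c ⟨hγ, hb, hcd⟩ hor A₁ A₂ hA₁ hA₂ hne s ε' hε'
    refine ⟨d₀, fun d hd g hg => ?_⟩
    obtain ⟨P, hP, hgP⟩ := hg
    have h1 := hd₀ d hd (fun B => P (A₁ * B) * conj (P (A₂ * B))) (ph_two hphl s P hP A₁ A₂)
    have h2 : ∑ B ∈ Mn K d, g (A₁ * B) * conj (g (A₂ * B)) =
        ∑ B ∈ Mn K d, (P (A₁ * B) * conj (P (A₂ * B))) *
          ((lam c A₁ B * lam c A₂ B : ℝ) : ℂ) := by
      refine Finset.sum_congr rfl fun B _ => ?_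
      rw [hgP, hgP, map_mul, Complex.conj_ofReal]
      unfold lam
      rw [Complex.ofReal_mul]
      ring
    rw [h2]
    exact h1
  obtain ⟨m₀, hm₀⟩ := hkat K (fam c s) 0 hbd hcor ε hε
  refine ⟨m₀, fun m hm P hP F hF => ?_⟩
  exact hm₀ m hm (fun a => P a * ((∏ i, (lio (a ^ 2 + c i) : ℝ) : ℝ) : ℂ))
    ⟨P, hP, fun a => rfl⟩ F hF

end Pool.Agent.H526.PE.G3Asm
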