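import Pool.Agent.H526.PE.Stm
import Pool.Agent.H526.PQ.Katai

/-!
The criterion of Katai over `K[X]`, uniformly in a family of functions, with primes of large degree
(helper115 for helper526; after `Pool.Agent.H526.PQ.Katai` of helper685).
-/

set_option autoImplicit false
set_option linter.all false

namespace Pool.Agent.H526.PE.Kataiq

open Polynomial Finset
open scoped Classical
open Pool.Agent.H694.Typ
open Pool.Agent.H526.PQ.Katai (sum_dvd dev La_nonneg La_one_le La_log)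

section base

variable {K : Type} [Field K] [Fintype K]

/-- The bilinear sums. -/
theorem bilin (I : Finset K[X]) (d : ℕ) (g : K[X] → ℂ) (F : K[X] → ℂ)
    (hg : ∀ f, ‖g f‖ ≤ 1) (hF : ∀ f, ‖F f‖ ≤ 1) (E : ℝ) (hE : 0 ≤ E)
    (h : ∀ P ∈ I, ∀ Q ∈ I, P ≠ Q → ‖∑ B ∈ Mn K d, g (P * B) * (starRingEnd ℂ) (g (Q * B))‖ ≤
      (Fintype.card K : ℝ) ^ d * E) :
    ‖∑ P ∈ I, ∑ B ∈ Mn K d, F P * F B * g (P * B)‖ ^ 2 ≤
      (Fintype.card K : ℝ) ^ d * ((I.card : ℝ) * (Fintype.card K : ℝ) ^ d +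
        (I.card : ℝ) ^ 2 * ((Fintype.card K : ℝ) ^ d * E)) := by
  have hq := q_ge (k := K)
  have hqd : (0 : ℝ) ≤ (Fintype.card K : ℝ) ^ d := by positivity
  have e1 : ∑ P ∈ I, ∑ B ∈ Mn K d, F P * F B * g (P * B) =
      ∑ B ∈ Mn K d, F B * ∑ P ∈ I, F P * g (P * B) := by
    rw [sum_comm]
    refine sum_congr rfl fun B _ => ?_
    rw [mul_sum]
    refine sum_congr rfl fun P _ => ?_
    ring
  have h1 : ‖∑ P ∈ I, ∑ B ∈ Mn K d, F P * F B * g (P * B)‖ ≤
      ∑ B ∈ Mn K d, ‖∑ P ∈ I, F P * g (P * B)‖ := by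
    rw [e1]
    refine (norm_sum_le _ _).trans (sum_le_sum fun B _ => ?_)
    rw [norm_mul]
    exact mul_le_of_le_one_left (norm_nonneg _) (hF B)
  have h2 : (∑ B ∈ Mn K d, ‖∑ P ∈ I, F P * g (P * B)‖) ^ 2 ≤
      ((Mn K d).card : ℝ) * ∑ B ∈ Mn K d, ‖∑ P ∈ I, F P * g (P * B)‖ ^ 2 :=
    sq_sum_le_card_mul_sum_sq
  have e2 : ((∑ B ∈ Mn K d, ‖∑ P ∈ I, F P * g (P * B)‖ ^ 2 : ℝ) : ℂ) =
      ∑ P ∈ I, ∑ Q ∈ I, F P * (starRingEnd ℂ) (F Q) *
        (∑ B ∈ Mn K d, g (P * B) * (starRingEnd ℂ) (g (Q * B))) := by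
    have e3 : ∀ B ∈ Mn K d, ((‖∑ P ∈ I, F P * g (P * B)‖ ^ 2 : ℝ) : ℂ) =
        ∑ P ∈ I, ∑ Q ∈ I, F P * (starRingEnd ℂ) (F Q) *
          (g (P * B) * (starRingEnd ℂ) (g (Q * B))) := by
      intro B _
      have e4 : ((‖∑ P ∈ I, F P * g (P * B)‖ ^ 2 : ℝ) : ℂ) =
          (∑ P ∈ I, F P * g (P * B)) *
            (starRingEnd ℂ) (∑ P ∈ I, F P * g (P * B)) := by
        rw [Complex.mul_conj, Complex.normSq_eq_norm_sq]
      rw [e4, map_sum, sum_mul_sum]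
      refine sum_congr rfl fun P _ => sum_congr rfl fun Q _ => ?_
      rw [map_mul]
      ring
    rw [Complex.ofReal_sum, sum_congr rfl e3, sum_comm]
    refine sum_congr rfl fun P _ => ?_
    rw [sum_comm]
    refine sum_congr rfl fun Q _ => ?_
    rw [mul_sum]
  have h3 : ∑ B ∈ Mn K d, ‖∑ P ∈ I, F P * g (P * B)‖ ^ 2 ≤
      ∑ P ∈ I, ∑ Q ∈ I, ‖∑ B ∈ Mn K d, g (P * B) * (starRingEnd ℂ) (g (Q * B))‖ := by
    have h4 : 0 ≤ ∑ B ∈ Mn K d, ‖∑ P ∈ I, F P * g (P * B)‖ ^ 2 :=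
      sum_nonneg fun B _ => sq_nonneg _
    have h5 : ∑ B ∈ Mn K d, ‖∑ P ∈ I, F P * g (P * B)‖ ^ 2 =
        ‖((∑ B ∈ Mn K d, ‖∑ P ∈ I, F P * g (P * B)‖ ^ 2 : ℝ) : ℂ)‖ := by
      rw [Complex.norm_real, Real.norm_of_nonneg h4]
    rw [h5, e2]
    refine (norm_sum_le _ _).trans (sum_le_sum fun P _ => ?_)
    refine (norm_sum_le _ _).trans (sum_le_sum fun Q _ => ?_)
    rw [norm_mul, norm_mul, RCLike.norm_conj]
    have h6 : ‖F P‖ * ‖F Q‖ ≤ 1 := mul_le_one₀ (hF P) (norm_nonneg _) (hF Q)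
    exact mul_le_of_le_one_left (norm_nonneg _) h6
  have h7 : ∑ P ∈ I, ∑ Q ∈ I, ‖∑ B ∈ Mn K d, g (P * B) * (starRingEnd ℂ) (g (Q * B))‖ ≤
      (I.card : ℝ) * (Fintype.card K : ℝ) ^ d +
        (I.card : ℝ) ^ 2 * ((Fintype.card K : ℝ) ^ d * E) := by
    have h8 : ∀ P ∈ I, ∑ Q ∈ I, ‖∑ B ∈ Mn K d, g (P * B) * (starRingEnd ℂ) (g (Q * B))‖ ≤
        (Fintype.card K : ℝ) ^ d + (I.card : ℝ) * ((Fintype.card K : ℝ) ^ d * E) := by
      intro P hP
      have h9 : ∀ Q ∈ I, ‖∑ B ∈ Mn K d, g (P * B) * (starRingEnd ℂ) (g (Q * B))‖ ≤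
          (if Q = P then (Fintype.card K : ℝ) ^ d else 0) + (Fintype.card K : ℝ) ^ d * E := by
        intro Q hQ
        by_cases hPQ : Q = P
        · rw [if_pos hPQ]
          have h10 : ‖∑ B ∈ Mn K d, g (P * B) * (starRingEnd ℂ) (g (Q * B))‖ ≤
              (Fintype.card K : ℝ) ^ d := by
            refine (norm_sum_le _ _).trans ?_
            refine (sum_le_sum fun B _ => ?_).trans (?_ : ∑ B ∈ Mn K d, (1 : ℝ) ≤ _)
            · rw [norm_mul, RCLike.norm_conj]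
              exact mul_le_one₀ (hg _) (norm_nonneg _) (hg _)
            · rw [sum_const, card_Mn, nsmul_eq_mul, mul_one, Nat.cast_pow]
          have h11 : 0 ≤ (Fintype.card K : ℝ) ^ d * E := mul_nonneg hqd hE
          linarith
        · rw [if_neg hPQ, zero_add]
          exact h P hP Q hQ (Ne.symm hPQ)
      refine (sum_le_sum h9).trans ?_
      rw [sum_add_distrib, sum_ite_eq' I P, if_pos hP, sum_const, nsmul_eq_mul]
    refine (sum_le_sum h8).trans ?_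
    rw [sum_const, nsmul_eq_mul]
    exact le_of_eq (by ring)
  calc ‖∑ P ∈ I, ∑ B ∈ Mn K d, F P * F B * g (P * B)‖ ^ 2
      ≤ (∑ B ∈ Mn K d, ‖∑ P ∈ I, F P * g (P * B)‖) ^ 2 :=
        pow_le_pow_left₀ (norm_nonneg _) h1 2
    _ ≤ ((Mn K d).card : ℝ) * ∑ B ∈ Mn K d, ‖∑ P ∈ I, F P * g (P * B)‖ ^ 2 := h2
    _ = (Fintype.card K : ℝ) ^ d * ∑ B ∈ Mn K d, ‖∑ P ∈ I, F P * g (P * B)‖ ^ 2 := by
        rw [card_Mn, Nat.cast_pow]
    _ ≤ _ := mul_le_mul_of_nonneg_left (h3.trans h7) hqd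

/-- The sum over the multiples. -/
theorem expand (m D : ℕ) (hD : D ≤ m) (g : K[X] → ℂ) (F : K[X] → ℂ) :
    ∑ a ∈ Mn K m, ((Xn D a : ℝ) : ℂ) * (F a * g a) =
      ∑ P ∈ PU K D, ∑ B ∈ Mn K (m - P.natDegree), F (P * B) * g (P * B) := by
  have e1 : ∀ a ∈ Mn K m, ((Xn D a : ℝ) : ℂ) * (F a * g a) =
      ∑ P ∈ PU K D, if P ∣ a then F a * g a else 0 := by
    intro a _
    rw [Xn_eq, Complex.ofReal_sum, sum_mul]
    refine sum_congr rfl fun P _ => ?_
    by_cases h : P ∣ a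
    · rw [if_pos h, if_pos h, Complex.ofReal_one, one_mul]
    · rw [if_neg h, if_neg h, Complex.ofReal_zero, zero_mul]
  rw [sum_congr rfl e1, sum_comm]
  refine sum_congr rfl fun P hP => ?_
  rw [mem_PU] at hP
  rw [← sum_filter, sum_dvd hP.1 (by omega) (fun a => F a * g a)]

/-- The errors from `P ∣ B`. -/
theorem errors (m D : ℕ) (hD : 2 * D ≤ m) (g : K[X] → ℂ) (F : K[X] → ℂ)
    (hg : ∀ f, ‖g f‖ ≤ 1) (hF : ∀ f, ‖F f‖ ≤ 1)
    (hmul : ∀ f h : K[X], f.Monic → h.Monic → IsCoprime f h → F (f * h) = F f * F h) :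
    ‖∑ P ∈ PU K D, ∑ B ∈ Mn K (m - P.natDegree), F (P * B) * g (P * B) -
      ∑ P ∈ PU K D, ∑ B ∈ Mn K (m - P.natDegree), F P * F B * g (P * B)‖ ≤
      2 * (Fintype.card K : ℝ) ^ m := by
  have hq := q_ge (k := K)
  rw [← sum_sub_distrib]
  have h1 : ∀ P ∈ PU K D, ‖∑ B ∈ Mn K (m - P.natDegree), F (P * B) * g (P * B) -
      ∑ B ∈ Mn K (m - P.natDegree), F P * F B * g (P * B)‖ ≤
      2 * ((Fintype.card K : ℝ) ^ m * (wt K P.natDegree * wt K P.natDegree)) := by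
    intro P hP
    rw [mem_PU] at hP
    rw [← sum_sub_distrib]
    refine (norm_sum_le _ _).trans ?_
    have h2 : ∀ B ∈ Mn K (m - P.natDegree), ‖F (P * B) * g (P * B) -
        F P * F B * g (P * B)‖ ≤ if P ∣ B then 2 else 0 := by
      intro B hB
      rw [mem_Mn] at hB
      by_cases h : P ∣ B
      · rw [if_pos h]
        refine (norm_sub_le _ _).trans ?_
        rw [norm_mul, norm_mul, norm_mul]
        have h3 : ‖F (P * B)‖ * ‖g (P * B)‖ ≤ 1 := mul_le_one₀ (hF _) (norm_nonneg _) (hg _)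
        have h4 : ‖F P‖ * ‖F B‖ ≤ 1 := mul_le_one₀ (hF _) (norm_nonneg _) (hF _)
        have h5 : ‖F P‖ * ‖F B‖ * ‖g (P * B)‖ ≤ 1 := mul_le_one₀ h4 (norm_nonneg _) (hg _)
        linarith
      · rw [if_neg h, hmul P B hP.1 hB.1 (hP.2.1.coprime_iff_not_dvd.2 h), sub_self, norm_zero]
    refine (sum_le_sum h2).trans ?_
    rw [← sum_filter, sum_const, nsmul_eq_mul]
    have h3 := card_dvd_le (k := K) (n := m - P.natDegree) hP.1
    have h4 : (Fintype.card K : ℝ) ^ (m - P.natDegree) =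
        (Fintype.card K : ℝ) ^ m * wt K P.natDegree := by
      rw [wt, pow_sub₀ _ (by positivity) (by omega)]
    rw [h4] at h3
    calc (((Mn K (m - P.natDegree)).filter (fun f => P ∣ f)).card : ℝ) * 2
        ≤ ((Fintype.card K : ℝ) ^ m * wt K P.natDegree * wt K P.natDegree) * 2 := by
          gcongr
      _ = _ := by ring
  refine (norm_sum_le _ _).trans ((sum_le_sum h1).trans ?_)
  rw [← mul_sum, ← mul_sum]
  have h5 : ∑ P ∈ PU K D, wt K P.natDegree * wt K P.natDegree ≤ 1 := by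
    rw [sum_PU]
    have h6 : ∀ j ∈ Icc 1 D, ∑ P ∈ Irn K j, wt K P.natDegree * wt K P.natDegree ≤
        (1 / 2 : ℝ) ^ j := by
      intro j hj
      rw [mem_Icc] at hj
      rw [sum_congr rfl (fun P hP => by rw [(mem_Irn.1 hP).2.1]), sum_const, nsmul_eq_mul]
      have h7 : ((Irn K j).card : ℝ) ≤ (Fintype.card K : ℝ) ^ j := by
        have h8 := irn_one_le (k := K) (d := j) (by omega)
        have h9 : (Irn K j).card ≤ j * (Irn K j).card := Nat.le_mul_of_pos_left _ (by omega)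
        exact_mod_cast h9.trans h8
      have h10 := wt_le_half (k := K) j
      have h11 := wt_nonneg (k := K) j
      have h12 : (Fintype.card K : ℝ) ^ j * wt K j = 1 := by
        unfold wt
        exact mul_inv_cancel₀ (by positivity)
      calc ((Irn K j).card : ℝ) * (wt K j * wt K j) ≤
          (Fintype.card K : ℝ) ^ j * (wt K j * wt K j) := by gcongr
        _ = wt K j := by rw [← mul_assoc, h12, one_mul]
        _ ≤ _ := h10
    refine (sum_le_sum h6).trans ?_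
    have := geo_half_le 0 D
    simpa using this
  have h13 : (0 : ℝ) ≤ (Fintype.card K : ℝ) ^ m := by positivity
  nlinarith

/-- the number of the irreducible polynomials -/
theorem card_Irn_le {z : ℕ} (hz : 1 ≤ z) : ((Irn K z).card : ℝ) ≤ (Fintype.card K : ℝ) ^ z := by
  have h8 := irn_one_le (k := K) (d := z) (by omega)
  have h9 : (Irn K z).card ≤ z * (Irn K z).card := Nat.le_mul_of_pos_left _ (by omega)
  exact_mod_cast h9.trans h8

/-- the trivial bound for one degree -/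
theorem trivz {m z : ℕ} (hz : 1 ≤ z) (hzm : z ≤ m) (g : K[X] → ℂ) (F : K[X] → ℂ)
    (hg : ∀ f, ‖g f‖ ≤ 1) (hF : ∀ f, ‖F f‖ ≤ 1) :
    ‖∑ P ∈ Irn K z, ∑ B ∈ Mn K (m - z), F P * F B * g (P * B)‖ ≤ (Fintype.card K : ℝ) ^ m := by
  have hq := q_ge (k := K)
  have h1 : ∀ P ∈ Irn K z, ‖∑ B ∈ Mn K (m - z), F P * F B * g (P * B)‖ ≤
      (Fintype.card K : ℝ) ^ (m - z) := by
    intro P _
    refine (norm_sum_le _ _).trans ?_
    refine (sum_le_sum fun B _ => ?_).trans (?_ : ∑ B ∈ Mn K (m - z), (1 : ℝ) ≤ _)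
    · rw [norm_mul, norm_mul]
      exact mul_le_one₀ (mul_le_one₀ (hF _) (norm_nonneg _) (hF _)) (norm_nonneg _) (hg _)
    · rw [sum_const, card_Mn, nsmul_eq_mul, mul_one, Nat.cast_pow]
  refine (norm_sum_le _ _).trans ((sum_le_sum h1).trans ?_)
  rw [sum_const, nsmul_eq_mul]
  calc ((Irn K z).card : ℝ) * (Fintype.card K : ℝ) ^ (m - z) ≤
      (Fintype.card K : ℝ) ^ z * (Fintype.card K : ℝ) ^ (m - z) :=
        mul_le_mul_of_nonneg_right (card_Irn_le hz) (by positivity)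
    _ = _ := by
        rw [← pow_add]
        congr 1
        omega

end base

theorem main : Pool.Agent.H526.PE.S_kataiq := by
  intro K _ _ 𝒢 z₀ hG hyp ε hε
  obtain ⟨ρ, hρ0, hρ1, hρ2⟩ : ∃ ρ : ℝ, 0 ≤ ρ ∧ ρ < 1 ∧ ρ ^ 2 = 1 / 2 := by
    refine ⟨√(1 / 2), Real.sqrt_nonneg _, ?_, Real.sq_sqrt (by norm_num)⟩
    rw [Real.sqrt_lt' (by norm_num)]
    norm_num
  have hq := q_ge (k := K)
  have hgeo : 0 ≤ (1 - ρ)⁻¹ := inv_nonneg.2 (by linarith)
  obtain ⟨C₂, hC₂⟩ : ∃ C₂ : ℝ, C₂ = 2 + (z₀ + (1 - ρ)⁻¹ + 1) := ⟨_, rfl⟩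
  have hC₂0 : 0 ≤ C₂ := by rw [hC₂]; positivity
  -- the choice of `D`
  obtain ⟨D, hD4, hDW⟩ : ∃ D : ℕ, 4 ≤ D ∧ ((1 + C₂) / ε) ^ 2 ≤ La K D := by
    have h1 : Filter.Tendsto (fun D : ℕ => Real.log (((D + 1 : ℕ) : ℝ) / 4) / 2) Filter.atTop
        Filter.atTop := by
      refine Filter.Tendsto.atTop_div_const (by norm_num) ?_
      refine Real.tendsto_log_atTop.comp ?_
      refine Filter.Tendsto.atTop_div_const (by norm_num) ?_
      exact tendsto_natCast_atTop_atTop.comp (Filter.tendsto_add_atTop_nat 1)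
    obtain ⟨D, hD⟩ := ((h1.eventually_ge_atTop (((1 + C₂) / ε) ^ 2)).and
      (Filter.eventually_ge_atTop 4)).exists
    exact ⟨D, hD.2, hD.1.trans (La_log hD.2)⟩
  have hD1 : 1 ≤ D := by omega
  have hDr : (0 : ℝ) < D := by exact_mod_cast hD1
  obtain ⟨W, hWdef⟩ : ∃ W, W = La K D := ⟨_, rfl⟩
  have hW1 : 1 ≤ W := by rw [hWdef]; exact La_one_le hD1
  rw [← hWdef] at hDW
  -- the choice of `E`
  obtain ⟨E, hEdef⟩ : ∃ E : ℝ, E = (1 / (D : ℝ)) ^ 2 := ⟨_, rfl⟩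
  have hE0 : 0 < E := by rw [hEdef]; positivity
  have hsE : √E = 1 / (D : ℝ) := by
    rw [hEdef, Real.sqrt_sq (by positivity)]
  -- the choice of `m₀`
  have hch : ∀ P Q : K[X], ∃ d₀ : ℕ, P.Monic → Q.Monic → Irreducible P → Irreducible Q → P ≠ Q →
      P.natDegree = Q.natDegree → z₀ ≤ P.natDegree → ∀ d : ℕ, d₀ ≤ d → ∀ g ∈ 𝒢,
      ‖∑ B ∈ Mn K d, g (P * B) * (starRingEnd ℂ) (g (Q * B))‖ ≤
        E * (Fintype.card K : ℝ) ^ d := by
    intro P Q
    by_cases h : P.Monic ∧ Q.Monic ∧ Irreducible P ∧ Irreducible Q ∧ P ≠ Q ∧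
        P.natDegree = Q.natDegree ∧ z₀ ≤ P.natDegree
    · obtain ⟨a1, a2, a3, a4, a5, a6, a7⟩ := h
      obtain ⟨d₀, hd₀⟩ := hyp P Q a1 a2 a3 a4 a5 a6 a7 E hE0
      exact ⟨d₀, fun _ _ _ _ _ _ _ => hd₀⟩
    · refine ⟨0, fun a1 a2 a3 a4 a5 a6 a7 => ?_⟩
      exact absurd ⟨a1, a2, a3, a4, a5, a6, a7⟩ h
  choose d₁ hd₁ using hch
  obtain ⟨N, hN⟩ : ∃ N : ℕ, ∀ P ∈ PU K D, ∀ Q ∈ PU K D, d₁ P Q ≤ N := by
    refine ⟨(PU K D).sup fun P => (PU K D).sup fun Q => d₁ P Q, fun P hP Q hQ => ?_⟩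
    exact (Finset.le_sup (f := fun Q => d₁ P Q) hQ).trans
      (Finset.le_sup (f := fun P => (PU K D).sup fun Q => d₁ P Q) hP)
  refine ⟨2 * D + N, fun m hm g hgG F hFm => ?_⟩
  obtain ⟨hF, hmul⟩ := hFm
  have hg := hG g hgG
  have hqm : (0 : ℝ) < (Fintype.card K : ℝ) ^ m := by positivity
  have hD2 : 2 * D ≤ m := by omega
  -- the bilinear sums
  have hT : ∀ z ∈ Icc 1 D, ‖∑ P ∈ Irn K z, ∑ B ∈ Mn K (m - z),
      F P * F B * g (P * B)‖ ≤
      (Fintype.card K : ℝ) ^ m * ((if z < z₀ then 1 else 0) + (ρ ^ z + √E)) := by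
    intro z hz
    rw [mem_Icc] at hz
    by_cases hzz : z < z₀
    · rw [if_pos hzz]
      refine (trivz hz.1 (by omega) g F hg hF).trans ?_
      have h1 : 0 ≤ ρ ^ z + √E := by positivity
      nlinarith
    rw [if_neg hzz, zero_add]
    have h1 := bilin (Irn K z) (m - z) g F hg hF E hE0.le ?_
    · have hcard : ((Irn K z).card : ℝ) ≤ (Fintype.card K : ℝ) ^ z := card_Irn_le hz.1
      have hq2 : (1 : ℝ) ≤ (Fintype.card K : ℝ) ^ z * (1 / 2) ^ z := by
        rw [← mul_pow]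
        exact one_le_pow₀ (by linarith)
      have hqz : (0 : ℝ) < (Fintype.card K : ℝ) ^ z := by positivity
      have hqd : (0 : ℝ) < (Fintype.card K : ℝ) ^ (m - z) := by positivity
      have hsplit : (Fintype.card K : ℝ) ^ m =
          (Fintype.card K : ℝ) ^ z * (Fintype.card K : ℝ) ^ (m - z) := by
        rw [← pow_add]
        congr 1
        omega
      have hcard0 : (0 : ℝ) ≤ ((Irn K z).card : ℝ) := Nat.cast_nonneg _
      have h2 : (Fintype.card K : ℝ) ^ (m - z) *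
          (((Irn K z).card : ℝ) * (Fintype.card K : ℝ) ^ (m - z) +
            ((Irn K z).card : ℝ) ^ 2 * ((Fintype.card K : ℝ) ^ (m - z) * E)) ≤
          ((Fintype.card K : ℝ) ^ m) ^ 2 * ((1 / 2) ^ z + E) := by
        rw [hsplit]
        generalize (Fintype.card K : ℝ) ^ z = u at *
        generalize (Fintype.card K : ℝ) ^ (m - z) = v at *
        generalize ((1 : ℝ) / 2) ^ z = y at *
        generalize ((Irn K z).card : ℝ) = n at *
        have h3 : n ≤ u ^ 2 * y := by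
          calc n ≤ u := hcard
            _ = u * 1 := by ring
            _ ≤ u * (u * y) := by gcongr
            _ = u ^ 2 * y := by ring
        have h4 : n ^ 2 ≤ u ^ 2 := pow_le_pow_left₀ hcard0 hcard 2
        calc v * (n * v + n ^ 2 * (v * E)) = v ^ 2 * (n + n ^ 2 * E) := by ring
          _ ≤ v ^ 2 * (u ^ 2 * y + u ^ 2 * E) := by gcongr
          _ = (u * v) ^ 2 * (y + E) := by ring
      have h5 : ((Fintype.card K : ℝ) ^ m) ^ 2 * ((1 / 2) ^ z + E) ≤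
          ((Fintype.card K : ℝ) ^ m * (ρ ^ z + √E)) ^ 2 := by
        rw [mul_pow]
        refine mul_le_mul_of_nonneg_left ?_ (by positivity)
        have h6 : (ρ ^ z) ^ 2 = (1 / 2) ^ z := by
          rw [← pow_mul, mul_comm, pow_mul, hρ2]
        have h7 : √E ^ 2 = E := Real.sq_sqrt hE0.le
        have h8 : 0 ≤ ρ ^ z * √E := by positivity
        nlinarith
      have h9 := h1.trans (h2.trans h5)
      have h10 : 0 ≤ (Fintype.card K : ℝ) ^ m * (ρ ^ z + √E) := by positivity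
      exact abs_le_of_sq_le_sq' h9 h10 |>.2
    · intro P hP Q hQ hPQ
      have hPU : ∀ R ∈ Irn K z, R ∈ PU K D := by
        intro R hR
        unfold PU
        exact mem_biUnion.2 ⟨z, mem_Icc.2 hz, hR⟩
      have hdN := hN P (hPU P hP) Q (hPU Q hQ)
      rw [mem_Irn] at hP hQ
      have h3 := hd₁ P Q hP.1 hQ.1 hP.2.2 hQ.2.2 hPQ (hP.2.1.trans hQ.2.1.symm)
        (by rw [hP.2.1]; omega) (m - z) (by omega) g hgG
      rw [mul_comm]
      exact h3
  -- the sum over `PU`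
  have hmainT : ‖∑ P ∈ PU K D, ∑ B ∈ Mn K (m - P.natDegree),
      F P * F B * g (P * B)‖ ≤ (Fintype.card K : ℝ) ^ m * (z₀ + (1 - ρ)⁻¹ + 1) := by
    have e1 : ∑ P ∈ PU K D, ∑ B ∈ Mn K (m - P.natDegree), F P * F B * g (P * B) =
        ∑ z ∈ Icc 1 D, ∑ P ∈ Irn K z, ∑ B ∈ Mn K (m - z), F P * F B * g (P * B) := by
      unfold PU
      rw [sum_biUnion]
      · refine sum_congr rfl fun z _ => sum_congr rfl fun P hP => ?_
        rw [(mem_Irn.1 hP).2.1]
      · intro a _ b _ hab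
        rw [Function.onFun, Finset.disjoint_left]
        intro P hP hP'
        exact hab ((mem_Irn.1 hP).2.1.symm.trans (mem_Irn.1 hP').2.1)
    rw [e1]
    refine (norm_sum_le _ _).trans ((sum_le_sum hT).trans ?_)
    rw [← mul_sum, sum_add_distrib, sum_add_distrib, sum_const, Nat.card_Icc, nsmul_eq_mul,
      add_assoc]
    refine mul_le_mul_of_nonneg_left (add_le_add ?_ (add_le_add ?_ ?_)) hqm.le
    · rw [← sum_filter, sum_const, nsmul_eq_mul, mul_one]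
      have h1 : (Icc 1 D).filter (fun z => z < z₀) ⊆ range z₀ := by
        intro z hz
        exact mem_range.2 (mem_filter.1 hz).2
      have h2 := card_le_card h1
      rw [card_range] at h2
      exact_mod_cast h2
    · have h1 : ∑ z ∈ Icc 1 D, ρ ^ z ≤ ∑' z : ℕ, ρ ^ z :=
        (summable_geometric_of_lt_one hρ0 hρ1).sum_le_tsum _ fun z _ => pow_nonneg hρ0 z
      rwa [tsum_geometric_of_lt_one hρ0 hρ1] at h1
    · rw [hsE, Nat.add_sub_cancel]
      exact le_of_eq (mul_one_div_cancel hDr.ne')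
  -- conclusion
  have hWS : W * ‖∑ a ∈ Mn K m, F a * g a‖ ≤ (Fintype.card K : ℝ) ^ m * (√W + C₂) := by
    have e1 : (W : ℂ) * ∑ a ∈ Mn K m, F a * g a =
        ∑ a ∈ Mn K m, ((Xn D a : ℝ) : ℂ) * (F a * g a) -
          ∑ a ∈ Mn K m, (((Xn D a : ℝ) - La K D : ℝ) : ℂ) * (F a * g a) := by
      rw [← sum_sub_distrib, mul_sum]
      refine sum_congr rfl fun a _ => ?_
      rw [hWdef]
      push_cast
      ring
    have h1 : W * ‖∑ a ∈ Mn K m, F a * g a‖ =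
        ‖(W : ℂ) * ∑ a ∈ Mn K m, F a * g a‖ := by
      rw [norm_mul, Complex.norm_real, Real.norm_of_nonneg (by linarith)]
    rw [h1, e1]
    have h2 : ‖∑ a ∈ Mn K m, (((Xn D a : ℝ) - La K D : ℝ) : ℂ) * (F a * g a)‖ ≤
        (Fintype.card K : ℝ) ^ m * √W := by
      rw [hWdef]
      refine le_trans (norm_sum_le _ _) ((sum_le_sum fun a _ => ?_).trans (dev hD2))
      rw [norm_mul, norm_mul, Complex.norm_real, Real.norm_eq_abs]
      exact mul_le_of_le_one_right (abs_nonneg _) (mul_le_one₀ (hF _) (norm_nonneg _) (hg _))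
    have h3 : ‖∑ a ∈ Mn K m, ((Xn D a : ℝ) : ℂ) * (F a * g a)‖ ≤
        (Fintype.card K : ℝ) ^ m * C₂ := by
      rw [expand m D (by omega) g F]
      have h4 := errors m D hD2 g F hg hF hmul
      have h5 := norm_add_le
        (∑ P ∈ PU K D, ∑ B ∈ Mn K (m - P.natDegree), F (P * B) * g (P * B) -
          ∑ P ∈ PU K D, ∑ B ∈ Mn K (m - P.natDegree), F P * F B * g (P * B))
        (∑ P ∈ PU K D, ∑ B ∈ Mn K (m - P.natDegree), F P * F B * g (P * B))
      rw [sub_add_cancel] at h5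
      refine h5.trans ((add_le_add h4 hmainT).trans (le_of_eq ?_))
      rw [hC₂]
      ring
    refine (norm_sub_le _ _).trans ?_
    linarith
  have hsW : 0 < √W := Real.sqrt_pos.2 (by linarith)
  have hsW1 : 1 ≤ √W := by
    rw [Real.one_le_sqrt]
    exact hW1
  have hWW : √W * √W = W := Real.mul_self_sqrt (by linarith)
  have hSW : √W * ‖∑ a ∈ Mn K m, F a * g a‖ ≤ (1 + C₂) * (Fintype.card K : ℝ) ^ m := by
    have h1 : √W * (√W * ‖∑ a ∈ Mn K m, F a * g a‖) ≤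
        √W * ((1 + C₂) * (Fintype.card K : ℝ) ^ m) := by
      calc √W * (√W * ‖∑ a ∈ Mn K m, F a * g a‖) =
          W * ‖∑ a ∈ Mn K m, F a * g a‖ := by rw [← mul_assoc, hWW]
        _ ≤ (Fintype.card K : ℝ) ^ m * (√W + C₂) := hWS
        _ ≤ (Fintype.card K : ℝ) ^ m * (√W + √W * C₂) := by
            refine mul_le_mul_of_nonneg_left ?_ hqm.le
            have := mul_le_mul_of_nonneg_right hsW1 hC₂0
            linarith
        _ = √W * ((1 + C₂) * (Fintype.card K : ℝ) ^ m) := by ring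
    exact le_of_mul_le_mul_left h1 hsW
  have hεW : (1 + C₂) / ε ≤ √W := by
    refine Real.le_sqrt_of_sq_le hDW
  have h1C : 1 + C₂ ≤ ε * √W := by
    rw [div_le_iff₀ hε] at hεW
    linarith
  have h2 : √W * ‖∑ a ∈ Mn K m, F a * g a‖ ≤ √W * (ε * (Fintype.card K : ℝ) ^ m) := by
    refine hSW.trans ?_
    calc (1 + C₂) * (Fintype.card K : ℝ) ^ m ≤ (ε * √W) * (Fintype.card K : ℝ) ^ m :=
          mul_le_mul_of_nonneg_right h1C hqm.le
      _ = _ := by ring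
  exact le_of_mul_le_mul_left h2 hsW

end Pool.Agent.H526.PE.Kataiq
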