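import Mathlib
import Pool.Agent.H526.PQ.StmK

/-!
# The Liouville function at products containing inseparable quadratic polynomials (helper526)

`K` is a finite field of characteristic two, `c_i ∈ K[X]` are non-squares.  The product of the
`λ(a² + c_i)` is twisted by a multiplicative function, a polynomial phase, and by `λ(f(a))` for the
polynomials `f` of `MP_648c71_nt.EvenCharAllDegrees`.
-/

namespace Pool.Agent.H526.PE

open Polynomial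
open scoped Classical ComplexConjugate
open Pool.Agent.H985.Chow (mob lc)
open Pool.Agent.H985.KP (sg)
open Pool.Agent.H694.Typ (Mn Irn)
open Pool.Agent.H604.LD (fa phg phP om p1 rf S_parinfg S_cubem0 S_cubem1)
open Pool.Agent.H526.PQ (S_phm)

/-- The Liouville function of `K[X]` (the same as `Pool.Agent.H524.Cw.lio`). -/
noncomputable def lio {K : Type} [Field K] (F : K[X]) : ℤ :=
  if F = 0 then 0 else (-1) ^ Multiset.card (UniqueFactorizationMonoid.factors F)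

/-- Polynomial phases of degree less than `k` on an abelian group: the multiplicative derivatives of
order `k` are equal to `1`. -/
def Ph {G : Type} [AddCommGroup G] : ℕ → (G → ℂ) → Prop
  | 0, P => ∀ u, P u = 1
  | k + 1, P => ∀ y, Ph k (fun u => P (u + y) * conj (P u))

/-- **Task PHL.**  Elementary properties of polynomial phases. -/
def S_phl : Prop :=
  (∀ (G : Type) [AddCommGroup G] (k : ℕ) (P Q : G → ℂ), Ph k P → Ph k Q → Ph k (fun u => P u * Q u)) ∧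
  (∀ (G : Type) [AddCommGroup G] (k : ℕ) (P : G → ℂ), Ph k P → Ph k (fun u => conj (P u))) ∧
  (∀ (G : Type) [AddCommGroup G] (k : ℕ) (P : G → ℂ), Ph k P → Ph (k + 1) P) ∧
  (∀ (G H : Type) [AddCommGroup G] [AddCommGroup H] (k : ℕ) (P : G → ℂ) (φ : H →+ G) (g : G),
    Ph k P → Ph k (fun u => P (g + φ u))) ∧
  (∀ (G : Type) [AddCommGroup G] (k : ℕ) (P : G → ℂ), Ph k P → ∀ u, ‖P u‖ = 1) ∧
  (∀ (G : Type) [AddCommGroup G] (z : ℂ), ‖z‖ = 1 → Ph 1 (fun _ : G => z)) ∧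
  (∀ (G : Type) [AddCommGroup G] (χ : G → ℝ), (∀ v, χ v = 1 ∨ χ v = -1) →
    (∀ v w, χ (v + w) = χ v * χ w) → Ph 2 (fun u => (χ u : ℂ))) ∧
  (∀ (K : Type) [Field K] [Fintype K] [CharP K 2] (G : Type) [AddCommGroup G] (q : G → K),
    (∀ u x y z, q u + q (u + x) + q (u + y) + q (u + z) + q (u + x + y) + q (u + x + z) +
      q (u + y + z) + q (u + x + y + z) = 0) → Ph 3 (fun u => (sg (q u) : ℂ)))

/-- **Task GCSP.**  The inequality of Gowers-Cauchy-Schwarz eliminates a polynomial phase. -/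
def S_gcsp : Prop :=
  ∀ (U T Λ : Type) [AddCommGroup U] [Fintype U] [AddCommGroup T] [Fintype T] [Fintype Λ]
    [DecidableEq Λ] (φ : Λ → T →+ U) (f : U → ℝ) (P : U → ℂ) (k : ℕ), (∀ u, |f u| ≤ 1) →
    Ph k P → k ≤ Fintype.card Λ →
    ‖(∑ u, (f u : ℂ) * P u) / Fintype.card U‖ ^ (2 ^ Fintype.card Λ) ≤
      (∑ t : Λ → T, |(∑ u, ∏ A : Finset Λ, f (u + ∑ l ∈ A, φ l (t l))) / Fintype.card U|) /
        (Fintype.card T : ℝ) ^ Fintype.card Λ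

/-- **Task WEYLMX.**  The level of distribution of the product of the phases, twisted by a function
`ψ` which is, on all the fibres `z + D' v²`, a constant times a polynomial phase. -/
def S_weylmx : Prop :=
  ∀ (K : Type) [Field K] [Fintype K] [CharP K 2] (n : ℕ) (γ : Fin n → K) (b e : Fin n → K[X])
    (κ : ℝ) (s : ℕ), (∀ i, γ i ≠ 0) → (∀ i, (b i).Monic) → (om γ b ≠ 0 ∨ p1 γ b e ≠ 0) → 0 < κ →
    ∃ c θ : ℝ, 0 < c ∧ 0 < θ ∧ ∃ d₀ : ℕ, ∀ (d L : ℕ) (D r : K[X]) (ψ : K[X] → ℂ), d₀ ≤ d →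
      D.Monic → r.Monic → r.natDegree = d → κ * d ≤ L → D.natDegree + L ≤ d →
      (d : ℝ) ≤ D.natDegree + L + θ * d →
      (∀ D' z : K[X], D ∣ D' → D'.Monic → z.Monic → z.natDegree = d → D ∣ z - r →
        ∃ (σ : ℂ) (P : K[X] → ℂ), ‖σ‖ ≤ 1 ∧ Ph s P ∧ ∀ v, D'.natDegree + 2 * v.natDegree < d →
          ψ (z + D' * v ^ 2) = σ * P v) →
      ‖∑ᶠ c ∈ {c : K[X] | c.degree < (L : WithBot ℕ)}, ψ (r + D * c) * (phP γ b e (r + D * c) : ℂ)‖ ≤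
        (Fintype.card K : ℝ) ^ ((L : ℝ) - c * d)

/-- Assembly of WEYLMX. -/
def S_weylmxasm : Prop := S_cubem0 → S_cubem1 → S_gcsp → S_phl → S_weylmx

/-- **Task PARL.**  The Liouville function of `(A z)² + c` on the fibres `z + D v²`. -/
def S_parl : Prop :=
  ∀ (K : Type) [Field K] [Fintype K] [CharP K 2] (γ : K) (b e c A : K[X]), γ ≠ 0 → b.Monic →
    c = e ^ 2 + X * (C γ * b) ^ 2 → A.Monic → ∃ N : ℕ, ∀ (d : ℕ) (D z₀ : K[X]), N ≤ d → D ≠ 0 →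
      b ^ 6 ∣ D → ∃ χ : K[X] → ℝ, (∀ v, χ v = 1 ∨ χ v = -1) ∧ (∀ v w, χ (v + w) = χ v * χ w) ∧
        ∀ z v : K[X], z.Monic → z.natDegree = d → b ^ 6 ∣ z - z₀ →
          D.natDegree + 2 * v.natDegree < d →
          (lio ((A * (z + D * v ^ 2)) ^ 2 + c) : ℝ) * sg (phg γ b (A * (z + D * v ^ 2) + e)) =
            χ v * ((lio ((A * z) ^ 2 + c) : ℝ) * sg (phg γ b (A * z + e)))

/-- Assembly of PARL. -/
def S_parlasm : Prop := S_parinfg → S_phm → S_parl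

/-- The data `c_i = e_i² + X (γ_i b_i)²`. -/
structure Dt {K : Type} [Field K] {n : ℕ} (γ : Fin n → K) (b e c : Fin n → K[X]) : Prop where
  g0 : ∀ i, γ i ≠ 0
  bm : ∀ i, (b i).Monic
  hc : ∀ i, c i = e i ^ 2 + X * (C (γ i) * b i) ^ 2

/-- The product of the `λ((A a)² + c_i)`. -/
noncomputable def lam {K : Type} [Field K] {n : ℕ} (c : Fin n → K[X]) (A a : K[X]) : ℝ :=
  ∏ i, (lio ((A * a) ^ 2 + c i) : ℝ)

/-- **Task TIIM.**  Two fixed multipliers. -/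
def S_tiim : Prop :=
  ∀ (K : Type) [Field K] [Fintype K] [CharP K 2] (n : ℕ) (γ : Fin n → K) (b e c : Fin n → K[X]),
    Dt γ b e c → (om γ b ≠ 0 ∨ p1 γ b e ≠ 0) → ∀ A₁ A₂ : K[X], A₁.Monic → A₂.Monic → A₁ ≠ A₂ →
    ∀ (s : ℕ) (ε : ℝ), 0 < ε → ∃ d₀ : ℕ, ∀ d : ℕ, d₀ ≤ d → ∀ P : K[X] → ℂ, Ph s P →
      ‖∑ B ∈ Mn K d, P B * ((lam c A₁ B * lam c A₂ B : ℝ) : ℂ)‖ ≤ ε * (Fintype.card K : ℝ) ^ d

/-- Assembly of TIIM. -/
def S_tiimasm : Prop := S_weylmx → S_parl → S_phm → S_phl → S_tiim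

/-- Bounded multiplicative functions. -/
def BMult {K : Type} [Field K] (F : K[X] → ℂ) : Prop :=
  (∀ f, ‖F f‖ ≤ 1) ∧ ∀ f h : K[X], f.Monic → h.Monic → IsCoprime f h → F (f * h) = F f * F h

/-- **Task KATAIQ.**  The criterion of Katai, uniformly in a family `𝒢`, with primes of large
degree. -/
def S_kataiq : Prop :=
  ∀ (K : Type) [Field K] [Fintype K] (𝒢 : Set (K[X] → ℂ)) (z₀ : ℕ), (∀ g ∈ 𝒢, ∀ f, ‖g f‖ ≤ 1) →
    (∀ P Q : K[X], P.Monic → Q.Monic → Irreducible P → Irreducible Q → P ≠ Q →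
      P.natDegree = Q.natDegree → z₀ ≤ P.natDegree → ∀ ε : ℝ, 0 < ε → ∃ d₀ : ℕ, ∀ d : ℕ, d₀ ≤ d →
      ∀ g ∈ 𝒢, ‖∑ B ∈ Mn K d, g (P * B) * conj (g (Q * B))‖ ≤ ε * (Fintype.card K : ℝ) ^ d) →
    ∀ ε : ℝ, 0 < ε → ∃ m₀ : ℕ, ∀ m : ℕ, m₀ ≤ m → ∀ g ∈ 𝒢, ∀ F : K[X] → ℂ, BMult F →
      ‖∑ a ∈ Mn K m, F a * g a‖ ≤ ε * (Fintype.card K : ℝ) ^ m

/-- **Task LOCQ.**  In windows of fixed length `λ((A a)² + c)` is a quadratic phase. -/
def S_locq : Prop :=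
  ∀ (K : Type) [Field K] [Fintype K] [CharP K 2] (γ : K) (b e c A B : K[X]), γ ≠ 0 → b.Monic →
    c = e ^ 2 + X * (C γ * b) ^ 2 → A.Monic → b ^ 6 ∣ B → B ≠ 0 → ∀ H : ℕ, ∃ N : ℕ, ∀ a : K[X],
      a.Monic → N ≤ a.natDegree → ∃ (σ : ℂ) (P : K[X] → ℂ), ‖σ‖ ≤ 1 ∧ Ph 3 P ∧
        ∀ u : K[X], u.degree < (H : WithBot ℕ) →
          ((lio ((A * (a + B * u)) ^ 2 + c) : ℝ) : ℂ) = σ * P u

/-- Assembly of LOCQ. -/
def S_locqasm : Prop := S_parinfg → S_phl → S_locq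

/-- The condition on the roots in `MP_648c71_nt.EvenCharAllDegrees`. -/
def SqR {K : Type} [Field K] (f : K[X][X]) (μ : K[X]) : Prop :=
  ∀ θ : AlgebraicClosure (RatFunc K), aeval θ f = 0 →
    ∃ (s : RatFunc K) (σ : AlgebraicClosure (RatFunc K)), IsSeparable (RatFunc K) σ ∧
      σ ^ 2 = algebraMap K[X] (AlgebraicClosure (RatFunc K)) μ * θ +
        algebraMap (RatFunc K) (AlgebraicClosure (RatFunc K)) s

/-- The polynomials `f`. -/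
structure Adf {K : Type} [Field K] (f : K[X][X]) (μ : K[X]) : Prop where
  deg : 0 < f.natDegree
  sep : (f.map (algebraMap K[X] (RatFunc K))).Separable
  ne : μ ≠ 0
  sq : SqR f μ

/-- The theorem of helper140 (`Pool.Agent.H140.E.all`), without weights. -/
def S_all : Prop :=
  ∀ (K : Type) [Field K] [Fintype K] [CharP K 2] (f : K[X][X]) (μ : K[X]), Adf f μ → ∀ ε : ℝ,
    0 < ε → ∃ n₀ : ℕ, ∀ n : ℕ, n₀ ≤ n →
      |∑ g ∈ Mn K n, (lio (f.eval g) : ℝ)| ≤ ε * (Fintype.card K : ℝ) ^ n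

/-- **Task LOCU.**  Local uniformity of `λ(f(a))`. -/
def S_locu : Prop :=
  ∀ (K : Type) [Field K] [Fintype K] [CharP K 2] (f : K[X][X]) (μ B : K[X]) (s : ℕ) (ε : ℝ),
    Adf f μ → B ≠ 0 → 0 < ε → ∃ H N : ℕ, ∀ d : ℕ, N ≤ d → ∀ P : K[X] → K[X] → ℂ,
      (∀ a, Ph s (P a)) →
      ∑ a ∈ Mn K d, ‖∑ᶠ u ∈ {u : K[X] | u.degree < (H : WithBot ℕ)},
        ((lio (f.eval (a + B * u)) : ℝ) : ℂ) * P a u‖ ≤ ε * (Fintype.card K : ℝ) ^ (d + H)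

/-- Assembly of LOCU. -/
def S_locuasm : Prop := S_all → S_gcsp → S_phl → S_locu

/-- **First theorem**: no multiplicative function. -/
def S_G1 : Prop :=
  ∀ (K : Type) [Field K] [Fintype K] [CharP K 2] (f : K[X][X]) (μ : K[X]) (n : ℕ)
    (c : Fin n → K[X]) (s : ℕ) (ε : ℝ), Adf f μ → (∀ i, ¬ IsSquare (c i)) → 0 < ε →
    ∃ m₀ : ℕ, ∀ m : ℕ, m₀ ≤ m → ∀ P : K[X] → ℂ, Ph s P →
      ‖∑ a ∈ Mn K m, P a * (((lio (f.eval a) : ℝ) * ∏ i, (lio (a ^ 2 + c i) : ℝ) : ℝ) : ℂ)‖ ≤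
        ε * (Fintype.card K : ℝ) ^ m

/-- **Task G1.** -/
def S_g1asm : Prop := S_locu → S_locq → S_phl → S_G1

/-- **Second theorem**: linear forms and a multiplicative function. -/
def S_G2 : Prop :=
  ∀ (K : Type) [Field K] [Fintype K] [CharP K 2] (k n : ℕ) (α β : Fin k → K[X])
    (c : Fin n → K[X]) (s : ℕ) (ε : ℝ), 1 ≤ k → (∀ j, α j ≠ 0) → (∀ j, β j ≠ 0) →
    (∀ i j, i ≠ j → α i * β j ≠ α j * β i) → (∀ i, ¬ IsSquare (c i)) → 0 < ε →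
    ∃ m₀ : ℕ, ∀ m : ℕ, m₀ ≤ m → ∀ P : K[X] → ℂ, Ph s P → ∀ F : K[X] → ℂ, BMult F →
      ‖∑ a ∈ Mn K m, F a * (P a *
        (((∏ j, (lio (α j * a + β j) : ℝ)) * ∏ i, (lio (a ^ 2 + c i) : ℝ) : ℝ) : ℂ))‖ ≤
        ε * (Fintype.card K : ℝ) ^ m

/-- **Task G2.** -/
def S_g2asm : Prop := S_locu → S_locq → S_kataiq → S_phl → S_G2

/-- **Third theorem**: no linear form, the non-degenerate case. -/
def S_G3 : Prop :=
  ∀ (K : Type) [Field K] [Fintype K] [CharP K 2] (n : ℕ) (c : Fin n → K[X]) (s : ℕ) (ε : ℝ),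
    (∀ i, ¬ IsSquare (c i)) →
    (∑ i, 1 / rf (derivative (c i)) ≠ 0 ∨ ∑ i, rf (c i) / rf (derivative (c i)) ^ 2 ≠ 0) →
    0 < ε → ∃ m₀ : ℕ, ∀ m : ℕ, m₀ ≤ m → ∀ P : K[X] → ℂ, Ph s P → ∀ F : K[X] → ℂ, BMult F →
      ‖∑ a ∈ Mn K m, F a * (P a * ((∏ i, (lio (a ^ 2 + c i) : ℝ) : ℝ) : ℂ))‖ ≤
        ε * (Fintype.card K : ℝ) ^ m

/-- **Task G3.** -/
def S_g3asm : Prop := S_tiim → S_kataiq → S_phl → S_G3

/-- **Task CLS.**  The indicator function of a residue class is an average of phases. -/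
def S_cls : Prop :=
  ∀ (K : Type) [Field K] [Fintype K] [CharP K 2] (Q r : K[X]), Q ≠ 0 → ∃ (N : ℕ)
    (χ : Fin N → K[X] → ℂ), 0 < N ∧ (∀ i, Ph 2 (χ i)) ∧
    ∀ a : K[X], (if Q ∣ a - r then (1 : ℂ) else 0) = (∑ i, χ i a) / N

end Pool.Agent.H526.PE
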