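import Mathlib
import Pool.Agent.H526.PE.Stm
import Pool.Agent.H985.Chow.RT

/-!
# Task LOCQ (helper618): in windows of fixed length `λ((A a)² + c)` is a quadratic phase
-/

namespace Pool.Agent.H526.PE.LocqAsm

open Polynomial
open scoped Classical ComplexConjugate
open Pool.Agent.H985.Chow (mob lc)
open Pool.Agent.H985.KP (sg)
open Pool.Agent.H604.LD (fa phg S_parinfg)
open Pool.Agent.H985.Chow.RT (lc_add lc_mul lc_small)
open Pool.Agent.H526.PE

section

variable {K : Type} [Field K]

theorem lio_ne {F : K[X]} (h : F ≠ 0) :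
    lio F = (-1) ^ Multiset.card (UniqueFactorizationMonoid.factors F) := by
  unfold lio
  rw [if_neg h]

theorem lio_mul {F G : K[X]} (hF : F ≠ 0) (hG : G ≠ 0) : lio (F * G) = lio F * lio G := by
  rw [lio_ne hF, lio_ne hG, lio_ne (mul_ne_zero hF hG), ← pow_add,
    Multiset.card_eq_card_of_rel (UniqueFactorizationMonoid.factors_mul hF hG),
    Multiset.card_add]

theorem lio_sq_mul {h F : K[X]} (hh : h ≠ 0) (hF : F ≠ 0) : lio (h ^ 2 * F) = lio F := by
  rw [pow_two, mul_assoc, lio_mul hh (mul_ne_zero hh hF), lio_mul hh hF, ← mul_assoc]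
  have h1 : lio h * lio h = 1 := by
    rw [lio_ne hh, ← mul_pow]
    norm_num
  rw [h1, one_mul]

theorem lio_mob {F : K[X]} (h : Squarefree F) : lio F = mob F := by
  rw [lio_ne h.ne_zero]
  unfold mob
  rw [if_pos h]

/-- the monic greatest common divisor -/
theorem monic_gcd (x : K[X]) {b : K[X]} (hb : b.Monic) : ∃ h x' b' : K[X], h.Monic ∧ x = h * x' ∧
    b = h * b' ∧ IsCoprime x' b' := by
  obtain ⟨x', hx'⟩ := EuclideanDomain.gcd_dvd_left x b
  obtain ⟨b', hb'⟩ := EuclideanDomain.gcd_dvd_right x b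
  set g := EuclideanDomain.gcd x b with hg
  have hg0 : g ≠ 0 := by
    intro h0
    rw [h0, zero_mul] at hb'
    exact hb.ne_zero hb'
  have hl : g.leadingCoeff ≠ 0 := leadingCoeff_ne_zero.2 hg0
  have hab := EuclideanDomain.gcd_eq_gcd_ab x b
  rw [← hg] at hab
  have h1 : (1 : K[X]) = x' * EuclideanDomain.gcdA x b + b' * EuclideanDomain.gcdB x b := by
    apply mul_left_cancel₀ hg0
    rw [mul_one, mul_add, ← mul_assoc, ← mul_assoc, ← hx', ← hb']
    exact hab
  have hCC : (C g.leadingCoeff : K[X]) * C (g.leadingCoeff)⁻¹ = 1 := by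
    rw [← C_mul, mul_inv_cancel₀ hl, C_1]
  refine ⟨g * C (g.leadingCoeff)⁻¹, C g.leadingCoeff * x', C g.leadingCoeff * b',
    monic_mul_leadingCoeff_inv hg0, ?_, ?_, ?_⟩
  · calc x = g * x' := hx'
      _ = g * (C g.leadingCoeff * C (g.leadingCoeff)⁻¹) * x' := by rw [hCC, mul_one]
      _ = _ := by ring
  · calc b = g * b' := hb'
      _ = g * (C g.leadingCoeff * C (g.leadingCoeff)⁻¹) * b' := by rw [hCC, mul_one]
      _ = _ := by ring
  · refine ⟨C (g.leadingCoeff)⁻¹ * EuclideanDomain.gcdA x b,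
      C (g.leadingCoeff)⁻¹ * EuclideanDomain.gcdB x b, ?_⟩
    calc C (g.leadingCoeff)⁻¹ * EuclideanDomain.gcdA x b * (C g.leadingCoeff * x') +
        C (g.leadingCoeff)⁻¹ * EuclideanDomain.gcdB x b * (C g.leadingCoeff * b')
        = (C g.leadingCoeff * C (g.leadingCoeff)⁻¹) *
          (x' * EuclideanDomain.gcdA x b + b' * EuclideanDomain.gcdB x b) := by ring
      _ = 1 := by rw [hCC, ← h1, one_mul]

/-- the quadratic part of the phase -/
noncomputable def T (y v : K[X]) : K[X] :=
  X * (y ^ 2 * derivative y ^ 3 + y ^ 2 * derivative y ^ 2 * derivative v +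
    y ^ 2 * derivative y * derivative v ^ 2 + v * y * derivative y ^ 3 +
    v * y * derivative y ^ 2 * derivative v + v ^ 2 * derivative y ^ 3)

variable [CharP K 2]

theorem two0 : (2 : K[X]) = 0 := by
  have : CharP K[X] 2 := inferInstance
  exact_mod_cast CharP.cast_eq_zero K[X] 2

theorem T_sum (y s x₁ x₂ x₃ : K[X]) : T y s + T y (s + x₁) + T y (s + x₂) + T y (s + x₃) +
    T y (s + x₁ + x₂) + T y (s + x₁ + x₃) + T y (s + x₂ + x₃) + T y (s + x₁ + x₂ + x₃) = 0 := by
  unfold T
  simp only [derivative_add]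
  have h2 := two0 (K := K)
  generalize derivative y = y'
  generalize derivative s = s'
  generalize derivative x₁ = a'
  generalize derivative x₂ = b'
  generalize derivative x₃ = c'
  linear_combination (X * (4 * (y ^ 2 * y' ^ 3) +
    y ^ 2 * y' ^ 2 * (4 * s' + 2 * a' + 2 * b' + 2 * c') +
    y ^ 2 * y' * (4 * s' ^ 2 + 4 * s' * (a' + b' + c') + 2 * (a' ^ 2 + b' ^ 2 + c' ^ 2) +
      2 * (a' * b' + a' * c' + b' * c')) +
    y * y' ^ 3 * (4 * s + 2 * x₁ + 2 * x₂ + 2 * x₃) +
    y * y' ^ 2 * (4 * s * s' + 2 * s * (a' + b' + c') + 2 * s' * (x₁ + x₂ + x₃) +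
      2 * (x₁ * a' + x₂ * b' + x₃ * c') + (x₁ * b' + a' * x₂ + x₁ * c' + a' * x₃ +
        x₂ * c' + b' * x₃)) +
    y' ^ 3 * (4 * s ^ 2 + 4 * s * (x₁ + x₂ + x₃) + 2 * (x₁ ^ 2 + x₂ ^ 2 + x₃ ^ 2) +
      2 * (x₁ * x₂ + x₁ * x₃ + x₂ * x₃)))) * h2

/-- the phase near `y` -/
theorem phase {y b v : K[X]} {M : ℕ} (hy : y.Monic) (hb : b.Monic) (hyv : (y + v).Monic)
    (hv : v.natDegree ≤ M) (hM : 3 * M + 2 < y.natDegree) :
    lc ((y + v) * b ^ 2) (X * derivative (y + v) ^ 3) = lc (y ^ 3 * b ^ 2) (T y v) := by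
  have h2 := two0 (K := K)
  have hd1 : (derivative y).natDegree ≤ y.natDegree := (natDegree_derivative_le y).trans (Nat.sub_le _ _)
  have hd2 : (derivative v).natDegree ≤ M :=
    ((natDegree_derivative_le v).trans (Nat.sub_le _ _)).trans hv
  have hX : (X : K[X]).natDegree ≤ 1 := natDegree_X_le
  have hdw : (derivative (y + v)).natDegree ≤ y.natDegree := by
    rw [derivative_add]
    exact natDegree_add_le_of_degree_le hd1 (hd2.trans (by omega))
  have hyv' : (y + v).natDegree = y.natDegree :=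
    natDegree_add_eq_left_of_natDegree_lt (by omega)
  have hb2 : (b ^ 2).Monic := hb.pow 2
  have hy3 : (y ^ 3).Monic := hy.pow 3
  have e1 : X * derivative (y + v) ^ 3 * y ^ 3 =
      (X * derivative (y + v) ^ 3 * (y ^ 2 + v * y + v ^ 2)) * (y + v) +
        X * derivative (y + v) ^ 3 * v ^ 3 := by
    linear_combination (- X * derivative (y + v) ^ 3 * (v * y ^ 2 + v ^ 2 * y + v ^ 3)) * h2
  rw [← lc_mul (hyv.mul hb2) hy3, e1, lc_add]
  have e2 : lc ((y + v) * b ^ 2 * y ^ 3) (X * derivative (y + v) ^ 3 * v ^ 3) = 0 := by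
    apply lc_small ((hyv.mul hb2).mul hy3)
    have n1 : ((y + v) * b ^ 2 * y ^ 3).natDegree =
        y.natDegree + 2 * b.natDegree + 3 * y.natDegree := by
      rw [(hyv.mul hb2).natDegree_mul hy3, hyv.natDegree_mul hb2, hb.natDegree_pow,
        hy.natDegree_pow, hyv']
    have n2 : (X * derivative (y + v) ^ 3 * v ^ 3).natDegree ≤ 1 + 3 * y.natDegree + 3 * M :=
      natDegree_mul_le_of_le (natDegree_mul_le_of_le hX (natDegree_pow_le_of_le 3 hdw))
        (natDegree_pow_le_of_le 3 hv)
    rw [n1]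
    omega
  rw [e2, add_zero]
  have e3 : (y + v) * b ^ 2 * y ^ 3 = y ^ 3 * b ^ 2 * (y + v) := by ring
  rw [e3, lc_mul (hy3.mul hb2) hyv]
  have e4 : X * derivative (y + v) ^ 3 * (y ^ 2 + v * y + v ^ 2) = T y v +
      X * (y ^ 2 * derivative v ^ 3 + v * y * derivative y * derivative v ^ 2 +
        v * y * derivative v ^ 3 + v ^ 2 * derivative y ^ 2 * derivative v +
        v ^ 2 * derivative y * derivative v ^ 2 + v ^ 2 * derivative v ^ 3) := by
    unfold T
    rw [derivative_add]
    linear_combination (X * (derivative y ^ 2 * derivative v + derivative y * derivative v ^ 2) *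
      (y ^ 2 + v * y + v ^ 2)) * h2
  rw [e4, lc_add]
  have e5 : lc (y ^ 3 * b ^ 2) (X * (y ^ 2 * derivative v ^ 3 +
        v * y * derivative y * derivative v ^ 2 +
        v * y * derivative v ^ 3 + v ^ 2 * derivative y ^ 2 * derivative v +
        v ^ 2 * derivative y * derivative v ^ 2 + v ^ 2 * derivative v ^ 3)) = 0 := by
    apply lc_small (hy3.mul hb2)
    have n1 : (y ^ 3 * b ^ 2).natDegree = 3 * y.natDegree + 2 * b.natDegree := by
      rw [hy3.natDegree_mul hb2, hb.natDegree_pow, hy.natDegree_pow]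
    have hy0 : y.natDegree ≤ y.natDegree := le_rfl
    have a1 : (y ^ 2 * derivative v ^ 3).natDegree ≤ 2 * y.natDegree + 3 * M :=
      natDegree_mul_le_of_le (natDegree_pow_le_of_le 2 hy0) (natDegree_pow_le_of_le 3 hd2)
    have a2 : (v * y * derivative y * derivative v ^ 2).natDegree ≤ 2 * y.natDegree + 3 * M :=
      (natDegree_mul_le_of_le (natDegree_mul_le_of_le (natDegree_mul_le_of_le hv hy0) hd1)
        (natDegree_pow_le_of_le 2 hd2)).trans (by omega)
    have a3 : (v * y * derivative v ^ 3).natDegree ≤ 2 * y.natDegree + 3 * M :=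
      (natDegree_mul_le_of_le (natDegree_mul_le_of_le hv hy0)
        (natDegree_pow_le_of_le 3 hd2)).trans (by omega)
    have a4 : (v ^ 2 * derivative y ^ 2 * derivative v).natDegree ≤ 2 * y.natDegree + 3 * M :=
      (natDegree_mul_le_of_le (natDegree_mul_le_of_le (natDegree_pow_le_of_le 2 hv)
        (natDegree_pow_le_of_le 2 hd1)) hd2).trans (by omega)
    have a5 : (v ^ 2 * derivative y * derivative v ^ 2).natDegree ≤ 2 * y.natDegree + 3 * M :=
      (natDegree_mul_le_of_le (natDegree_mul_le_of_le (natDegree_pow_le_of_le 2 hv)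
        hd1) (natDegree_pow_le_of_le 2 hd2)).trans (by omega)
    have a6 : (v ^ 2 * derivative v ^ 3).natDegree ≤ 2 * y.natDegree + 3 * M :=
      (natDegree_mul_le_of_le (natDegree_pow_le_of_le 2 hv)
        (natDegree_pow_le_of_le 3 hd2)).trans (by omega)
    have n2 := natDegree_mul_le_of_le hX (natDegree_add_le_of_degree_le
      (natDegree_add_le_of_degree_le (natDegree_add_le_of_degree_le
      (natDegree_add_le_of_degree_le (natDegree_add_le_of_degree_le a1 a2) a3) a4) a5) a6)
    rw [n1]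
    omega
  rw [e5, add_zero]

theorem sqf {γ : K} (hγ : γ ≠ 0) {b z : K[X]} (h : IsCoprime z b) : Squarefree (fa γ b z) := by
  have h2 := two0 (K := K)
  have h1 : (fa γ b z).Separable := by
    have e1 : derivative (fa γ b z) = (C γ * b) ^ 2 := by
      unfold fa
      rw [derivative_add, derivative_mul, derivative_X, derivative_pow, derivative_pow]
      rw [show (C ((2 : ℕ) : K) : K[X]) = 0 by
        rw [CharP.cast_eq_zero, C_0]]
      ring
    unfold Polynomial.Separable
    rw [e1]
    unfold fa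
    have h3 : IsCoprime z (C γ * b) :=
      (isCoprime_mul_unit_left_right (isUnit_C.2 hγ.isUnit) _ _).2 h
    have h4 : IsCoprime (z ^ 2) ((C γ * b) ^ 2) := h3.pow
    have h5 := h4.add_mul_left_left X
    rwa [mul_comm ((C γ * b) ^ 2) X] at h5
  exact h1.squarefree

end

theorem main : S_locqasm := by
  intro hpar hphl K _ _ _ γ b e c A B hγ hb hc hA hbB hB H
  obtain ⟨-, -, -, -, -, -, -, h8⟩ := hphl
  have h2 := two0 (K := K)
  obtain ⟨B1, hB1⟩ := hbB
  set M : ℕ := A.natDegree + B.natDegree + H with hM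
  refine ⟨6 * b.natDegree + e.natDegree + 3 * M + 10, fun a ha hN => ?_⟩
  have hAa : (A * a).Monic := hA.mul ha
  have hAad : (A * a).natDegree = A.natDegree + a.natDegree := hA.natDegree_mul ha
  have hx : (A * a + e).Monic := hAa.add_of_left (degree_lt_degree (by omega))
  have hxd : (A * a + e).natDegree = A.natDegree + a.natDegree := by
    rw [natDegree_add_eq_left_of_natDegree_lt (by omega), hAad]
  obtain ⟨h, y, b1, hh, hxy, hbb, hcop⟩ := monic_gcd (A * a + e) hb
  have hy : y.Monic := hh.of_mul_monic_left (hxy ▸ hx)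
  have hb1 : b1.Monic := hh.of_mul_monic_left (hbb ▸ hb)
  have hbd : b.natDegree = h.natDegree + b1.natDegree := by
    rw [hbb, hh.natDegree_mul hb1]
  have hyd : A.natDegree + a.natDegree = h.natDegree + y.natDegree := by
    rw [← hxd, hxy, hh.natDegree_mul hy]
  set w : K[X] := A * (h ^ 5 * b1 ^ 6 * B1) with hw
  have hhw : h * w = A * B := by
    rw [hw, hB1, hbb]
    ring
  have hB0 : A * B ≠ 0 := mul_ne_zero hA.ne_zero hB
  have hw0 : w ≠ 0 := by
    intro h0
    rw [h0, mul_zero] at hhw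
    exact hB0 hhw.symm
  have hwd : w.natDegree ≤ A.natDegree + B.natDegree := by
    have h3 : (h * w).natDegree = h.natDegree + w.natDegree := natDegree_mul hh.ne_zero hw0
    have h4 : (A * B).natDegree = A.natDegree + B.natDegree := natDegree_mul hA.ne_zero hB
    rw [hhw, h4] at h3
    omega
  obtain ⟨η, hη, hmob⟩ := hpar K γ b1 y y.natDegree hγ hb1 hcop (by omega)
  set q : K[X] → K := fun u => (γ⁻¹) ^ 2 * lc (y ^ 3 * b1 ^ 2) (T y (w * u)) with hq
  refine ⟨(η : ℂ), fun u => (sg (q u) : ℂ), ?_, ?_, fun u hu => ?_⟩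
  · rcases hη with h3 | h3 <;> rw [h3] <;> simp
  · refine h8 K K[X] q fun u x₁ x₂ x₃ => ?_
    rw [hq]
    simp only [mul_add]
    have h3 := T_sum y (w * u) (w * x₁) (w * x₂) (w * x₃)
    have h4 := congrArg (fun F => (γ⁻¹) ^ 2 * lc (y ^ 3 * b1 ^ 2) F) h3
    simp only [lc_add, mul_add] at h4
    rw [h4, Pool.Agent.H985.Chow.RT.lc_zero, mul_zero]
  · have hud : u.natDegree ≤ H := by
      rcases eq_or_ne u 0 with h0 | h0
      · rw [h0, natDegree_zero]
        exact Nat.zero_le _
      · have := (natDegree_lt_iff_degree_lt h0).2 hu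
        omega
    have hvd : (w * u).natDegree ≤ M := by
      refine (natDegree_mul_le).trans ?_
      omega
    have hyv : (y + w * u).Monic := hy.add_of_left (degree_lt_degree (by omega))
    have hyvd : (y + w * u).natDegree = y.natDegree :=
      natDegree_add_eq_left_of_natDegree_lt (by omega)
    have hb1w : b1 ^ 5 ∣ y + w * u - y := by
      rw [add_sub_cancel_left, hw]
      exact ⟨A * (h ^ 5 * b1 * B1) * u, by ring⟩
    have h3 := hmob (y + w * u) hyv hyvd hb1w
    have hcop2 : IsCoprime (y + w * u) b1 := by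
      have h4 : w * u = b1 * (A * (h ^ 5 * b1 ^ 5 * B1) * u) := by
        rw [hw]
        ring
      rw [h4]
      exact hcop.add_mul_left_left _
    have hsq := sqf hγ hcop2
    have e1 : (A * (a + B * u)) ^ 2 + c = h ^ 2 * fa γ b1 (y + w * u) := by
      have e2 : A * (a + B * u) + e = h * (y + w * u) := by
        calc A * (a + B * u) + e = (A * a + e) + A * B * u := by ring
          _ = h * y + h * w * u := by rw [hxy, hhw]
          _ = _ := by ring
      have e3 : A * (a + B * u) = h * (y + w * u) - e := by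
        rw [← e2]
        ring
      unfold fa
      rw [hc, e3, hbb]
      linear_combination (e ^ 2 - h * (y + w * u) * e) * h2
    have h5 : (lio ((A * (a + B * u)) ^ 2 + c) : ℝ) = η * sg (q u) := by
      rw [e1, lio_sq_mul hh.ne_zero hsq.ne_zero, lio_mob hsq, h3]
      congr 2
      unfold phg
      rw [hq, phase hy hb1 hyv hvd (by omega)]
    rw [h5]
    push_cast
    rfl

end Pool.Agent.H526.PE.LocqAsm
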