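import Mathlib
import Pool.Agent.H526.PE.Stm
import Pool.Agent.H985.Chow.Asm

/-!
# Task LOCU of the project PE (helper526): local uniformity of `λ(f(a))`

The first part follows `Pool.Agent.H524.FC.Unif`.
-/

set_option autoImplicit false
set_option linter.unusedSectionVars false

open scoped Classical ComplexConjugate
open Polynomial Finset

namespace Pool.Agent.H526.PE.LocuAsm

open Pool.Agent.H694.Typ (Mn mem_Mn card_Mn)
open Pool.Agent.H985.Chow.Asm (card_deg)
open Pool.Agent.H526.PE

variable {K : Type} [Field K] [Fintype K]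

/-- The average over the polynomials of degree less than `H`. -/
noncomputable def av (H : ℕ) (F : K[X] → ℂ) : ℂ :=
  (∑ x : degreeLT K H, F x) / (Fintype.card K : ℂ) ^ H

/-- The multiplicative derivative. -/
noncomputable def dd (y : K[X]) (F : K[X] → ℂ) : K[X] → ℂ := fun x => F (x + y) * conj (F x)

/-- The averages of the multiplicative derivatives of order `k`. -/
noncomputable def UU (H : ℕ) : ℕ → (K[X] → ℂ) → ℂ
  | 0, F => av H F
  | k + 1, F => av H (fun y => UU H k (dd y F))

theorem qH_ne (H : ℕ) : (Fintype.card K : ℂ) ^ H ≠ 0 := by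
  have : (Fintype.card K : ℂ) ≠ 0 := by exact_mod_cast Fintype.card_ne_zero
  exact pow_ne_zero _ this

theorem av_norm_pow (H m : ℕ) (F : K[X] → ℂ) :
    ‖av H F‖ ^ m ≤ (∑ x : degreeLT K H, ‖F x‖ ^ m) / (Fintype.card K : ℝ) ^ H := by
  have hq : (0 : ℝ) < (Fintype.card K : ℝ) ^ H := by
    have : (0 : ℝ) < Fintype.card K := by exact_mod_cast Fintype.card_pos
    positivity
  have h1 : ‖av H F‖ ≤ ∑ x : degreeLT K H, ((Fintype.card K : ℝ) ^ H)⁻¹ * ‖F x‖ := by
    unfold av
    rw [norm_div, norm_pow, Complex.norm_natCast, ← Finset.mul_sum, inv_mul_eq_div]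
    exact div_le_div_of_nonneg_right (norm_sum_le _ _) hq.le
  refine (pow_le_pow_left₀ (norm_nonneg _) h1 m).trans ?_
  refine (Real.pow_arith_mean_le_arith_mean_pow univ (fun _ => ((Fintype.card K : ℝ) ^ H)⁻¹)
    (fun x : degreeLT K H => ‖F x‖) (fun _ _ => by positivity) ?_ (fun _ _ => norm_nonneg _)
    m).trans ?_
  · rw [Finset.sum_const, Finset.card_univ, card_deg, nsmul_eq_mul]
    push_cast
    exact mul_inv_cancel₀ hq.ne'
  · rw [← Finset.mul_sum, inv_mul_eq_div]

theorem av_sq (H : ℕ) (F : K[X] → ℂ) : ((‖av H F‖ ^ 2 : ℝ) : ℂ) = UU H 1 F := by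
  have h1 : ((‖av H F‖ ^ 2 : ℝ) : ℂ) = av H F * conj (av H F) := by
    rw [Complex.mul_conj]
    norm_cast
    exact (Complex.normSq_eq_norm_sq _).symm
  rw [h1]
  change av H F * conj (av H F) = av H (fun y => av H (dd y F))
  unfold av
  rw [map_div₀, map_pow, Complex.conj_natCast, map_sum, div_mul_div_comm, Finset.sum_mul_sum]
  simp only [dd]
  have h2 : ∑ i : degreeLT K H, ∑ j : degreeLT K H, F i * conj (F j) =
      ∑ y : degreeLT K H, ∑ x : degreeLT K H, F ((x : K[X]) + y) * conj (F x) := by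
    rw [Finset.sum_comm]
    conv_rhs => rw [Finset.sum_comm]
    refine Finset.sum_congr rfl fun j _ => ?_
    exact (Fintype.sum_equiv (Equiv.addLeft j) _ _ fun y => rfl).symm
  rw [h2, ← Finset.sum_div, div_div]

theorem gcs (H : ℕ) (k : ℕ) : ∀ F : K[X] → ℂ,
    ‖av H F‖ ^ (2 ^ (k + 1)) ≤ (UU H (k + 1) F).re := by
  induction k with
  | zero =>
    intro F
    rw [zero_add, pow_one, ← av_sq, Complex.ofReal_re]
  | succ k ih =>
    intro F
    have hq : (0 : ℝ) < (Fintype.card K : ℝ) ^ H := by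
      have : (0 : ℝ) < Fintype.card K := by exact_mod_cast Fintype.card_pos
      positivity
    have h1 : ‖av H F‖ ^ 2 = ‖av H (fun y => av H (dd y F))‖ := by
      have h2 : ((‖av H F‖ ^ 2 : ℝ) : ℂ) = av H (fun y => av H (dd y F)) := av_sq H F
      rw [← h2, Complex.norm_real, Real.norm_of_nonneg (by positivity)]
    rw [show 2 ^ (k + 1 + 1) = 2 * 2 ^ (k + 1) by ring, pow_mul, h1]
    refine (av_norm_pow H _ _).trans ?_
    have h3 : (UU H (k + 1 + 1) F).re =
        (∑ y : degreeLT K H, (UU H (k + 1) (dd y F)).re) / (Fintype.card K : ℝ) ^ H := by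
      change (av H (fun y => UU H (k + 1) (dd y F))).re = _
      unfold av
      have h4 : ((Fintype.card K : ℂ)) ^ H = (((Fintype.card K : ℝ) ^ H : ℝ) : ℂ) := by push_cast; rfl
      rw [h4, Complex.div_ofReal_re, Complex.re_sum]
    rw [h3]
    exact div_le_div_of_nonneg_right (Finset.sum_le_sum fun y _ => ih _) hq.le

theorem dd_mul (y : K[X]) (F G : K[X] → ℂ) :
    dd y (fun x => F x * G x) = fun x => dd y F x * dd y G x := by
  funext x
  simp only [dd, map_mul]
  ring

theorem UU_phase (H k : ℕ) : ∀ (g P : K[X] → ℂ), Ph k P →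
    UU H k (fun x => g x * P x) = UU H k g := by
  induction k with
  | zero =>
    intro g P hP
    change av H _ = av H _
    congr 1
    funext x
    rw [hP x, mul_one]
  | succ k ih =>
    intro g P hP
    change av H _ = av H _
    congr 1
    funext y
    rw [dd_mul]
    exact ih _ _ (hP y)

/-! ### Real functions -/

/-- the real version -/
noncomputable def avR (H : ℕ) (F : K[X] → ℝ) : ℝ :=
  (∑ x : degreeLT K H, F x) / (Fintype.card K : ℝ) ^ H

/-- the real version -/
noncomputable def UR (H : ℕ) : ℕ → (K[X] → ℝ) → ℝ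
  | 0, F => avR H F
  | k + 1, F => avR H (fun y => UR H k (fun x => F (x + y) * F x))

theorem UU_real (H k : ℕ) : ∀ g : K[X] → ℝ, UU H k (fun x => (g x : ℂ)) = (UR H k g : ℂ) := by
  induction k with
  | zero =>
    intro g
    change av H _ = ((avR H g : ℝ) : ℂ)
    unfold av avR
    push_cast
    rfl
  | succ k ih =>
    intro g
    change av H _ = ((avR H _ : ℝ) : ℂ)
    unfold av avR
    push_cast
    congr 1
    refine Finset.sum_congr rfl fun y _ => ?_
    rw [← ih]
    congr 1
    funext x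
    simp only [dd, Complex.conj_ofReal]
    push_cast
    rfl

theorem avR_le (H : ℕ) {F : K[X] → ℝ} (hF : ∀ x, |F x| ≤ 1) : |avR H F| ≤ 1 := by
  have hq : (0 : ℝ) < (Fintype.card K : ℝ) ^ H := by
    have : (0 : ℝ) < Fintype.card K := by exact_mod_cast Fintype.card_pos
    positivity
  unfold avR
  rw [abs_div, abs_of_pos hq, div_le_one hq]
  refine (Finset.abs_sum_le_sum_abs _ _).trans ?_
  refine (Finset.sum_le_sum fun x _ => hF _).trans ?_
  rw [Finset.sum_const, Finset.card_univ, card_deg, nsmul_eq_mul, mul_one]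
  push_cast
  exact le_rfl

theorem UR_le (H k : ℕ) : ∀ {F : K[X] → ℝ}, (∀ x, |F x| ≤ 1) → |UR H k F| ≤ 1 := by
  induction k with
  | zero =>
    intro F hF
    exact avR_le H hF
  | succ k ih =>
    intro F hF
    refine avR_le H fun y => ih fun x => ?_
    rw [abs_mul]
    exact mul_le_one₀ (hF _) (abs_nonneg _) (hF _)


/-! ### Correlations with excluded shifts -/

/-- the differences of the elements of `S` avoid `Δ` -/
def Good (Δ S : Finset K[X]) : Prop := ∀ s ∈ S, ∀ t ∈ S, s ≠ t → s - t ∉ Δ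

/-- `a` has small correlations. -/
def Cor (Δ : Finset K[X]) (a : K[X] → ℝ) : Prop :=
  ∀ S : Finset K[X], S.Nonempty → Good Δ S → ∀ δ : ℝ, 0 < δ → ∃ N : ℕ, ∀ n : ℕ, N ≤ n →
    |∑ f ∈ Mn K n, ∏ s ∈ S, a (f + s)| ≤ δ * (Fintype.card K : ℝ) ^ n

theorem Good.map {Δ S : Finset K[X]} (h : Good Δ S) (x : K[X]) :
    Good Δ (S.map (addLeftEmbedding x)) := by
  intro s hs t ht hst
  rw [Finset.mem_map] at hs ht
  obtain ⟨s, hs, rfl⟩ := hs
  obtain ⟨t, ht, rfl⟩ := ht
  simp only [addLeftEmbedding_apply] at hst ⊢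
  rw [add_sub_add_left_eq_sub]
  exact h s hs t ht fun h1 => hst (by rw [h1])

theorem avUR {a : K[X] → ℝ} {Δ : Finset K[X]} {B : K[X]} (hB : B ≠ 0) (h0 : (0 : K[X]) ∈ Δ)
    (hsym : ∀ x ∈ Δ, -x ∈ Δ) (ha : ∀ f, |a f| ≤ 1) (hc : Cor Δ a) (k : ℕ) : ∀ m : ℕ,
    ∃ C : ℝ, 0 ≤ C ∧ ∀ (H : ℕ) (S : Finset K[X]), S.Nonempty → Good Δ S → S.card ≤ m →
      ∀ δ : ℝ, 0 < δ → ∃ N : ℕ, ∀ n : ℕ, N ≤ n →
        |∑ f ∈ Mn K n, UR H k (fun x => ∏ s ∈ S, a (f + B * x + s))| ≤
          (C / (Fintype.card K : ℝ) ^ H + δ) * (Fintype.card K : ℝ) ^ n := by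
  have hq0 : (0 : ℝ) < Fintype.card K := by exact_mod_cast Fintype.card_pos
  induction k with
  | zero =>
    intro m
    refine ⟨0, le_rfl, fun H S hS hG _ δ hδ => ?_⟩
    have hcl : ∀ x : degreeLT K H, ∃ N : ℕ, ∀ n : ℕ, N ≤ n →
        |∑ f ∈ Mn K n, ∏ s ∈ S, a (f + B * x + s)| ≤ δ * (Fintype.card K : ℝ) ^ n := by
      intro x
      obtain ⟨N, hN⟩ := hc (S.map (addLeftEmbedding (B * (x : K[X])))) (hS.map) (hG.map _) δ hδ
      refine ⟨N, fun n hn => ?_⟩
      have h1 := hN n hn
      simp only [Finset.prod_map, addLeftEmbedding_apply] at h1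
      simpa only [add_assoc] using h1
    choose N hN using hcl
    refine ⟨univ.sup N, fun n hn => ?_⟩
    have h1 : ∑ f ∈ Mn K n, UR H 0 (fun x => ∏ s ∈ S, a (f + B * x + s)) =
        (∑ x : degreeLT K H, ∑ f ∈ Mn K n, ∏ s ∈ S, a (f + B * x + s)) /
          (Fintype.card K : ℝ) ^ H := by
      rw [Finset.sum_comm, Finset.sum_div]
      rfl
    have hH : (0 : ℝ) < (Fintype.card K : ℝ) ^ H := by positivity
    rw [h1, abs_div, abs_of_pos hH, div_le_iff₀ hH, zero_div, zero_add]
    refine (Finset.abs_sum_le_sum_abs _ _).trans ?_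
    refine (Finset.sum_le_sum fun x _ => hN x n
      ((Finset.le_sup (Finset.mem_univ x)).trans hn)).trans ?_
    rw [Finset.sum_const, Finset.card_univ, card_deg, nsmul_eq_mul]
    push_cast
    rw [mul_comm]
  | succ k ih =>
    intro m
    obtain ⟨C, hC0, hC⟩ := ih (2 * m)
    refine ⟨C + m * m * Δ.card, by positivity, fun H S hS hG hSm δ hδ => ?_⟩
    have hH : (0 : ℝ) < (Fintype.card K : ℝ) ^ H := by positivity
    have hcl : ∀ y : degreeLT K H, ∃ N : ℕ, ∀ n : ℕ, N ≤ n →
        |∑ f ∈ Mn K n, UR H k (fun x => (∏ s ∈ S, a (f + B * (x + (y : K[X])) + s)) *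
          ∏ s ∈ S, a (f + B * x + s))| ≤
        (C / (Fintype.card K : ℝ) ^ H + δ +
          if ∀ s ∈ S, ∀ t ∈ S, B * (y : K[X]) + s - t ∉ Δ then 0 else 1) *
            (Fintype.card K : ℝ) ^ n := by
      intro y
      split_ifs with hd
      · have hdis : Disjoint (S.map (addLeftEmbedding (B * (y : K[X])))) S := by
          rw [Finset.disjoint_left]
          intro z hz1 hz2
          rw [Finset.mem_map] at hz1
          obtain ⟨s, hs, rfl⟩ := hz1
          refine hd s hs _ hz2 ?_
          rw [addLeftEmbedding_apply, sub_self]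
          exact h0
        have hG' : Good Δ ((S.map (addLeftEmbedding (B * (y : K[X])))).disjUnion S hdis) := by
          intro s hs t ht hst
          rw [Finset.mem_disjUnion] at hs ht
          rcases hs with hs | hs <;> rcases ht with ht | ht
          · exact hG.map _ s hs t ht hst
          · rw [Finset.mem_map] at hs
            obtain ⟨s, hs, rfl⟩ := hs
            exact hd s hs t ht
          · rw [Finset.mem_map] at ht
            obtain ⟨t, ht, rfl⟩ := ht
            intro h1
            refine hd t ht s hs ?_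
            have h2 := hsym _ h1
            rw [neg_sub] at h2
            exact h2
          · exact hG s hs t ht hst
        obtain ⟨N, hN⟩ := hC H ((S.map (addLeftEmbedding (B * (y : K[X])))).disjUnion S hdis)
          (by
            obtain ⟨s, hs⟩ := hS
            exact ⟨s, Finset.mem_disjUnion.2 (Or.inr hs)⟩) hG'
          (by
            rw [Finset.card_disjUnion, Finset.card_map]
            omega) δ hδ
        refine ⟨N, fun n hn => ?_⟩
        have h1 := hN n hn
        simp only [Finset.prod_disjUnion, Finset.prod_map, addLeftEmbedding_apply] at h1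
        rw [add_zero]
        simpa only [add_assoc, mul_add] using h1
      · refine ⟨0, fun n _ => ?_⟩
        refine (Finset.abs_sum_le_sum_abs _ _).trans ?_
        have h1 : ∀ f ∈ Mn K n, |UR H k (fun x => (∏ s ∈ S, a (f + B * (x + (y : K[X])) + s)) *
            ∏ s ∈ S, a (f + B * x + s))| ≤ 1 := by
          intro f _
          refine UR_le H k fun x => ?_
          rw [abs_mul, Finset.abs_prod, Finset.abs_prod]
          exact mul_le_one₀ (Finset.prod_le_one (fun _ _ => abs_nonneg _) fun _ _ => ha _)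
            (Finset.prod_nonneg fun _ _ => abs_nonneg _)
            (Finset.prod_le_one (fun _ _ => abs_nonneg _) fun _ _ => ha _)
        refine (Finset.sum_le_sum h1).trans ?_
        rw [Finset.sum_const, card_Mn, nsmul_eq_mul, mul_one]
        push_cast
        have h2 : 0 ≤ C / (Fintype.card K : ℝ) ^ H := by positivity
        have h3 : (0 : ℝ) ≤ (Fintype.card K : ℝ) ^ n := by positivity
        nlinarith
    choose N hN using hcl
    refine ⟨univ.sup N, fun n hn => ?_⟩
    have h1 : ∑ f ∈ Mn K n, UR H (k + 1) (fun x => ∏ s ∈ S, a (f + B * x + s)) =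
        (∑ y : degreeLT K H, ∑ f ∈ Mn K n, UR H k (fun x =>
          (∏ s ∈ S, a (f + B * (x + (y : K[X])) + s)) *
          ∏ s ∈ S, a (f + B * x + s))) / (Fintype.card K : ℝ) ^ H := by
      rw [Finset.sum_comm, Finset.sum_div]
      rfl
    have hn0 : (0 : ℝ) < (Fintype.card K : ℝ) ^ n := by positivity
    rw [h1, abs_div, abs_of_pos hH, div_le_iff₀ hH]
    refine (Finset.abs_sum_le_sum_abs _ _).trans ?_
    refine (Finset.sum_le_sum fun y _ => hN y n
      ((Finset.le_sup (Finset.mem_univ y)).trans hn)).trans ?_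
    rw [← Finset.sum_mul, Finset.sum_add_distrib, Finset.sum_const, Finset.card_univ, card_deg,
      nsmul_eq_mul]
    have hbad : ∑ y : degreeLT K H, (if ∀ s ∈ S, ∀ t ∈ S, B * (y : K[X]) + s - t ∉ Δ then
        (0 : ℝ) else 1) ≤ m * m * Δ.card := by
      have h2 : ∑ y : degreeLT K H, (if ∀ s ∈ S, ∀ t ∈ S, B * (y : K[X]) + s - t ∉ Δ then
          (0 : ℝ) else 1) = (((univ : Finset (degreeLT K H)).filter
            (fun y : degreeLT K H =>
              ¬ ∀ s ∈ S, ∀ t ∈ S, B * (y : K[X]) + s - t ∉ Δ)).card : ℝ) := by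
        rw [← Finset.sum_boole]
        exact Finset.sum_congr rfl fun y _ => by split_ifs <;> simp_all
      rw [h2]
      have h3 : ((univ : Finset (degreeLT K H)).filter
          (fun y : degreeLT K H => ¬ ∀ s ∈ S, ∀ t ∈ S, B * (y : K[X]) + s - t ∉ Δ)).card ≤
            ((S ×ˢ S) ×ˢ Δ).card := by
        have h4 : ((univ : Finset (degreeLT K H)).filter
          (fun y : degreeLT K H => ¬ ∀ s ∈ S, ∀ t ∈ S, B * (y : K[X]) + s - t ∉ Δ)).card ≤
            (((S ×ˢ S) ×ˢ Δ).image (fun z => z.2 + z.1.2 - z.1.1)).card := by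
          refine Finset.card_le_card_of_injOn (fun y => B * (y : K[X])) ?_ ?_
          · intro y hy
            rw [Finset.mem_coe, Finset.mem_filter] at hy
            obtain ⟨-, hy⟩ := hy
            push Not at hy
            obtain ⟨s, hs, t, ht, hst⟩ := hy
            rw [Finset.mem_coe, Finset.mem_image]
            refine ⟨((s, t), B * (y : K[X]) + s - t), ?_, ?_⟩
            · rw [Finset.mem_product, Finset.mem_product]
              exact ⟨⟨hs, ht⟩, hst⟩
            · simp only
              ring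
          · intro y _ y' _ hyy
            exact Subtype.ext (mul_left_cancel₀ hB hyy)
        exact h4.trans Finset.card_image_le
      rw [Finset.card_product, Finset.card_product] at h3
      have h4 : ((univ : Finset (degreeLT K H)).filter
          (fun y : degreeLT K H => ¬ ∀ s ∈ S, ∀ t ∈ S, B * (y : K[X]) + s - t ∉ Δ)).card ≤
            m * m * Δ.card :=
        h3.trans (Nat.mul_le_mul_right _ (Nat.mul_le_mul hSm hSm))
      exact_mod_cast h4
    push_cast
    have h5 : ((Fintype.card K : ℝ) ^ H * (C / (Fintype.card K : ℝ) ^ H + δ) +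
        ∑ y : degreeLT K H, (if ∀ s ∈ S, ∀ t ∈ S, B * (y : K[X]) + s - t ∉ Δ then
          (0 : ℝ) else 1)) ≤
        ((C + m * m * Δ.card) / (Fintype.card K : ℝ) ^ H + δ) * (Fintype.card K : ℝ) ^ H := by
      have h6 : ((C + m * m * Δ.card) / (Fintype.card K : ℝ) ^ H + δ) * (Fintype.card K : ℝ) ^ H =
          C + m * m * Δ.card + δ * (Fintype.card K : ℝ) ^ H := by
        field_simp
      have h7 : (Fintype.card K : ℝ) ^ H * (C / (Fintype.card K : ℝ) ^ H + δ) =
          C + δ * (Fintype.card K : ℝ) ^ H := by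
        field_simp
      rw [h6, h7]
      linarith
    calc _ ≤ (((C + m * m * Δ.card) / (Fintype.card K : ℝ) ^ H + δ) *
          (Fintype.card K : ℝ) ^ H) *
          (Fintype.card K : ℝ) ^ n := mul_le_mul_of_nonneg_right h5 hn0.le
      _ = _ := by ring

theorem Ph_succ {G : Type} [AddCommGroup G] {k : ℕ} : ∀ {P : G → ℂ}, Ph k P → Ph (k + 1) P := by
  induction k with
  | zero =>
    intro P hP y x
    change P (x + y) * conj (P x) = 1
    rw [hP, hP, map_one, mul_one]
  | succ k ih =>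
    intro P hP y
    exact ih (hP y)

theorem unif_fixed {a : K[X] → ℝ} {Δ : Finset K[X]} {B : K[X]} (hB : B ≠ 0)
    (h0 : (0 : K[X]) ∈ Δ) (hsym : ∀ x ∈ Δ, -x ∈ Δ) (ha : ∀ f, |a f| ≤ 1) (hc : Cor Δ a) (k : ℕ)
    {ε : ℝ} (hε : 0 < ε) : ∃ H₁ N₁ : ℕ, ∀ n : ℕ, N₁ ≤ n → ∀ P : K[X] → K[X] → ℂ,
      (∀ f, Ph k (P f)) →
      ∑ f ∈ Mn K n, ‖av H₁ (fun x => (a (f + B * x) : ℂ) * P f x)‖ ≤
        ε * (Fintype.card K : ℝ) ^ n := by
  have hq0 : (0 : ℝ) < Fintype.card K := by exact_mod_cast Fintype.card_pos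
  have hq1 : (1 : ℝ) < Fintype.card K := by exact_mod_cast Fintype.one_lt_card
  obtain ⟨C, hC0, hC⟩ := avUR hB h0 hsym ha hc (k + 1) 1
  set m := 2 ^ (k + 1) with hm
  have hm0 : m ≠ 0 := by positivity
  have hεm : 0 < ε ^ m := by positivity
  obtain ⟨H₁, hH₁⟩ := pow_unbounded_of_one_lt (2 * C / ε ^ m) hq1
  obtain ⟨N₁, hN₁⟩ := hC H₁ {0} (Finset.singleton_nonempty _)
    (by
      intro s hs t ht hst
      rw [Finset.mem_singleton] at hs ht
      exact absurd (hs.trans ht.symm) hst) (by simp) (ε ^ m / 2) (by positivity)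
  refine ⟨H₁, N₁, fun n hn P hP => ?_⟩
  have hn0 : (0 : ℝ) < (Fintype.card K : ℝ) ^ n := by positivity
  have hH0 : (0 : ℝ) < (Fintype.card K : ℝ) ^ H₁ := by positivity
  have h1 := hN₁ n hn
  simp only [Finset.prod_singleton, add_zero] at h1
  have h2 : C / (Fintype.card K : ℝ) ^ H₁ ≤ ε ^ m / 2 := by
    rw [div_lt_iff₀ hεm] at hH₁
    rw [div_le_iff₀ hH0]
    linarith
  have h3 : ∀ f ∈ Mn K n, ‖av H₁ (fun x => (a (f + B * x) : ℂ) * P f x)‖ ^ m ≤
      UR H₁ (k + 1) (fun x => a (f + B * x)) := by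
    intro f _
    refine (gcs H₁ k _).trans (le_of_eq ?_)
    rw [UU_phase H₁ (k + 1) (fun x => ((a (f + B * x) : ℝ) : ℂ)) _ (Ph_succ (hP f)),
      UU_real H₁ (k + 1) (fun x => a (f + B * x)), Complex.ofReal_re]
  have h4 : ∑ f ∈ Mn K n, ‖av H₁ (fun x => (a (f + B * x) : ℂ) * P f x)‖ ^ m ≤
      ε ^ m * (Fintype.card K : ℝ) ^ n := by
    refine (Finset.sum_le_sum h3).trans ((le_abs_self _).trans (h1.trans ?_))
    exact mul_le_mul_of_nonneg_right (by linarith) hn0.le
  have h5 := Real.pow_arith_mean_le_arith_mean_pow (Mn K n)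
    (fun _ => ((Fintype.card K : ℝ) ^ n)⁻¹)
    (fun f => ‖av H₁ (fun x => (a (f + B * x) : ℂ) * P f x)‖) (fun _ _ => by positivity)
    (by
      rw [Finset.sum_const, card_Mn, nsmul_eq_mul]
      push_cast
      exact mul_inv_cancel₀ hn0.ne') (fun _ _ => norm_nonneg _) m
  rw [← Finset.mul_sum, ← Finset.mul_sum] at h5
  have h6 : (((Fintype.card K : ℝ) ^ n)⁻¹ *
      ∑ f ∈ Mn K n, ‖av H₁ (fun x => (a (f + B * x) : ℂ) * P f x)‖) ^ m ≤ ε ^ m := by
    refine h5.trans ?_
    rw [inv_mul_le_iff₀ hn0]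
    linarith
  have h7 := (pow_le_pow_iff_left₀ (by positivity) hε.le hm0).1 h6
  rw [inv_mul_le_iff₀ hn0] at h7
  linarith

/-! ### The Liouville function -/

section lio

omit [Fintype K]

theorem lio_ne {F : K[X]} (h : F ≠ 0) : lio F =
    (-1) ^ Multiset.card (UniqueFactorizationMonoid.factors F) := by
  unfold lio
  rw [if_neg h]

theorem lio_zero : lio (0 : K[X]) = 0 := by
  unfold lio
  rw [if_pos rfl]

theorem lio_mul (F G : K[X]) : lio (F * G) = lio F * lio G := by
  by_cases hF : F = 0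
  · rw [hF, zero_mul, lio_zero, zero_mul]
  by_cases hG : G = 0
  · rw [hG, mul_zero, lio_zero, mul_zero]
  rw [lio_ne hF, lio_ne hG, lio_ne (mul_ne_zero hF hG), ← pow_add,
    Multiset.card_eq_card_of_rel (UniqueFactorizationMonoid.factors_mul hF hG),
    Multiset.card_add]

theorem lio_one : lio (1 : K[X]) = 1 := by
  rw [lio_ne one_ne_zero, UniqueFactorizationMonoid.factors_one]
  simp

theorem lio_prod {ι : Type} (S : Finset ι) (F : ι → K[X]) :
    (lio (∏ s ∈ S, F s) : ℝ) = ∏ s ∈ S, (lio (F s) : ℝ) := by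
  induction S using Finset.induction_on with
  | empty => simp [lio_one]
  | insert a S ha ih =>
    rw [Finset.prod_insert ha, Finset.prod_insert ha, lio_mul, Int.cast_mul, ih]

theorem abs_lio (F : K[X]) : |(lio F : ℝ)| ≤ 1 := by
  unfold lio
  split_ifs
  · simp
  · push_cast
    rw [abs_pow]
    simp

end lio

/-! ### Products of translates -/

section Del

omit [Fintype K]

/-- the image of `f` over the field of rational functions -/
noncomputable def gR (f : K[X][X]) : (RatFunc K)[X] := f.map (algebraMap K[X] (RatFunc K))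

/-- translation -/
noncomputable def tr (δ : K[X]) : (RatFunc K)[X] := X + C (algebraMap K[X] (RatFunc K) δ)

/-- the shifts `δ` such that `f(T)` and `f(T + δ)` are not coprime -/
def Del (f : K[X][X]) : Set K[X] := {δ | ¬ IsCoprime (gR f) ((gR f).comp (tr δ))}

theorem tr_comp (δ δ' : K[X]) : (tr δ).comp (tr δ') = tr (δ + δ') := by
  unfold tr
  rw [add_comp, X_comp, C_comp, map_add, C_add]
  ring

theorem tr_zero : tr (0 : K[X]) = X := by
  unfold tr
  rw [map_zero, C_0, add_zero]

theorem gR_comp (f : K[X][X]) (s : K[X]) : gR (f.comp (X + C s)) = (gR f).comp (tr s) := by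
  unfold gR tr
  rw [Polynomial.map_comp, Polynomial.map_add, map_X, map_C]

theorem comp_coprime {p q : (RatFunc K)[X]} (h : IsCoprime p q) (r : (RatFunc K)[X]) :
    IsCoprime (p.comp r) (q.comp r) := by
  have := h.map (Polynomial.compRingHom r)
  simpa using this

theorem gR_ne {f : K[X][X]} {μ : K[X]} (h : Adf f μ) : gR f ≠ 0 := by
  unfold gR
  intro h1
  rw [Polynomial.map_eq_zero_iff (IsFractionRing.injective K[X] (RatFunc K))] at h1
  have := h.deg
  rw [h1, natDegree_zero] at this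
  exact lt_irrefl _ this

theorem Del_finite {f : K[X][X]} {μ : K[X]} (h : Adf f μ) : (Del f).Finite := by
  set L := AlgebraicClosure (RatFunc K) with hL
  have hinj : Function.Injective (fun δ : K[X] => algebraMap (RatFunc K) L
      (algebraMap K[X] (RatFunc K) δ)) :=
    (algebraMap (RatFunc K) L).injective.comp (IsFractionRing.injective K[X] (RatFunc K))
  have hR : ((gR f).rootSet L).Finite := Polynomial.rootSet_finite _ _
  have hF : (Set.image2 (fun a b => b - a) ((gR f).rootSet L) ((gR f).rootSet L)).Finite :=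
    hR.image2 _ hR
  refine (hF.preimage (f := fun δ : K[X] => algebraMap (RatFunc K) L
      (algebraMap K[X] (RatFunc K) δ)) hinj.injOn).subset ?_
  intro δ hδ
  unfold Del at hδ
  rw [Set.mem_ofPred_eq, Polynomial.isCoprime_iff_aeval_ne_zero_of_isAlgClosed (RatFunc K) L] at hδ
  push Not at hδ
  obtain ⟨a, ha1, ha2⟩ := hδ
  rw [Set.mem_preimage, Set.mem_image2]
  have h1 : aeval (a + algebraMap (RatFunc K) L (algebraMap K[X] (RatFunc K) δ)) (gR f) = 0 := by
    rw [aeval_comp] at ha2
    unfold tr at ha2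
    rwa [map_add, aeval_X, aeval_C] at ha2
  refine ⟨a, ?_, _, ?_, add_sub_cancel_left _ _⟩
  · rw [mem_rootSet]
    exact ⟨gR_ne h, ha1⟩
  · rw [mem_rootSet]
    exact ⟨gR_ne h, h1⟩

theorem zero_mem_Del {f : K[X][X]} {μ : K[X]} (h : Adf f μ) : (0 : K[X]) ∈ Del f := by
  unfold Del
  rw [Set.mem_ofPred_eq, tr_zero, comp_X, isCoprime_self]
  intro h1
  have h2 := Polynomial.natDegree_eq_zero_of_isUnit h1
  unfold gR at h2
  rw [natDegree_map_eq_of_injective (IsFractionRing.injective K[X] (RatFunc K))] at h2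
  have := h.deg
  omega

theorem separable_comp {p : (RatFunc K)[X]} (h : p.Separable) (s : K[X]) :
    (p.comp (tr s)).Separable := by
  unfold Polynomial.Separable at h ⊢
  rw [derivative_comp]
  have h1 : derivative (tr s) = 1 := by
    unfold tr
    simp
  rw [h1, one_mul]
  exact comp_coprime h _

theorem adf_prod {f : K[X][X]} {μ : K[X]} (h : Adf f μ) {S : Finset K[X]} (hS : S.Nonempty)
    (hg : ∀ s ∈ S, ∀ t ∈ S, s ≠ t → s - t ∉ Del f) :
    Adf (∏ s ∈ S, f.comp (X + C s)) μ := by
  have hf0 : f ≠ 0 := by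
    rintro rfl
    have := h.deg
    rw [natDegree_zero] at this
    exact lt_irrefl _ this
  have hcd : ∀ s : K[X], (f.comp (X + C s)).natDegree = f.natDegree := by
    intro s
    rw [natDegree_comp, natDegree_X_add_C, mul_one]
  refine ⟨?_, ?_, h.ne, ?_⟩
  · rw [natDegree_prod]
    · rw [Finset.sum_congr rfl fun s _ => hcd s, Finset.sum_const, smul_eq_mul]
      exact Nat.mul_pos hS.card_pos h.deg
    · intro s _ h1
      have h2 := hcd s
      rw [h1, natDegree_zero] at h2
      have := h.deg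
      omega
  · rw [Polynomial.map_prod]
    refine separable_prod' ?_ ?_
    · intro s hs t ht hst
      change IsCoprime (gR (f.comp (X + C s))) (gR (f.comp (X + C t)))
      rw [gR_comp, gR_comp]
      have h1 : IsCoprime (gR f) ((gR f).comp (tr (t - s))) := by
        have := hg t ht s hs (Ne.symm hst)
        unfold Del at this
        rw [Set.mem_ofPred_eq, not_not] at this
        exact this
      have h2 := comp_coprime h1 (tr s)
      rw [comp_assoc, tr_comp, sub_add_cancel] at h2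
      exact h2
    · intro s _
      change (gR (f.comp (X + C s))).Separable
      rw [gR_comp]
      exact separable_comp h.sep s
  · intro θ hθ
    rw [map_prod, Finset.prod_eq_zero_iff] at hθ
    obtain ⟨s, _, hs⟩ := hθ
    rw [aeval_comp, map_add, aeval_X, aeval_C] at hs
    obtain ⟨s₀, σ, hσ, h1⟩ := h.sq _ hs
    refine ⟨algebraMap K[X] (RatFunc K) (μ * s) + s₀, σ, hσ, ?_⟩
    rw [h1, map_add, ← IsScalarTower.algebraMap_apply, map_mul]
    ring

end Del

variable [CharP K 2]

theorem neg_mem_Del {f : K[X][X]} {δ : K[X]} (h : δ ∈ Del f) : -δ ∈ Del f := by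
  rw [CharTwo.neg_eq]
  exact h

theorem cor_f (hall : S_all) {f : K[X][X]} {μ : K[X]} (h : Adf f μ) :
    Cor (Del_finite h).toFinset (fun g : K[X] => (lio (f.eval g) : ℝ)) := by
  intro S hS hG δ hδ
  have hF := adf_prod h hS (fun s hs t ht hst => by
    have := hG s hs t ht hst
    rwa [Set.Finite.mem_toFinset] at this)
  obtain ⟨N, hN⟩ := hall K _ μ hF δ hδ
  refine ⟨N, fun n hn => ?_⟩
  refine le_trans (le_of_eq ?_) (hN n hn)
  congr 1
  refine Finset.sum_congr rfl fun g _ => ?_
  rw [eval_prod, lio_prod]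
  refine Finset.prod_congr rfl fun s _ => ?_
  rw [eval_comp, eval_add, eval_X, eval_C]

theorem main : S_locuasm := by
  intro hall _ _ K _ _ _ f μ B s ε h hB hε
  obtain ⟨H, N, hN⟩ := unif_fixed (Δ := (Del_finite h).toFinset) hB
    ((Set.Finite.mem_toFinset _).2 (zero_mem_Del h))
    (fun x hx => (Set.Finite.mem_toFinset _).2 (neg_mem_Del ((Set.Finite.mem_toFinset _).1 hx)))
    (fun g => abs_lio (f.eval g)) (cor_f hall h) s hε
  refine ⟨H, N, fun d hd P hP => ?_⟩
  have h1 := hN d hd P hP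
  have hq0 : (0 : ℝ) < Fintype.card K := by exact_mod_cast Fintype.card_pos
  have h2 : ∀ a ∈ Mn K d, ‖∑ᶠ u ∈ {u : K[X] | u.degree < (H : WithBot ℕ)},
        ((lio (f.eval (a + B * u)) : ℝ) : ℂ) * P a u‖ =
      (Fintype.card K : ℝ) ^ H *
        ‖av H (fun x => (((lio (f.eval (a + B * x)) : ℝ)) : ℂ) * P a x)‖ := by
    intro a _
    have h3 : ∑ᶠ u ∈ {u : K[X] | u.degree < (H : WithBot ℕ)},
        ((lio (f.eval (a + B * u)) : ℝ) : ℂ) * P a u =
        ∑ x : degreeLT K H, ((lio (f.eval (a + B * (x : K[X]))) : ℝ) : ℂ) * P a x := by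
      rw [← finsum_eq_sum_of_fintype]
      have h4 : {u : K[X] | u.degree < (H : WithBot ℕ)} = ((degreeLT K H : Submodule K K[X]) : Set K[X]) := by
        ext u
        rw [Set.mem_ofPred_eq, SetLike.mem_coe, mem_degreeLT]
      rw [h4]
      exact (finsum_set_coe_eq_finsum_mem _).symm
    rw [h3]
    unfold av
    rw [norm_div, norm_pow, Complex.norm_natCast]
    field_simp
  rw [Finset.sum_congr rfl h2, ← Finset.mul_sum, pow_add]
  calc _ ≤ (Fintype.card K : ℝ) ^ H * (ε * (Fintype.card K : ℝ) ^ d) :=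
        mul_le_mul_of_nonneg_left h1 (by positivity)
    _ = _ := by ring

end Pool.Agent.H526.PE.LocuAsm
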