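import Pool.Agent.H526.PE.Stm
import Pool.Agent.H985.Chow.RT
import Pool.Agent.H985.KP.Loc2

/-!
# Task PARLASM: the Liouville function of `(A z)² + c` on the fibres `z + D v²` (helper339)
-/

set_option autoImplicit false

namespace Pool.Agent.H526.PE.ParlAsm

open Polynomial
open scoped Classical
open Pool.Agent.H985.Chow (mob lc)
open Pool.Agent.H985.Chow.RT (lc_mul)
open Pool.Agent.H985.KP (sg)
open Pool.Agent.H985.KP.Loc2 (sg_pm sg_mul_self)
open Pool.Agent.H604.LD (fa phg S_parinfg)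
open Pool.Agent.H526.PQ (S_phm ph2)

section lio

variable {K : Type} [Field K]

theorem lio_ne {F : K[X]} (h : F ≠ 0) : lio F =
    (-1) ^ Multiset.card (UniqueFactorizationMonoid.factors F) := by
  unfold lio
  rw [if_neg h]

theorem lio_mul {F G : K[X]} (hF : F ≠ 0) (hG : G ≠ 0) : lio (F * G) = lio F * lio G := by
  rw [lio_ne hF, lio_ne hG, lio_ne (mul_ne_zero hF hG), ← pow_add,
    Multiset.card_eq_card_of_rel (UniqueFactorizationMonoid.factors_mul hF hG),
    Multiset.card_add]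

theorem lio_self {F : K[X]} (h : F ≠ 0) : lio F * lio F = 1 := by
  rw [lio_ne h, ← mul_pow]
  norm_num

theorem lio_mob {F : K[X]} (h : Squarefree F) : lio F = mob F := by
  rw [lio_ne h.ne_zero]
  unfold mob
  rw [if_pos h]

theorem lio_sq {h F : K[X]} (hh : h ≠ 0) (hF : F ≠ 0) : lio (h ^ 2 * F) = lio F := by
  rw [lio_mul (pow_ne_zero 2 hh) hF, sq, lio_mul hh hh, lio_self hh, one_mul]

end lio

section

variable {K : Type} [Field K] [CharP K 2]

theorem two_K : (2 : K[X]) = 0 := CharTwo.two_eq_zero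

theorem fa_eq (γ : K) (b e c A z : K[X]) (hc : c = e ^ 2 + X * (C γ * b) ^ 2) :
    (A * z) ^ 2 + c = fa γ b (A * z + e) := by
  unfold fa
  rw [hc]
  linear_combination (-(A * z * e)) * two_K (K := K)

omit [CharP K 2] in
theorem fa_mul (γ : K) (h b y : K[X]) : fa γ (h * b) (h * y) = h ^ 2 * fa γ b y := by
  unfold fa
  ring

theorem der_fa (γ : K) (b y : K[X]) : derivative (fa γ b y) = (C γ * b) ^ 2 := by
  have e1 : derivative (y ^ 2) = 0 := by
    rw [sq, derivative_mul]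
    linear_combination (derivative y * y) * two_K (K := K)
  have e2 : derivative ((C γ * b) ^ 2) = 0 := by
    rw [sq, derivative_mul (f := C γ * b) (g := C γ * b)]
    linear_combination (derivative (C γ * b) * (C γ * b)) * two_K (K := K)
  unfold fa
  rw [derivative_add, e1, derivative_mul, e2, derivative_X]
  ring

theorem sqf {γ : K} (hγ : γ ≠ 0) {b y : K[X]} (h : IsCoprime y b) : Squarefree (fa γ b y) := by
  have h1 : IsUnit (C γ : K[X]) := isUnit_C.2 (IsUnit.mk0 γ hγ)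
  have h2 : IsCoprime y (C γ * b) := (isCoprime_mul_unit_left_right h1 y b).2 h
  have h3 : IsCoprime (y ^ 2) ((C γ * b) ^ 2) := h2.pow
  have h4 : (fa γ b y).Separable := by
    unfold Polynomial.Separable
    rw [der_fa]
    unfold fa
    exact IsCoprime.add_mul_right_left h3 X
  exact h4.squarefree

omit [CharP K 2] in
theorem ph2_eq (γ : K) {h b y : K[X]} (hh : h.Monic) (hb : b.Monic) (hy : y.Monic) :
    ph2 h γ (h * b) y = phg γ b y := by
  unfold ph2 phg
  have e1 : y * (h * b) ^ 2 = (y * b ^ 2) * h ^ 2 := by ring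
  have e2 : X * (h ^ 2 * derivative y ^ 3) = (X * derivative y ^ 3) * h ^ 2 := by ring
  rw [e1, e2, lc_mul (hy.mul (hb.pow 2)) (hh.pow 2)]

omit [CharP K 2] in
/-- the greatest common divisor -/
theorem gcd_dat {b : K[X]} (hb : b.Monic) (a : K[X]) : ∃ h b₁ y₀ s t : K[X], h.Monic ∧ b₁.Monic ∧
    b = h * b₁ ∧ a = h * y₀ ∧ s * a + t * b = h := by
  obtain ⟨g, hg⟩ : ∃ g, g = EuclideanDomain.gcd a b := ⟨_, rfl⟩
  have hg0 : g ≠ 0 := by
    intro h0
    rw [hg] at h0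
    exact hb.ne_zero (EuclideanDomain.gcd_eq_zero_iff.1 h0).2
  have hbez := EuclideanDomain.gcd_eq_gcd_ab a b
  rw [← hg] at hbez
  have hlc : g.leadingCoeff ≠ 0 := leadingCoeff_ne_zero.2 hg0
  have hu : C g.leadingCoeff * C g.leadingCoeff⁻¹ = (1 : K[X]) := by
    rw [← C_mul, mul_inv_cancel₀ hlc, C_1]
  obtain ⟨a', ha'⟩ : g ∣ a := hg ▸ EuclideanDomain.gcd_dvd_left a b
  obtain ⟨b', hb'⟩ : g ∣ b := hg ▸ EuclideanDomain.gcd_dvd_right a b
  have hh : (g * C g.leadingCoeff⁻¹).Monic := monic_mul_leadingCoeff_inv hg0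
  have hbb : b = (g * C g.leadingCoeff⁻¹) * (C g.leadingCoeff * b') := by
    linear_combination hb' - g * b' * hu
  refine ⟨g * C g.leadingCoeff⁻¹, C g.leadingCoeff * b', C g.leadingCoeff * a',
    EuclideanDomain.gcdA a b * C g.leadingCoeff⁻¹, EuclideanDomain.gcdB a b * C g.leadingCoeff⁻¹,
    hh, ?_, hbb, ?_, ?_⟩
  · have : ((g * C g.leadingCoeff⁻¹) * (C g.leadingCoeff * b')).Monic := by
      rw [← hbb]
      exact hb
    exact hh.of_mul_monic_left this
  · linear_combination ha' - g * a' * hu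
  · linear_combination (-C g.leadingCoeff⁻¹) * hbez

/-- the value at one point -/
theorem one_pt {γ : K} (hγ : γ ≠ 0) {b h b₁ y₀ s t e c A z₀ z w : K[X]} (hb : b.Monic)
    (hh : h.Monic) (_hb₁ : b₁.Monic) (hbb : b = h * b₁) (hy₀ : A * z₀ + e = h * y₀)
    (hst : s * (A * z₀ + e) + t * b = h) (hc : c = e ^ 2 + X * (C γ * b) ^ 2)
    (hw : z - z₀ = b ^ 6 * w) :
    ∃ y : K[X], A * z + e = h * y ∧ b₁ ^ 5 ∣ y - y₀ ∧
      lio ((A * z) ^ 2 + c) = mob (fa γ b₁ y) := by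
  have hh0 : h ≠ 0 := hh.ne_zero
  subst hbb
  have e1 : A * z + e = h * (y₀ + A * (h * b₁) ^ 5 * b₁ * w) := by
    linear_combination A * hw + hy₀
  have hcop : IsCoprime (y₀ + A * (h * b₁) ^ 5 * b₁ * w) b₁ := by
    refine ⟨s, t - s * A * (h * b₁) ^ 5 * w, ?_⟩
    apply mul_left_cancel₀ hh0
    linear_combination hst - s * hy₀
  refine ⟨y₀ + A * (h * b₁) ^ 5 * b₁ * w, e1, ⟨A * h ^ 5 * b₁ * w, by ring⟩, ?_⟩
  have hsq := sqf hγ hcop
  rw [fa_eq γ (h * b₁) e c A z hc, e1, fa_mul, lio_sq hh0 hsq.ne_zero, lio_mob hsq]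

theorem main : S_parlasm := by
  intro hpar hphm K _ _ _ γ b e c A hγ hb hc hA
  refine ⟨e.natDegree + 6 * b.natDegree + 1, ?_⟩
  intro d D z₀ hd hD0 hbD
  obtain ⟨h, b₁, y₀, s, t, hh, hb₁, hbb, hy₀, hst⟩ := gcd_dat hb (A * z₀ + e)
  have hh0 : h ≠ 0 := hh.ne_zero
  obtain ⟨D', hD'⟩ := hbD
  obtain ⟨D₁, hD₁⟩ : ∃ D₁, D₁ = b₁ * b ^ 5 * A * D' := ⟨_, rfl⟩
  have hAD : A * D = h * D₁ := by
    rw [hD₁, hD']
    have : b ^ 6 = b ^ 5 * (h * b₁) := by rw [← hbb]; ring
    rw [this]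
    ring
  have hbD₁ : b ^ 5 ∣ D₁ := ⟨b₁ * A * D', by rw [hD₁]; ring⟩
  have hdegb : b.natDegree = h.natDegree + b₁.natDegree := by
    rw [hbb, hh.natDegree_mul hb₁]
  obtain ⟨χ, hχ1, hχ2, hχ⟩ := hphm K γ h b D₁ hγ hh hb hbD₁
  have hcop0 : IsCoprime y₀ b₁ := by
    refine ⟨s, t, ?_⟩
    apply mul_left_cancel₀ hh0
    linear_combination hst - s * hy₀ - t * hbb
  obtain ⟨η, hη, hmob⟩ := hpar K γ b₁ y₀ (d + A.natDegree - h.natDegree) hγ hb₁ hcop0 (by omega)
  refine ⟨χ, hχ1, hχ2, ?_⟩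
  intro z v hz hzd hbz hv
  -- one point
  have hpt : ∀ z : K[X], z.Monic → z.natDegree = d → b ^ 6 ∣ z - z₀ → ∃ y : K[X],
      A * z + e = h * y ∧ y.Monic ∧ (lio ((A * z) ^ 2 + c) : ℝ) = η * sg (phg γ b₁ y) := by
    rintro z hz hzd ⟨w, hw⟩
    obtain ⟨y, hy1, hy2, hy3⟩ := one_pt hγ hb hh hb₁ hbb hy₀ hst hc hw
    have hAz : (A * z).Monic := hA.mul hz
    have hAzd : (A * z).natDegree = A.natDegree + d := by rw [hA.natDegree_mul hz, hzd]
    have hlt : e.natDegree < (A * z).natDegree := by omega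
    have hm : (A * z + e).Monic := by
      refine hAz.add_of_left ?_
      exact degree_lt_degree hlt
    have hmd : (A * z + e).natDegree = A.natDegree + d := by
      rw [natDegree_add_eq_left_of_natDegree_lt hlt, hAzd]
    have hym : y.Monic := by
      rw [hy1] at hm
      exact hh.of_mul_monic_left hm
    have hyd : y.natDegree = d + A.natDegree - h.natDegree := by
      rw [hy1, hh.natDegree_mul hym] at hmd
      omega
    refine ⟨y, hy1, hym, ?_⟩
    rw [hy3]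
    exact hmob y hym hyd hy2
  have hDv : (D * v ^ 2).natDegree < z.natDegree := by
    rw [hzd]
    refine lt_of_le_of_lt natDegree_mul_le ?_
    have := natDegree_pow_le (p := v) (n := 2)
    omega
  have hz'm : (z + D * v ^ 2).Monic := hz.add_of_left (degree_lt_degree hDv)
  have hz'd : (z + D * v ^ 2).natDegree = d := by
    rw [natDegree_add_eq_left_of_natDegree_lt hDv, hzd]
  have hbz' : b ^ 6 ∣ z + D * v ^ 2 - z₀ := by
    have : z + D * v ^ 2 - z₀ = (z - z₀) + b ^ 6 * (D' * v ^ 2) := by rw [hD']; ring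
    rw [this]
    exact dvd_add hbz (Dvd.intro _ rfl)
  obtain ⟨y, hy1, hym, hy2⟩ := hpt z hz hzd hbz
  obtain ⟨y', hy'1, hy'm, hy'2⟩ := hpt _ hz'm hz'd hbz'
  have hyy : y' = y + D₁ * v ^ 2 := by
    apply mul_left_cancel₀ hh0
    linear_combination (-1 : K[X]) * hy'1 + hy1 + v ^ 2 * hAD
  have hph := hχ y v hym (by rw [← hyy]; exact hy'm)
  rw [← hyy, ← hy1, ← hy'1, hbb, ph2_eq γ hh hb₁ hy'm, ph2_eq γ hh hb₁ hym, ← hbb] at hph
  rw [hy2, hy'2]
  have q1 := sg_mul_self (phg γ b (A * z + e))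
  have q2 := sg_mul_self (phg γ b₁ y')
  linear_combination (η * sg (phg γ b₁ y') * sg (phg γ b (A * z + e))) * hph -
    (η * sg (phg γ b₁ y') * sg (phg γ b (A * (z + D * v ^ 2) + e))) * q1 +
    (η * χ v * sg (phg γ b₁ y) * sg (phg γ b (A * z + e))) * q2

end

end Pool.Agent.H526.PE.ParlAsm
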