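import Pool.Agent.H526.PE.Stm
import Pool.Agent.H604.LD.FinM
import Pool.Agent.H985.Chow.RT
import Pool.Agent.H985.KP.Loc2

/-!
# Task TIIM: two fixed multipliers (helper825, for helper526)
-/

set_option autoImplicit false
set_option linter.unusedSectionVars false

namespace Pool.Agent.H526.PE.TiimAsm

open Polynomial
open scoped Classical ComplexConjugate
open Pool.Agent.H985.Chow (mob lc)
open Pool.Agent.H985.Chow.RT (lc_mul)
open Pool.Agent.H985.KP (sg)
open Pool.Agent.H985.KP.Loc2 (sg_pm sg_abs sg_mul_self)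
open Pool.Agent.H694.Typ (Mn mem_Mn)
open Pool.Agent.H604.LD (fa phg phP om p1 rf bB bt)
open Pool.Agent.H526.PQ (S_phm ph2)

section

variable {K : Type} [Field K]

/-- the phase with the multiplier -/
theorem ph2_self {γ : K} {A b y : K[X]} (hA : A.Monic) (hb : b.Monic) (hy : y.Monic) :
    ph2 A γ (A * b) y = phg γ b y := by
  unfold ph2 phg
  have e1 : X * (A ^ 2 * derivative y ^ 3) = (X * derivative y ^ 3) * A ^ 2 := by ring
  have e2 : y * (A * b) ^ 2 = (y * b ^ 2) * A ^ 2 := by ring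
  rw [e1, e2, lc_mul (hy.mul (hb.pow 2)) (hA.pow 2)]

theorem monic_add_fib {z D v : K[X]} (hz : z.Monic) (h : D.natDegree + 2 * v.natDegree < z.natDegree) :
    (z + D * v ^ 2).Monic := by
  have hlt : (D * v ^ 2).natDegree < z.natDegree :=
    lt_of_le_of_lt (natDegree_mul_le.trans (add_le_add le_rfl natDegree_pow_le)) h
  refine hz.add_of_left ?_
  rcases eq_or_ne (D * v ^ 2) 0 with h0 | h0
  · rw [h0, degree_zero]
    exact bot_lt_iff_ne_bot.2 (fun h => hz.ne_zero (degree_eq_bot.1 h))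
  · rw [degree_eq_natDegree h0, degree_eq_natDegree hz.ne_zero]
    exact_mod_cast hlt

theorem monic_add_e {z A e : K[X]} (hA : A.Monic) (hz : z.Monic) (h : e.natDegree < z.natDegree) :
    (A * z + e).Monic ∧ (A * z + e).natDegree = A.natDegree + z.natDegree := by
  have h1 : (A * z).natDegree = A.natDegree + z.natDegree := hA.natDegree_mul hz
  have hlt : e.natDegree < (A * z).natDegree := by omega
  have hlt' : e.degree < (A * z).degree := by
    rcases eq_or_ne e 0 with h0 | h0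
    · rw [h0, degree_zero]
      exact bot_lt_iff_ne_bot.2 (fun h => (hA.mul hz).ne_zero (degree_eq_bot.1 h))
    · rw [degree_eq_natDegree h0, degree_eq_natDegree (hA.mul hz).ne_zero]
      exact_mod_cast hlt
  exact ⟨(hA.mul hz).add_of_left hlt', by rw [natDegree_add_eq_left_of_degree_lt hlt', h1]⟩

end

/-- one factor on a fibre -/
theorem factor (hparl : S_parl) (hphm : S_phm) (K : Type) [Field K] [Fintype K] [CharP K 2] (γ : K)
    (b e c A B : K[X]) (hγ : γ ≠ 0) (hb : b.Monic) (hc : c = e ^ 2 + X * (C γ * b) ^ 2)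
    (hA : A.Monic) (hB : B.Monic) : ∃ N : ℕ, ∀ (d : ℕ) (D z : K[X]), N ≤ d → D.Monic → z.Monic →
      z.natDegree = d → b ^ 6 ∣ D → (B * b) ^ 5 ∣ D →
      ∃ χ : K[X] → ℝ, (∀ v, χ v = 1 ∨ χ v = -1) ∧ (∀ v w, χ (v + w) = χ v * χ w) ∧
        ∀ v : K[X], D.natDegree + 2 * v.natDegree < d →
          (lio ((A * (z + D * v ^ 2)) ^ 2 + c) : ℝ) *
              sg (phg γ (B * b) (B * (A * (z + D * v ^ 2) + e))) =
            χ v * ((lio ((A * z) ^ 2 + c) : ℝ) * sg (phg γ (B * b) (B * (A * z + e)))) := by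
  obtain ⟨N, hN⟩ := hparl K γ b e c A hγ hb hc hA
  refine ⟨max N (e.natDegree + 1), ?_⟩
  intro d D z hd hD hz hzd hbD hBD
  have hd1 : N ≤ d := (le_max_left _ _).trans hd
  have hd2 : e.natDegree < z.natDegree := by
    have := (le_max_right N (e.natDegree + 1)).trans hd
    omega
  obtain ⟨χ₁, h1pm, h1m, h1⟩ := hN d D z hd1 hD.ne_zero hbD
  obtain ⟨χ₂, h2pm, h2m, h2⟩ := hphm K γ B (B * b) (A * D) hγ hB (hB.mul hb)
    (Dvd.dvd.mul_left hBD A)
  refine ⟨fun v => χ₁ v * χ₂ v, ?_, ?_, ?_⟩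
  · intro v
    change χ₁ v * χ₂ v = 1 ∨ χ₁ v * χ₂ v = -1
    rcases h1pm v with h | h <;> rcases h2pm v with h' | h' <;> rw [h, h'] <;> norm_num
  · intro v w
    change χ₁ (v + w) * χ₂ (v + w) = χ₁ v * χ₂ v * (χ₁ w * χ₂ w)
    rw [h1m, h2m]
    ring
  · intro v hv
    change _ = χ₁ v * χ₂ v * _
    have hy0 := monic_add_e hA hz hd2
    have e1 : A * (z + D * v ^ 2) + e = (A * z + e) + A * D * v ^ 2 := by ring
    have hAD : (A * D).natDegree = A.natDegree + D.natDegree := hA.natDegree_mul hD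
    have hy1 : ((A * z + e) + A * D * v ^ 2).Monic := by
      refine monic_add_fib hy0.1 ?_
      rw [hy0.2, hAD]
      omega
    have k1 := h1 z v hz hzd (by rw [sub_self]; exact dvd_zero _) hv
    have k2 := h2 (A * z + e) v hy0.1 hy1
    rw [ph2_self hB hb hy1, ph2_self hB hb hy0.1] at k2
    rw [e1] at k1 ⊢
    have s1 := sg_mul_self (phg γ b (A * z + e + A * D * v ^ 2))
    have s2 := sg_mul_self (phg γ b (A * z + e))
    have s3 := sg_mul_self (phg γ (B * b) (B * (A * z + e)))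
    set l1 : ℝ := (lio ((A * (z + D * v ^ 2)) ^ 2 + c) : ℝ)
    set l0 : ℝ := (lio ((A * z) ^ 2 + c) : ℝ)
    set u1 := sg (phg γ b (A * z + e + A * D * v ^ 2))
    set u0 := sg (phg γ b (A * z + e))
    set w1 := sg (phg γ (B * b) (B * (A * z + e + A * D * v ^ 2)))
    set w0 := sg (phg γ (B * b) (B * (A * z + e)))
    -- `k1 : l1 * u1 = χ₁ v * (l0 * u0)`, `k2 : w1 * w0 = χ₂ v * (u1 * u0)`
    linear_combination (l1 * w0) * k2 + (χ₂ v * u0 * w0) * k1 - (l1 * w1) * s3 +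
      (χ₁ v * χ₂ v * l0 * w0) * s2

/-! ### the doubled system -/

section dbl

open Pool.Agent.H604.LD.FINM (rf_ne rf_inj rf_add rf_mul rf_pow rf_sum inv_eq bB_ne two0)

variable {K : Type} [Field K] [Fintype K] [CharP K 2] {n : ℕ}

theorem sumA {γ : Fin n → K} {b : Fin n → K[X]} (hγ : ∀ i, γ i ≠ 0) (hb : ∀ i, (b i).Monic) :
    ∑ i, 1 / rf (C (γ i) * b i) = rf (om γ b) / rf (bB γ b) := by
  rw [om, rf_sum, Finset.sum_div]
  exact Finset.sum_congr rfl fun i _ => inv_eq hγ hb i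

theorem sumB {γ : Fin n → K} {b e : Fin n → K[X]} (hγ : ∀ i, γ i ≠ 0) (hb : ∀ i, (b i).Monic) :
    ∑ i, rf (e i) * (1 / rf (C (γ i) * b i)) ^ 2 = rf (p1 γ b e) / rf (bB γ b) ^ 2 := by
  rw [p1, rf_sum, Finset.sum_div]
  refine Finset.sum_congr rfl fun i _ => ?_
  rw [inv_eq hγ hb i, rf_mul, rf_pow, div_pow]
  ring

/-- the doubled data -/
noncomputable def b2 (A₁ A₂ : K[X]) (b : Fin n → K[X]) : Fin (n + n) → K[X] :=
  Fin.append (fun i => A₂ * b i) (fun i => A₁ * b i)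

theorem b2_monic {A₁ A₂ : K[X]} {b : Fin n → K[X]} (h1 : A₁.Monic) (h2 : A₂.Monic)
    (hb : ∀ i, (b i).Monic) : ∀ i, (b2 A₁ A₂ b i).Monic := by
  intro i
  unfold b2
  refine Fin.addCases (fun j => ?_) (fun j => ?_) i
  · rw [Fin.append_left]
    exact h2.mul (hb j)
  · rw [Fin.append_right]
    exact h1.mul (hb j)

theorem g2_ne {γ : Fin n → K} (hγ : ∀ i, γ i ≠ 0) : ∀ i, (Fin.append γ γ) i ≠ 0 := by
  intro i
  refine Fin.addCases (fun j => ?_) (fun j => ?_) i
  · rw [Fin.append_left]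
    exact hγ j
  · rw [Fin.append_right]
    exact hγ j

theorem nondeg {γ : Fin n → K} {b e : Fin n → K[X]} (hγ : ∀ i, γ i ≠ 0) (hb : ∀ i, (b i).Monic)
    {A₁ A₂ : K[X]} (h1 : A₁.Monic) (h2 : A₂.Monic) (hne : A₁ ≠ A₂)
    (h : om γ b ≠ 0 ∨ p1 γ b e ≠ 0) :
    om (Fin.append γ γ) (b2 A₁ A₂ b) ≠ 0 ∨ p1 (Fin.append γ γ) (b2 A₁ A₂ b) (b2 A₁ A₂ e) ≠ 0 := by
  have hr1 : rf A₁ ≠ 0 := rf_ne h1.ne_zero
  have hr2 : rf A₂ ≠ 0 := rf_ne h2.ne_zero
  have hB := rf_ne (bB_ne hγ hb)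
  have hB2 := rf_ne (bB_ne (g2_ne hγ) (b2_monic h1 h2 hb))
  have hA : 1 / rf A₂ + 1 / rf A₁ ≠ 0 := by
    intro h0
    have h3 : rf (A₁ + A₂) = 0 := by
      rw [rf_add]
      field_simp at h0
      rw [mul_zero] at h0
      exact h0
    have h4 := rf_inj h3
    apply hne
    have h5 := two0 (K := K)
    linear_combination h4 - A₂ * h5
  have hsum1 : rf (om (Fin.append γ γ) (b2 A₁ A₂ b)) / rf (bB (Fin.append γ γ) (b2 A₁ A₂ b)) =
      (1 / rf A₂ + 1 / rf A₁) * (rf (om γ b) / rf (bB γ b)) := by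
    rw [← sumA (g2_ne hγ) (b2_monic h1 h2 hb), ← sumA hγ hb, Fin.sum_univ_add, add_mul,
      Finset.mul_sum, Finset.mul_sum]
    unfold b2
    simp only [Fin.append_left, Fin.append_right]
    refine congrArg₂ (· + ·) (Finset.sum_congr rfl fun i _ => ?_) (Finset.sum_congr rfl fun i _ => ?_)
    · have e1 : C (γ i) * (A₂ * b i) = A₂ * (C (γ i) * b i) := by ring
      rw [e1, rf_mul, one_div_mul_one_div]
    · have e1 : C (γ i) * (A₁ * b i) = A₁ * (C (γ i) * b i) := by ring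
      rw [e1, rf_mul, one_div_mul_one_div]
  have hsum2 : rf (p1 (Fin.append γ γ) (b2 A₁ A₂ b) (b2 A₁ A₂ e)) /
      rf (bB (Fin.append γ γ) (b2 A₁ A₂ b)) ^ 2 =
      (1 / rf A₂ + 1 / rf A₁) * (rf (p1 γ b e) / rf (bB γ b) ^ 2) := by
    rw [← sumB (g2_ne hγ) (b2_monic h1 h2 hb), ← sumB hγ hb, Fin.sum_univ_add, add_mul,
      Finset.mul_sum, Finset.mul_sum]
    unfold b2
    simp only [Fin.append_left, Fin.append_right]
    refine congrArg₂ (· + ·) (Finset.sum_congr rfl fun i _ => ?_) (Finset.sum_congr rfl fun i _ => ?_)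
    · have e1 : C (γ i) * (A₂ * b i) = A₂ * (C (γ i) * b i) := by ring
      have h3 := rf_ne (Pool.Agent.H604.LD.FINM.y_ne hγ hb i)
      rw [e1, rf_mul, rf_mul]
      field_simp
    · have e1 : C (γ i) * (A₁ * b i) = A₁ * (C (γ i) * b i) := by ring
      have h3 := rf_ne (Pool.Agent.H604.LD.FINM.y_ne hγ hb i)
      rw [e1, rf_mul, rf_mul]
      field_simp
  have hz : rf (0 : K[X]) = 0 := map_zero _
  rcases h with h | h
  · left
    intro h0
    rw [h0, hz, zero_div] at hsum1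
    exact mul_ne_zero hA (div_ne_zero (rf_ne h) hB) hsum1.symm
  · right
    intro h0
    rw [h0, hz, zero_div] at hsum2
    exact mul_ne_zero hA (div_ne_zero (rf_ne h) (pow_ne_zero 2 hB)) hsum2.symm

theorem phP_b2 (γ : Fin n → K) (b e : Fin n → K[X]) (A₁ A₂ a : K[X]) :
    phP (Fin.append γ γ) (b2 A₁ A₂ b) (b2 A₁ A₂ e) a =
      (∏ i, sg (phg (γ i) (A₂ * b i) (a + A₂ * e i))) *
        ∏ i, sg (phg (γ i) (A₁ * b i) (a + A₁ * e i)) := by
  unfold phP b2
  rw [Fin.prod_univ_add]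
  simp only [Fin.append_left, Fin.append_right]

theorem phP_sq (γ : Fin n → K) (b e : Fin n → K[X]) (a : K[X]) :
    phP γ b e a * phP γ b e a = 1 := by
  unfold phP
  rw [← Finset.prod_mul_distrib]
  exact Finset.prod_eq_one fun i _ => sg_mul_self _

/-! ### residue classes -/

/-- the monic polynomials in a residue class -/
theorem sum_class' {d L : ℕ} {D r r' : K[X]} (hD : D.Monic) (hr' : r'.Monic)
    (hd : r'.natDegree = d) (hrr : D ∣ r' - r) (hL : D.natDegree + L = d) (f : K[X] → ℂ) :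
    ∑ a ∈ (Mn K d).filter (fun a => D ∣ a - r), f a =
      ∑ᶠ c ∈ {c : K[X] | c.degree < (L : WithBot ℕ)}, f (r' + D * c) := by
  have hdeg : ∀ c : K[X], c.degree < (L : WithBot ℕ) → (D * c).degree < r'.degree := by
    intro c hc
    by_cases h0 : c = 0
    · rw [h0, mul_zero, degree_zero, degree_eq_natDegree hr'.ne_zero]
      exact WithBot.bot_lt_coe _
    · have h1 : c.natDegree < L := (natDegree_lt_iff_degree_lt h0).2 hc
      rw [degree_eq_natDegree hr'.ne_zero, degree_eq_natDegree (mul_ne_zero hD.ne_zero h0),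
        natDegree_mul hD.ne_zero h0, hd]
      have : D.natDegree + c.natDegree < d := by omega
      exact_mod_cast this
  have himg : ((Mn K d).filter (fun a => D ∣ a - r) : Finset K[X]) =
      (fun c => r' + D * c) '' {c : K[X] | c.degree < (L : WithBot ℕ)} := by
    ext a
    rw [Finset.mem_coe, Finset.mem_filter, mem_Mn, Set.mem_image]
    constructor
    · rintro ⟨⟨ha, had⟩, har⟩
      have h1 : D ∣ a - r' := by
        have : a - r' = (a - r) - (r' - r) := by ring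
        rw [this]
        exact dvd_sub har hrr
      obtain ⟨c, hc⟩ := h1
      refine ⟨c, ?_, ?_⟩
      · change c.degree < (L : WithBot ℕ)
        by_cases h0 : c = 0
        · rw [h0, degree_zero]
          exact WithBot.bot_lt_coe _
        · have h2 : (a - r').degree < a.degree := by
            refine degree_sub_lt_left ?_ ha.ne_zero ?_
            · rw [degree_eq_natDegree ha.ne_zero, degree_eq_natDegree hr'.ne_zero, had, hd]
            · rw [ha.leadingCoeff, hr'.leadingCoeff]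
          rw [hc, degree_eq_natDegree (mul_ne_zero hD.ne_zero h0),
            degree_eq_natDegree ha.ne_zero, natDegree_mul hD.ne_zero h0, had] at h2
          have h3 : D.natDegree + c.natDegree < d := by exact_mod_cast h2
          rw [degree_eq_natDegree h0]
          have : c.natDegree < L := by omega
          exact_mod_cast this
      · rw [← hc]
        ring
    · rintro ⟨c, hc, rfl⟩
      have h1 := hdeg c hc
      refine ⟨⟨hr'.add_of_left h1, ?_⟩, ?_⟩
      · rw [natDegree_add_eq_left_of_degree_lt h1, hd]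
      · have : r' + D * c - r = (r' - r) + D * c := by ring
        rw [this]
        exact dvd_add hrr (dvd_mul_right _ _)
  rw [← finsum_mem_coe_finset, himg, finsum_mem_image]
  intro c _ c' _ hcc
  exact mul_left_cancel₀ hD.ne_zero (add_left_cancel hcc)

/-- a bound for the sum over all classes -/
theorem sum_bound {d L : ℕ} {D : K[X]} (hD : D.Monic) (hL : D.natDegree + L = d) (f : K[X] → ℂ)
    (E : ℝ) (hE : ∀ r : K[X], r.Monic → r.natDegree = d →
      ‖∑ᶠ c ∈ {c : K[X] | c.degree < (L : WithBot ℕ)}, f (r + D * c)‖ ≤ E) :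
    ‖∑ a ∈ Mn K d, f a‖ ≤ (Fintype.card K : ℝ) ^ D.natDegree * E := by
  have h1 : ∑ a ∈ Mn K d, f a =
      ∑ ρ ∈ (Mn K d).image (fun a => a %ₘ D), ∑ a ∈ (Mn K d).filter (fun a => a %ₘ D = ρ), f a :=
    (Finset.sum_fiberwise_of_maps_to (fun a ha => Finset.mem_image_of_mem _ ha) f).symm
  rw [h1]
  have h2 : ∀ ρ ∈ (Mn K d).image (fun a => a %ₘ D),
      ‖∑ a ∈ (Mn K d).filter (fun a => a %ₘ D = ρ), f a‖ ≤ E := by
    intro ρ hρ
    obtain ⟨r, hr, rfl⟩ := Finset.mem_image.mp hρ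
    obtain ⟨hr1, hr2⟩ := mem_Mn.mp hr
    have h3 : (Mn K d).filter (fun a => a %ₘ D = r %ₘ D) =
        (Mn K d).filter (fun a => D ∣ a - r) := by
      refine Finset.filter_congr fun a _ => ?_
      rw [← modByMonic_eq_zero_iff_dvd hD, sub_modByMonic, sub_eq_zero]
    rw [h3, sum_class' hD hr1 hr2 (by rw [sub_self]; exact dvd_zero _) hL f]
    exact hE r hr1 hr2
  have hcard : ((Mn K d).image (fun a => a %ₘ D)).card ≤ Fintype.card K ^ D.natDegree := by
    have h4 : ((Mn K d).image (fun a => a %ₘ D)).card ≤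
        (Finset.univ : Finset (Fin D.natDegree → K)).card := by
      refine Finset.card_le_card_of_injOn (fun ρ i => ρ.coeff i) (fun _ _ => Finset.mem_coe.mpr (Finset.mem_univ _)) ?_
      intro ρ hρ σ hσ h
      obtain ⟨r, -, rfl⟩ := Finset.mem_image.mp (Finset.mem_coe.mp hρ)
      obtain ⟨t, -, rfl⟩ := Finset.mem_image.mp (Finset.mem_coe.mp hσ)
      ext i
      by_cases hi : i < D.natDegree
      · exact congrFun h ⟨i, hi⟩
      · have h5 : ∀ x : K[X], (x %ₘ D).coeff i = 0 := by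
          intro x
          refine coeff_eq_zero_of_degree_lt ?_
          refine (degree_modByMonic_lt x hD).trans_le ?_
          rw [degree_eq_natDegree hD.ne_zero]
          exact_mod_cast not_lt.mp hi
        rw [h5, h5]
    rwa [Finset.card_univ, Fintype.card_fun, Fintype.card_fin] at h4
  have hE0 : 0 ≤ E := by
    by_cases hne : (Mn K d).Nonempty
    · obtain ⟨r, hr⟩ := hne
      obtain ⟨hr1, hr2⟩ := mem_Mn.mp hr
      exact (norm_nonneg _).trans (hE r hr1 hr2)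
    · have h6 : (X ^ d : K[X]) ∈ Mn K d := mem_Mn.mpr ⟨monic_X_pow d, natDegree_X_pow d⟩
      exact absurd ⟨_, h6⟩ hne
  refine (norm_sum_le _ _).trans ((Finset.sum_le_sum h2).trans ?_)
  rw [Finset.sum_const, nsmul_eq_mul]
  refine mul_le_mul_of_nonneg_right ?_ hE0
  exact_mod_cast hcard

end dbl

/-! ### the theorem -/

theorem ph_mono (hphl : S_phl) {G : Type} [AddCommGroup G] {P : G → ℂ} {k l : ℕ} (hkl : k ≤ l)
    (h : Ph k P) : Ph l P := by
  obtain ⟨-, -, h3, -⟩ := hphl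
  induction hkl with
  | refl => exact h
  | step _ ih => exact h3 G _ P ih

theorem lio_abs {K : Type} [Field K] (F : K[X]) : |(lio F : ℝ)| ≤ 1 := by
  unfold lio
  split
  · simp
  · rw [Int.cast_pow, abs_pow]
    simp

theorem main : S_tiimasm := by
  intro hw hparl hphm hphl K _ _ _ n γ b e c hD hnd A₁ A₂ hA₁ hA₂ hne s ε hε
  obtain ⟨hγ, hb, hc⟩ := hD
  obtain ⟨q, hq⟩ : ∃ q : ℝ, q = Fintype.card K := ⟨_, rfl⟩
  have hq2 : 2 ≤ q := by
    rw [hq]
    have : 1 < Fintype.card K := Fintype.one_lt_card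
    exact_mod_cast this
  have hq0 : 0 < q := by linarith
  have hq1 : 1 < q := by linarith
  obtain ⟨κ0, θ, hκ0, hθ, dw, hwe⟩ := hw K (n + n) (Fin.append γ γ) (b2 A₁ A₂ b) (b2 A₁ A₂ e)
    (1 / 2) (max s 2) (g2_ne hγ) (b2_monic hA₁ hA₂ hb) (nondeg hγ hb hA₁ hA₂ hne hnd) (by norm_num)
  choose N₁ hN₁ using fun i => factor hparl hphm K (γ i) (b i) (e i) (c i) A₁ A₂ (hγ i) (hb i)
    (hc i) hA₁ hA₂
  choose N₂ hN₂ using fun i => factor hparl hphm K (γ i) (b i) (e i) (c i) A₂ A₁ (hγ i) (hb i)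
    (hc i) hA₂ hA₁
  obtain ⟨A, hA⟩ : ∃ A : K[X], A = A₁ * A₂ := ⟨_, rfl⟩
  have hAm : A.Monic := by rw [hA]; exact hA₁.mul hA₂
  obtain ⟨D₀, hD₀⟩ : ∃ D₀ : K[X], D₀ = (A * ∏ i, b i) ^ 6 := ⟨_, rfl⟩
  have hD₀m : D₀.Monic := by
    rw [hD₀]
    exact (hAm.mul (monic_prod_of_monic _ _ fun i _ => hb i)).pow 6
  have hbD₀ : ∀ i, b i ^ 6 ∣ D₀ := fun i => by
    rw [hD₀]
    exact pow_dvd_pow_of_dvd
      (dvd_mul_of_dvd_right (Finset.dvd_prod_of_mem b (Finset.mem_univ i)) A) 6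
  have hA₂D₀ : ∀ i, (A₂ * b i) ^ 5 ∣ D₀ := fun i => by
    rw [hD₀]
    refine (pow_dvd_pow _ (by norm_num : 5 ≤ 6)).trans (pow_dvd_pow_of_dvd ?_ 6)
    refine mul_dvd_mul ?_ (Finset.dvd_prod_of_mem b (Finset.mem_univ i))
    rw [hA]
    exact dvd_mul_left _ _
  have hA₁D₀ : ∀ i, (A₁ * b i) ^ 5 ∣ D₀ := fun i => by
    rw [hD₀]
    refine (pow_dvd_pow _ (by norm_num : 5 ≤ 6)).trans (pow_dvd_pow_of_dvd ?_ 6)
    refine mul_dvd_mul ?_ (Finset.dvd_prod_of_mem b (Finset.mem_univ i))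
    rw [hA]
    exact dvd_mul_right _ _
  have hqk : q ^ (-κ0) < 1 := Real.rpow_lt_one_of_one_lt_of_neg hq1 (by linarith)
  have hqk0 : 0 < q ^ (-κ0) := Real.rpow_pos_of_pos hq0 _
  obtain ⟨M, hM⟩ : ∃ M : ℕ, (q ^ (-κ0)) ^ M < ε / q ^ D₀.natDegree :=
    exists_pow_lt_of_lt_one (by positivity) hqk
  refine ⟨dw + ∑ i, N₁ i + ∑ i, N₂ i + A.natDegree + 2 * D₀.natDegree + M, fun d hd P hP => ?_⟩
  have hsN₁ : ∀ i, N₁ i ≤ d := fun i => by
    have := Finset.single_le_sum (f := N₁) (fun _ _ => Nat.zero_le _) (Finset.mem_univ i)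
    omega
  have hsN₂ : ∀ i, N₂ i ≤ d := fun i => by
    have := Finset.single_le_sum (f := N₂) (fun _ _ => Nat.zero_le _) (Finset.mem_univ i)
    omega
  obtain ⟨L, hL⟩ : ∃ L, D₀.natDegree + L = d := ⟨d - D₀.natDegree, by omega⟩
  obtain ⟨Φ, hΦ⟩ : ∃ Φ : K[X] → ℝ, ∀ z, Φ z =
      (∏ i, ((lio ((A₁ * z) ^ 2 + c i) : ℝ) * sg (phg (γ i) (A₂ * b i) (A₂ * (A₁ * z + e i))))) *
      ∏ i, ((lio ((A₂ * z) ^ 2 + c i) : ℝ) * sg (phg (γ i) (A₁ * b i) (A₁ * (A₂ * z + e i)))) :=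
    ⟨fun z => _, fun z => rfl⟩
  obtain ⟨ψ, hψ⟩ : ∃ ψ : K[X] → ℂ, ∀ z, ψ (A * z) = P z * (Φ z : ℂ) :=
    ⟨fun a => P (a /ₘ A) * (Φ (a /ₘ A) : ℂ), fun z => by
      simp only [mul_divByMonic_cancel_left _ hAm]⟩
  have hval : ∀ z, ψ (A * z) *
      (phP (Fin.append γ γ) (b2 A₁ A₂ b) (b2 A₁ A₂ e) (A * z) : ℂ) =
      P z * ((lam c A₁ z * lam c A₂ z : ℝ) : ℂ) := by
    intro z
    have h1 : Φ z = lam c A₁ z * lam c A₂ z *
        phP (Fin.append γ γ) (b2 A₁ A₂ b) (b2 A₁ A₂ e) (A * z) := by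
      rw [phP_b2, hΦ]
      unfold lam
      have e1 : ∀ i, A * z + A₂ * e i = A₂ * (A₁ * z + e i) := fun i => by rw [hA]; ring
      have e2 : ∀ i, A * z + A₁ * e i = A₁ * (A₂ * z + e i) := fun i => by rw [hA]; ring
      simp only [e1, e2, Finset.prod_mul_distrib]
      ring
    have h2 := phP_sq (Fin.append γ γ) (b2 A₁ A₂ b) (b2 A₁ A₂ e) (A * z)
    rw [hψ, h1, mul_assoc, ← Complex.ofReal_mul, mul_assoc (lam c A₁ z * lam c A₂ z), h2, mul_one]
  have hΦ1 : ∀ z, |Φ z| ≤ 1 := by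
    intro z
    rw [hΦ, abs_mul, Finset.abs_prod, Finset.abs_prod]
    have h1 : ∀ (f : Fin n → ℝ), (∀ i, |f i| ≤ 1) → ∏ i, |f i| ≤ 1 := fun f hf =>
      Finset.prod_le_one (fun _ _ => abs_nonneg _) fun i _ => hf i
    refine mul_le_one₀ (h1 _ fun i => ?_) (Finset.prod_nonneg fun _ _ => abs_nonneg _)
      (h1 _ fun i => ?_)
    · rw [abs_mul, sg_abs, mul_one]
      exact lio_abs _
    · rw [abs_mul, sg_abs, mul_one]
      exact lio_abs _
  have hclass : ∀ r : K[X], r.Monic → r.natDegree = d →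
      ‖∑ᶠ c' ∈ {c' : K[X] | c'.degree < (L : WithBot ℕ)},
        P (r + D₀ * c') * ((lam c A₁ (r + D₀ * c') * lam c A₂ (r + D₀ * c') : ℝ) : ℂ)‖ ≤
        q ^ ((L : ℝ) - κ0 * ((A.natDegree + d : ℕ) : ℝ)) := by
    intro r hr hrd
    have hdeg : (A * D₀).natDegree + L = A.natDegree + d := by
      rw [hAm.natDegree_mul hD₀m]
      omega
    have h1 := hwe (A.natDegree + d) L (A * D₀) (A * r) ψ (by omega) (hAm.mul hD₀m) (hAm.mul hr)
      (by rw [hAm.natDegree_mul hr, hrd]) ?_ hdeg.le ?_ ?_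
    · rw [← hq] at h1
      refine le_trans (le_of_eq (congrArg norm ?_)) h1
      refine finsum_mem_congr rfl fun c' _ => ?_
      have e1 : A * r + A * D₀ * c' = A * (r + D₀ * c') := by ring
      rw [e1, hval]
    · have h2 : A.natDegree + d ≤ 2 * L := by omega
      have h3 : ((A.natDegree + d : ℕ) : ℝ) ≤ 2 * L := by exact_mod_cast h2
      linarith
    · have h2 : ((A.natDegree + d : ℕ) : ℝ) = (A * D₀).natDegree + L := by
        rw [← hdeg]
        push_cast
        ring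
      have h3 : 0 ≤ θ * ((A.natDegree + d : ℕ) : ℝ) := by positivity
      linarith
    · intro D' z' hdvd hD'm hz'm hz'd hz'r
      obtain ⟨Q, hQ⟩ := hdvd
      obtain ⟨w, hw'⟩ := hz'r
      obtain ⟨z, hz⟩ : ∃ z, z = r + D₀ * w := ⟨_, rfl⟩
      have hz' : z' = A * z := by
        rw [hz]
        linear_combination hw'
      have hzm : z.Monic := hAm.of_mul_monic_left (by rw [← hz']; exact hz'm)
      have hzd : z.natDegree = d := by
        rw [hz', hAm.natDegree_mul hzm] at hz'd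
        omega
      obtain ⟨E, hE⟩ : ∃ E, E = D₀ * Q := ⟨_, rfl⟩
      have hD' : D' = A * E := by rw [hQ, hE]; ring
      have hEm : E.Monic := hAm.of_mul_monic_left (by rw [← hD']; exact hD'm)
      have hEd : D'.natDegree = A.natDegree + E.natDegree := by rw [hD', hAm.natDegree_mul hEm]
      have hDE : D₀ ∣ E := by rw [hE]; exact dvd_mul_right _ _
      choose χ₁ pm₁ mu₁ eq₁ using fun i => hN₁ i d E z (hsN₁ i) hEm hzm hzd
        ((hbD₀ i).trans hDE) ((hA₂D₀ i).trans hDE)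
      choose χ₂ pm₂ mu₂ eq₂ using fun i => hN₂ i d E z (hsN₂ i) hEm hzm hzd
        ((hbD₀ i).trans hDE) ((hA₁D₀ i).trans hDE)
      have hpm : ∀ (f : Fin n → ℝ), (∀ i, f i = 1 ∨ f i = -1) → ∏ i, f i = 1 ∨ ∏ i, f i = -1 := by
        intro f hf
        have h3 : |∏ i, f i| = 1 := by
          rw [Finset.abs_prod]
          refine Finset.prod_eq_one fun i _ => ?_
          rcases hf i with h | h <;> rw [h] <;> norm_num
        rcases abs_choice (∏ i, f i) with h | h
        · left; rw [← h, h3]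
        · right; linarith [h, h3]
      obtain ⟨Y, hY⟩ : ∃ Y : K[X] → ℝ, ∀ v, Y v = (∏ i, χ₁ i v) * ∏ i, χ₂ i v :=
        ⟨fun v => _, fun v => rfl⟩
      have hYpm : ∀ v, Y v = 1 ∨ Y v = -1 := by
        intro v
        rw [hY]
        rcases hpm _ (fun i => pm₁ i v) with h | h <;> rcases hpm _ (fun i => pm₂ i v) with h' | h' <;>
          rw [h, h'] <;> norm_num
      have hYmul : ∀ v w, Y (v + w) = Y v * Y w := by
        intro v w
        rw [hY, hY, hY]
        simp only [mu₁, mu₂, Finset.prod_mul_distrib]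
        ring
      have hfib : ∀ v : K[X], E.natDegree + 2 * v.natDegree < d →
          Φ (z + E * v ^ 2) = Y v * Φ z := by
        intro v hv
        rw [hΦ, hΦ, hY]
        rw [Finset.prod_congr rfl fun i _ => eq₁ i v hv, Finset.prod_congr rfl fun i _ => eq₂ i v hv]
        simp only [Finset.prod_mul_distrib]
        ring
      have hφadd : ∀ v w : K[X], E * (v + w) ^ 2 = E * v ^ 2 + E * w ^ 2 := by
        intro v w
        rw [Pool.Agent.H604.LD.FINM.add_sq', mul_add]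
      refine ⟨(Φ z : ℂ), fun v => P (z + E * v ^ 2) * (Y v : ℂ), ?_, ?_, ?_⟩
      · rw [Complex.norm_real]
        exact hΦ1 z
      · have hP' : Ph (max s 2) P := ph_mono hphl (le_max_left _ _) hP
        have h4 : Ph (max s 2) (fun v => P (z + (AddMonoidHom.mk' (fun v : K[X] => E * v ^ 2) hφadd) v)) :=
          hphl.2.2.2.1 K[X] K[X] (max s 2) P _ z hP'
        have h5 : Ph (max s 2) (fun v => (Y v : ℂ)) :=
          ph_mono hphl (le_max_right _ _) (hphl.2.2.2.2.2.2.1 K[X] Y hYpm hYmul)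
        exact hphl.1 K[X] (max s 2) _ _ h4 h5
      · intro v hv
        have hv' : E.natDegree + 2 * v.natDegree < d := by omega
        have e1 : z' + D' * v ^ 2 = A * (z + E * v ^ 2) := by
          rw [hz', hD']
          ring
        rw [e1, hψ, hfib v hv']
        push_cast
        ring
  have hfin := sum_bound hD₀m hL
    (fun B => P B * ((lam c A₁ B * lam c A₂ B : ℝ) : ℂ)) _ hclass
  refine hfin.trans ?_
  rw [← hq]
  have h6 : q ^ ((L : ℝ) - κ0 * ((A.natDegree + d : ℕ) : ℝ)) ≤ q ^ d * (q ^ (-κ0)) ^ M := by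
    rw [← Real.rpow_natCast q d, ← Real.rpow_natCast (q ^ (-κ0)) M, ← Real.rpow_mul hq0.le,
      ← Real.rpow_add hq0]
    refine Real.rpow_le_rpow_of_exponent_le hq1.le ?_
    have h7 : (L : ℝ) ≤ d := by exact_mod_cast (by omega : L ≤ d)
    have h8 : (M : ℝ) ≤ ((A.natDegree + d : ℕ) : ℝ) := by exact_mod_cast (by omega : M ≤ A.natDegree + d)
    nlinarith
  calc q ^ D₀.natDegree * q ^ ((L : ℝ) - κ0 * ((A.natDegree + d : ℕ) : ℝ))
      ≤ q ^ D₀.natDegree * (q ^ d * (q ^ (-κ0)) ^ M) :=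
        mul_le_mul_of_nonneg_left h6 (by positivity)
    _ ≤ q ^ D₀.natDegree * (q ^ d * (ε / q ^ D₀.natDegree)) := by
        refine mul_le_mul_of_nonneg_left (mul_le_mul_of_nonneg_left hM.le (by positivity)) (by positivity)
    _ = ε * q ^ d := by
        field_simp

end Pool.Agent.H526.PE.TiimAsm
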