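import Pool.Agent.H526.PE.Stm
import Pool.Agent.H604.LD.WeylM

/-!
# Task WEYLMX: the level of distribution of the product of the phases, twisted by a function which
is a polynomial phase on the fibres (helper274, for helper526)

The proof follows `Pool/Agent/H604/LD/WeylM.lean` (helper356).
-/

set_option autoImplicit false

namespace Pool.Agent.H526.PE.WeylmxAsm

open Polynomial
open scoped Classical ComplexConjugate
open Pool.Agent.H985.Chow (mob lc)
open Pool.Agent.H985.KP (sg)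
open Pool.Agent.H604.LD
open Pool.Agent.H604.LD.WeylL Pool.Agent.H604.LD.WeylGL Pool.Agent.H604.LD.WeylUL
  Pool.Agent.H604.LD.WeylML

variable {K : Type} [Field K] [Fintype K]

attribute [local instance] Pool.Agent.H604.LD.WeylL.fdl

section two

variable [CharP K 2]

lemma good_MX (hg : S_gcsp) {s k n t l0 N m L1 T0 : ℕ} {a D : K[X]}
    (F : K[X] → ℝ) (hF : ∀ x, F x * F x = 1) (hF1 : ∀ x, |F x| = 1)
    (P : degreeLT K l0 → ℂ) (hP : Pool.Agent.H526.PE.Ph s P) (hsk : s ≤ k)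
    (hn : 2 ^ k = n + 1)
    (hL1 : 2 * n * L1 + N ≤ T0) (hm : m + (n + 1) * (t + 1) = L1 + 1)
    (hTm : T0 < (2 * n + 1) * m) (hLl : L1 + 1 ≤ l0)
    (hcub : ∀ v : K[X], v.degree < (l0 : WithBot ℕ) → CubP F D k N m L1 T0 (a + D * v ^ 2)) :
    ‖(∑ v : degreeLT K l0, (F (a + D * (v : K[X]) ^ 2) : ℂ) * P v) / (Fintype.card K : ℂ) ^ l0‖ ≤
      ((Fintype.card K : ℝ) ^ t)⁻¹ := by
  have hq2 : 2 ≤ Fintype.card K := Fintype.one_lt_card
  have hqpos : (0 : ℝ) < Fintype.card K := by exact_mod_cast Fintype.card_pos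
  set φ : Fin k → (degreeLT K (L1 + 1)) →+ (degreeLT K l0) :=
    fun _ => (Submodule.inclusion (degreeLT_mono hLl)).toAddMonoidHom with hφ
  set f : degreeLT K l0 → ℝ := fun v => F (a + D * (v : K[X]) ^ 2) with hf
  have hgcs := hg (degreeLT K l0) (degreeLT K (L1 + 1)) (Fin k) φ f P s
    (fun u => (hF1 _).le) hP (by rw [Fintype.card_fin]; exact hsk)
  rw [Fintype.card_fin, card_dl, card_dl] at hgcs
  push_cast at hgcs
  -- the value of the shifted function
  have hval : ∀ (h : Fin k → degreeLT K (L1 + 1)) (u : degreeLT K l0) (A : Finset (Fin k)),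
      f (u + ∑ j ∈ A, φ j (h j)) = F (a + D * ((u : K[X]) + ∑ j ∈ A, (h j : K[X])) ^ 2) := by
    intro h u A
    have e1 : ((u + ∑ j ∈ A, φ j (h j) : degreeLT K l0) : K[X]) =
        (u : K[X]) + ∑ j ∈ A, (h j : K[X]) := by
      rw [Submodule.coe_add, Submodule.coe_sum]
      rfl
    rw [hf]
    simp only
    rw [e1]
  have hm0 : 0 < m := by
    rcases Nat.eq_zero_or_pos m with h0 | h0
    · rw [h0, mul_zero] at hTm; omega
    · exact h0
  have hle1 : ∀ (h : Fin k → degreeLT K (L1 + 1)),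
      |(∑ u, ∏ A : Finset (Fin k), f (u + ∑ j ∈ A, φ j (h j))) / (Fintype.card K : ℝ) ^ l0| ≤ 1 := by
    intro h
    rw [abs_div, abs_of_pos (pow_pos hqpos l0), div_le_one (pow_pos hqpos l0)]
    refine (Finset.abs_sum_le_sum_abs _ _).trans ?_
    have e1 : ∀ u : degreeLT K l0, |∏ A : Finset (Fin k), f (u + ∑ j ∈ A, φ j (h j))| = 1 := by
      intro u
      rw [Finset.abs_prod]
      refine Finset.prod_eq_one fun A _ => ?_
      rw [hval, hF1]
    rw [Finset.sum_congr rfl (fun u _ => e1 u), Finset.sum_const, Finset.card_univ, card_dl,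
      nsmul_eq_mul, mul_one]
    push_cast
    exact le_refl _
  have hzero : ∀ (h : Fin k → degreeLT K (L1 + 1)), (¬ ∃ A : Finset (Fin k), A.Nonempty ∧
      (∑ j ∈ A, (h j : K[X])).degree < (m : WithBot ℕ)) →
      |(∑ u, ∏ A : Finset (Fin k), f (u + ∑ j ∈ A, φ j (h j))) / (Fintype.card K : ℝ) ^ l0| = 0 := by
    intro h hgood
    have hdeg : ∀ A : Finset (Fin k), A.Nonempty → ∑ j ∈ A, (h j : K[X]) ≠ 0 ∧
        m ≤ (∑ j ∈ A, (h j : K[X])).natDegree ∧ (∑ j ∈ A, (h j : K[X])).natDegree ≤ L1 := by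
      intro A hA
      have h5 : ¬ (∑ j ∈ A, (h j : K[X])).degree < (m : WithBot ℕ) := fun h6 => hgood ⟨A, hA, h6⟩
      have h0 : ∑ j ∈ A, (h j : K[X]) ≠ 0 := by
        intro h0
        rw [h0, degree_zero] at h5
        exact h5 (WithBot.bot_lt_coe _)
      refine ⟨h0, ?_, ?_⟩
      · by_contra h6
        exact h5 ((natDegree_lt_iff_degree_lt h0).1 (by omega))
      · have h6 : (∑ j ∈ A, (h j : K[X])) ∈ degreeLT K (L1 + 1) :=
          Submodule.sum_mem _ fun j _ => (h j).2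
        have h7 := natDeg_le (mem_degreeLT.1 h6)
        omega
    have hSig : ∑ A : Finset (Fin k), (∑ j ∈ A, (h j : K[X])).natDegree =
        ∑ A ∈ Finset.univ.erase (∅ : Finset (Fin k)), (∑ j ∈ A, (h j : K[X])).natDegree := by
      rw [← Finset.add_sum_erase Finset.univ _ (Finset.mem_univ (∅ : Finset (Fin k)))]
      simp
    have hcard : (Finset.univ.erase (∅ : Finset (Fin k))).card = n := by
      rw [Finset.card_erase_of_mem (Finset.mem_univ _), Finset.card_univ, Fintype.card_finset,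
        Fintype.card_fin, hn]
      omega
    have hS1 : ∑ A : Finset (Fin k), (∑ j ∈ A, (h j : K[X])).natDegree ≤ n * L1 := by
      rw [hSig, ← hcard, ← smul_eq_mul]
      exact Finset.sum_le_card_nsmul _ _ _ fun A hA =>
        (hdeg A (Finset.nonempty_iff_ne_empty.2 (Finset.mem_erase.1 hA).1)).2.2
    have hS2 : n * m ≤ ∑ A : Finset (Fin k), (∑ j ∈ A, (h j : K[X])).natDegree := by
      rw [hSig, ← hcard, ← smul_eq_mul]
      exact Finset.card_nsmul_le_sum _ _ _ fun A hA =>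
        (hdeg A (Finset.nonempty_iff_ne_empty.2 (Finset.mem_erase.1 hA).1)).2.1
    set Sg := ∑ A : Finset (Fin k), (∑ j ∈ A, (h j : K[X])).natDegree with hSg
    have h2S : 2 * Sg ≤ 2 * n * L1 := by
      calc 2 * Sg ≤ 2 * (n * L1) := Nat.mul_le_mul_left _ hS1
        _ = 2 * n * L1 := by ring
    obtain ⟨τ, hτ⟩ : ∃ τ, τ + 2 * Sg = T0 := ⟨T0 - 2 * Sg, by omega⟩
    have hτN : N ≤ τ := by omega
    have hτm : τ < m := by
      have e1 : (2 * n + 1) * m = 2 * (n * m) + m := by ring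
      omega
    have hcz := cancelM (a := a) (D := D) (l0 := l0) F hF (fun j => (h j : K[X])) hcub hτN hτm
      hdeg hτ (by omega)
    have e1 : ∑ u, ∏ A : Finset (Fin k), f (u + ∑ j ∈ A, φ j (h j)) = 0 := by
      rw [← hcz]
      exact Finset.sum_congr rfl fun u _ => Finset.prod_congr rfl fun A _ => hval h u A
    rw [e1, zero_div, abs_zero]
  -- the bound
  have hB : ∑ h : Fin k → degreeLT K (L1 + 1),
      |(∑ u, ∏ A : Finset (Fin k), f (u + ∑ j ∈ A, φ j (h j))) / (Fintype.card K : ℝ) ^ l0| ≤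
      ((Finset.univ.filter (fun h : Fin k → degreeLT K (L1 + 1) => ∃ A : Finset (Fin k),
        A.Nonempty ∧ (∑ j ∈ A, (h j : K[X])).degree < (m : WithBot ℕ))).card : ℝ) := by
    rw [Finset.card_eq_sum_ones, Finset.sum_filter]
    push_cast
    refine Finset.sum_le_sum fun h _ => ?_
    by_cases hb : ∃ A : Finset (Fin k), A.Nonempty ∧
        (∑ j ∈ A, (h j : K[X])).degree < (m : WithBot ℕ)
    · rw [if_pos hb]; exact hle1 h
    · rw [if_neg hb, hzero h hb]
  have hbad := bad_h (K := K) (k := k) (l := L1 + 1) (m := m) (by omega)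
  have hlm : L1 + 1 - m = (n + 1) * (t + 1) := by omega
  rw [hlm] at hbad
  have hbad' : ((Finset.univ.filter (fun h : Fin k → degreeLT K (L1 + 1) =>
      ∃ A : Finset (Fin k), A.Nonempty ∧
        (∑ j ∈ A, (h j : K[X])).degree < (m : WithBot ℕ))).card : ℝ) *
      (Fintype.card K : ℝ) ^ ((n + 1) * (t + 1)) ≤
      2 ^ k * (Fintype.card K : ℝ) ^ ((L1 + 1) * k) := by exact_mod_cast hbad
  have h2k : (2 : ℝ) ^ k ≤ (Fintype.card K : ℝ) ^ (n + 1) := by
    have h5 : 2 ^ k ≤ Fintype.card K ^ (n + 1) := by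
      rw [hn]
      exact (Nat.lt_pow_self hq2).le
    exact_mod_cast h5
  have hfin : ‖(∑ u, (f u : ℂ) * P u) / (Fintype.card K : ℂ) ^ l0‖ ^ (2 ^ k) ≤
      (((Fintype.card K : ℝ) ^ t)⁻¹) ^ (2 ^ k) := by
    refine hgcs.trans ?_
    rw [div_le_iff₀ (by positivity)]
    refine hB.trans ?_
    have hpos : (0 : ℝ) < (Fintype.card K : ℝ) ^ ((n + 1) * (t + 1)) := pow_pos hqpos _
    refine le_of_mul_le_mul_right (hbad'.trans ?_) hpos
    rw [hn, inv_pow, ← pow_mul, ← pow_mul]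
    have e1 : (Fintype.card K : ℝ) ^ ((n + 1) * (t + 1)) =
        (Fintype.card K : ℝ) ^ (t * (n + 1)) * (Fintype.card K : ℝ) ^ (n + 1) := by
      rw [← pow_add]; ring_nf
    have hpos2 : (0 : ℝ) < (Fintype.card K : ℝ) ^ (t * (n + 1)) := pow_pos hqpos _
    have e2 : ((Fintype.card K : ℝ) ^ (t * (n + 1)))⁻¹ * (Fintype.card K : ℝ) ^ ((L1 + 1) * k) *
        (Fintype.card K : ℝ) ^ ((n + 1) * (t + 1)) =
        (Fintype.card K : ℝ) ^ (n + 1) * (Fintype.card K : ℝ) ^ ((L1 + 1) * k) := by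
      rw [e1]
      field_simp
    rw [e2]
    exact mul_le_mul_of_nonneg_right h2k (by positivity)
  exact (pow_le_pow_iff_left₀ (norm_nonneg _) (by positivity) (by rw [hn]; omega)).1 hfin

omit [CharP K 2] in
lemma shift_sumC {L l0 : ℕ} (hl0 : 2 * (l0 - 1) < L) (Ψ : K[X] → ℂ) (v : degreeLT K l0) :
    ∑ c : degreeLT K L, Ψ ((c : K[X]) + (v : K[X]) ^ 2) = ∑ c : degreeLT K L, Ψ (c : K[X]) := by
  have hv := natDeg_le (dl_deg v)
  have hmem : (v : K[X]) ^ 2 ∈ degreeLT K L := by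
    rw [mem_degreeLT]
    refine lt_of_le_of_lt degree_le_natDegree ?_
    have h1 : ((v : K[X]) ^ 2).natDegree ≤ 2 * (l0 - 1) :=
      natDegree_pow_le.trans (Nat.mul_le_mul_left _ hv)
    exact_mod_cast lt_of_le_of_lt h1 hl0
  exact Equiv.sum_comp (Equiv.addRight (⟨(v : K[X]) ^ 2, hmem⟩ : degreeLT K L))
    (fun c : degreeLT K L => Ψ (c : K[X]))

/-- the bound of a twisted sum of phases over an interval -/
lemma main_MX (hg : S_gcsp) (hph : S_phl) {s k n t L d : ℕ} {D r : K[X]}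
    (F : K[X] → ℝ) (hF : ∀ x, F x * F x = 1) (hF1 : ∀ x, |F x| = 1) (ψ : K[X] → ℂ)
    (hsk : s ≤ k)
    (hn : 2 ^ k = n + 1) (hD : D.Monic) (hr : r.Monic) (hrd : r.natDegree = d)
    (hDL : D.natDegree + L ≤ d) (hL : 8 * (t + 1) ≤ L)
    (hψ : ∀ z : K[X], z.Monic → z.natDegree = d → D ∣ z - r →
      ∃ (σ : ℂ) (P : K[X] → ℂ), ‖σ‖ ≤ 1 ∧ Pool.Agent.H526.PE.Ph s P ∧
        ∀ v, D.natDegree + 2 * v.natDegree < d → ψ (z + D * v ^ 2) = σ * P v)
    (hgood : ∀ (a s : K[X]) (g : ℕ), a.Monic → a.natDegree = d → s ≠ 0 →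
      s ^ 2 = derivative (a * D) → s.natDegree = D.natDegree + g → (L + 1) / 2 ≤ g + 1 + t →
      D.natDegree + 2 * g + 1 ≤ d → ∃ N m L1 T0 : ℕ, 2 * n * L1 + N ≤ T0 ∧
        m + (n + 1) * (t + 1) = L1 + 1 ∧ T0 < (2 * n + 1) * m ∧ L1 + 1 ≤ (L + 1) / 2 ∧
        ∀ v : K[X], v.degree < (((L + 1) / 2 : ℕ) : WithBot ℕ) →
          CubP F D k N m L1 T0 (a + D * v ^ 2)) :
    ‖∑ c : degreeLT K L, ψ (r + D * (c : K[X])) * (F (r + D * (c : K[X])) : ℂ)‖ ≤
      2 * (Fintype.card K : ℝ) ^ L / (Fintype.card K : ℝ) ^ t := by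
  have hqpos : (0 : ℝ) < Fintype.card K := by exact_mod_cast Fintype.card_pos
  have hqC : (Fintype.card K : ℂ) ≠ 0 := by exact_mod_cast Fintype.card_ne_zero
  have hmon : ∀ c : degreeLT K L, (r + D * (c : K[X])).Monic ∧
      (r + D * (c : K[X])).natDegree = d := by
    intro c
    have hc := natDeg_le (dl_deg c)
    have h7 : (D * (c : K[X])).degree < r.degree := by
      refine degree_lt_degree (lt_of_le_of_lt natDegree_mul_le ?_)
      omega
    exact ⟨hr.add_of_left h7, by rw [natDegree_add_eq_left_of_degree_lt h7, hrd]⟩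
  set S : ℂ := ∑ c : degreeLT K L, ψ (r + D * (c : K[X])) * (F (r + D * (c : K[X])) : ℂ) with hS
  set l0 := (L + 1) / 2 with hl0
  have hl0i : 2 * (l0 - 1) < L := by omega
  have hql : (0 : ℝ) < (Fintype.card K : ℝ) ^ l0 := pow_pos hqpos _
  have hqlC : (Fintype.card K : ℂ) ^ l0 ≠ 0 := pow_ne_zero _ hqC
  -- averaging
  have e3 : S = ∑ c : degreeLT K L,
      (∑ v : degreeLT K l0, ψ (r + D * (c : K[X]) + D * (v : K[X]) ^ 2) *
        (F (r + D * (c : K[X]) + D * (v : K[X]) ^ 2) : ℂ)) /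
      (Fintype.card K : ℂ) ^ l0 := by
    rw [← Finset.sum_div, Finset.sum_comm]
    have h5 : ∀ v : degreeLT K l0, ∑ c : degreeLT K L,
        ψ (r + D * (c : K[X]) + D * (v : K[X]) ^ 2) *
        (F (r + D * (c : K[X]) + D * (v : K[X]) ^ 2) : ℂ) = S := by
      intro v
      rw [hS, ← shift_sumC hl0i (fun c => ψ (r + D * c) * (F (r + D * c) : ℂ)) v]
      refine Finset.sum_congr rfl fun c _ => ?_
      have h6 : r + D * (c : K[X]) + D * (v : K[X]) ^ 2 =
          r + D * ((c : K[X]) + (v : K[X]) ^ 2) := by ring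
      rw [h6]
    rw [Finset.sum_congr rfl (fun v _ => h5 v), Finset.sum_const, Finset.card_univ, card_dl,
      nsmul_eq_mul]
    push_cast
    rw [mul_comm, mul_div_assoc, div_self hqlC, mul_one]
  -- the fibres
  have hfib : ∀ c : degreeLT K L, ∃ (σ : ℂ) (P : degreeLT K l0 → ℂ), ‖σ‖ ≤ 1 ∧
      Pool.Agent.H526.PE.Ph s P ∧ ∀ v : degreeLT K l0,
        ψ (r + D * (c : K[X]) + D * (v : K[X]) ^ 2) = σ * P v := by
    intro c
    obtain ⟨σ, P, hσ, hP, hv⟩ := hψ (r + D * (c : K[X])) (hmon c).1 (hmon c).2 ⟨c, by ring⟩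
    refine ⟨σ, fun v => P (v : K[X]), hσ, ?_, fun v => hv v ?_⟩
    · have h4 := hph.2.2.2.1 K[X] (degreeLT K l0) s P (degreeLT K l0).subtype.toAddMonoidHom 0 hP
      have e1 : (fun u : degreeLT K l0 => P (0 + (degreeLT K l0).subtype.toAddMonoidHom u)) =
          fun v : degreeLT K l0 => P (v : K[X]) := by
        funext u
        rw [zero_add]
        rfl
      rw [e1] at h4
      exact h4
    · have h5 := natDeg_le (dl_deg v)
      omega
  have hterm : ∀ (c : degreeLT K L) (σ : ℂ) (P : degreeLT K l0 → ℂ), (∀ v : degreeLT K l0,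
        ψ (r + D * (c : K[X]) + D * (v : K[X]) ^ 2) = σ * P v) →
      (∑ v : degreeLT K l0, ψ (r + D * (c : K[X]) + D * (v : K[X]) ^ 2) *
        (F (r + D * (c : K[X]) + D * (v : K[X]) ^ 2) : ℂ)) / (Fintype.card K : ℂ) ^ l0 =
      σ * ((∑ v : degreeLT K l0, (F (r + D * (c : K[X]) + D * (v : K[X]) ^ 2) : ℂ) * P v) /
        (Fintype.card K : ℂ) ^ l0) := by
    intro c σ P hv
    rw [← mul_div_assoc, Finset.mul_sum]
    congr 1
    refine Finset.sum_congr rfl fun v _ => ?_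
    rw [hv v]
    ring
  have hE1 : ∀ c : degreeLT K L,
      ‖(∑ v : degreeLT K l0, ψ (r + D * (c : K[X]) + D * (v : K[X]) ^ 2) *
        (F (r + D * (c : K[X]) + D * (v : K[X]) ^ 2) : ℂ)) /
      (Fintype.card K : ℂ) ^ l0‖ ≤ 1 := by
    intro c
    obtain ⟨σ, P, hσ, hP, hv⟩ := hfib c
    have hP1 := hph.2.2.2.2.1 (degreeLT K l0) s P hP
    rw [norm_div, norm_pow, Complex.norm_natCast, div_le_one hql]
    refine (norm_sum_le _ _).trans ?_
    have e1 : ∀ v : degreeLT K l0, ‖ψ (r + D * (c : K[X]) + D * (v : K[X]) ^ 2) *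
        (F (r + D * (c : K[X]) + D * (v : K[X]) ^ 2) : ℂ)‖ ≤ 1 := by
      intro v
      rw [norm_mul, hv v, norm_mul, hP1, mul_one, Complex.norm_real, Real.norm_eq_abs, hF1, mul_one]
      exact hσ
    refine (Finset.sum_le_sum fun v _ => e1 v).trans ?_
    rw [Finset.sum_const, Finset.card_univ, card_dl, nsmul_eq_mul, mul_one]
    push_cast
    exact le_refl _
  obtain ⟨G0, hG0⟩ : ∃ G0, G0 + t + 1 = l0 := ⟨l0 - 1 - t, by omega⟩
  set Q : K[X] := derivative (r * D) with hQ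
  have hE2 : ∀ c : degreeLT K L, ¬ (Q + D ^ 2 * derivative (c : K[X])).degree <
      ((2 * (D.natDegree + G0) : ℕ) : WithBot ℕ) →
      ‖(∑ v : degreeLT K l0, ψ (r + D * (c : K[X]) + D * (v : K[X]) ^ 2) *
        (F (r + D * (c : K[X]) + D * (v : K[X]) ^ 2) : ℂ)) /
        (Fintype.card K : ℂ) ^ l0‖ ≤ ((Fintype.card K : ℝ) ^ t)⁻¹ := by
    intro c hgd0
    obtain ⟨ham, had⟩ := hmon c
    obtain ⟨s', hs⟩ := exists_sqrt ((r + D * (c : K[X])) * D)
    have h5 : derivative ((r + D * (c : K[X])) * D) = Q + D ^ 2 * derivative (c : K[X]) := by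
      have h6 : (r + D * (c : K[X])) * D = r * D + D ^ 2 * (c : K[X]) := by ring
      rw [h6, derivative_add, derivative_mul (f := D ^ 2), CubeL.deriv_sq, zero_mul, zero_add]
    rw [← h5, ← hs] at hgd0
    have hs0 : s' ≠ 0 := by
      rintro rfl
      rw [zero_pow two_ne_zero, degree_zero] at hgd0
      exact hgd0 (WithBot.bot_lt_coe _)
    have h7 : D.natDegree + G0 ≤ s'.natDegree := by
      by_contra h8
      refine hgd0 ((natDegree_lt_iff_degree_lt (pow_ne_zero 2 hs0)).1 ?_)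
      rw [natDegree_pow]
      omega
    have h8 : 2 * s'.natDegree ≤ d + D.natDegree - 1 := by
      have h9 := natDegree_derivative_le ((r + D * (c : K[X])) * D)
      rw [← hs, natDegree_pow, ham.natDegree_mul hD, had] at h9
      exact h9
    obtain ⟨g, hgd⟩ : ∃ g, s'.natDegree = D.natDegree + g := ⟨s'.natDegree - D.natDegree, by omega⟩
    obtain ⟨N, m, L1, T0, k1, k2, k3, k4, k5⟩ := hgood _ s' g ham had hs0 hs hgd (by omega)
      (by omega)
    obtain ⟨σ, P, hσ, hP, hv⟩ := hfib c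
    rw [hterm c σ P hv, norm_mul]
    have h10 := good_MX hg F hF hF1 P hP hsk hn k1 k2 k3 k4 k5
    calc ‖σ‖ * _ ≤ 1 * ((Fintype.card K : ℝ) ^ t)⁻¹ :=
          mul_le_mul hσ h10 (norm_nonneg _) zero_le_one
      _ = _ := one_mul _
  have hbad := bad_cU (L := L) (G := G0) (t := t) Q D hD (by omega)
  have hbad' : ((Finset.univ.filter (fun c : degreeLT K L =>
      (Q + D ^ 2 * derivative (c : K[X])).degree <
      ((2 * (D.natDegree + G0) : ℕ) : WithBot ℕ))).card : ℝ) ≤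
      (Fintype.card K : ℝ) ^ L / (Fintype.card K : ℝ) ^ t := by
    rw [le_div_iff₀ (pow_pos hqpos t)]
    exact_mod_cast hbad
  rw [e3]
  refine (norm_sum_le _ _).trans ?_
  rw [← Finset.sum_filter_add_sum_filter_not Finset.univ (fun c : degreeLT K L =>
      (Q + D ^ 2 * derivative (c : K[X])).degree <
      ((2 * (D.natDegree + G0) : ℕ) : WithBot ℕ))]
  have h10 : ∑ c ∈ Finset.univ.filter (fun c : degreeLT K L =>
      (Q + D ^ 2 * derivative (c : K[X])).degree <
      ((2 * (D.natDegree + G0) : ℕ) : WithBot ℕ)),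
      ‖(∑ v : degreeLT K l0, ψ (r + D * (c : K[X]) + D * (v : K[X]) ^ 2) *
        (F (r + D * (c : K[X]) + D * (v : K[X]) ^ 2) : ℂ)) /
        (Fintype.card K : ℂ) ^ l0‖ ≤ (Fintype.card K : ℝ) ^ L / (Fintype.card K : ℝ) ^ t := by
    refine (Finset.sum_le_card_nsmul _ _ 1 (fun c _ => hE1 c)).trans ?_
    rw [nsmul_eq_mul, mul_one]
    exact hbad'
  have h11 : ∑ c ∈ Finset.univ.filter (fun c : degreeLT K L =>
      ¬ (Q + D ^ 2 * derivative (c : K[X])).degree <
      ((2 * (D.natDegree + G0) : ℕ) : WithBot ℕ)),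
      ‖(∑ v : degreeLT K l0, ψ (r + D * (c : K[X]) + D * (v : K[X]) ^ 2) *
        (F (r + D * (c : K[X]) + D * (v : K[X]) ^ 2) : ℂ)) /
        (Fintype.card K : ℂ) ^ l0‖ ≤ (Fintype.card K : ℝ) ^ L / (Fintype.card K : ℝ) ^ t := by
    refine (Finset.sum_le_card_nsmul _ _ (((Fintype.card K : ℝ) ^ t)⁻¹) (fun c hcm =>
      hE2 c (Finset.mem_filter.1 hcm).2)).trans ?_
    rw [nsmul_eq_mul, div_eq_mul_inv]
    refine mul_le_mul_of_nonneg_right ?_ (by positivity)
    have h12 := Finset.card_filter_le (Finset.univ : Finset (degreeLT K L)) (fun c =>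
      ¬ (Q + D ^ 2 * derivative (c : K[X])).degree <
      ((2 * (D.natDegree + G0) : ℕ) : WithBot ℕ))
    rw [Finset.card_univ, card_dl] at h12
    exact_mod_cast h12
  refine (add_le_add h10 h11).trans (le_of_eq ?_)
  ring

end two

/-- splitting an interval into residue classes -/
lemma split_MX {q0 L : ℕ} {Q : K[X]} (hQ : Q.Monic) (hq : Q.natDegree = q0) (f : K[X] → ℂ) :
    ∑ c : degreeLT K (q0 + L), f (c : K[X]) =
      ∑ c0 : degreeLT K q0, ∑ c1 : degreeLT K L, f ((c0 : K[X]) + Q * (c1 : K[X])) := by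
  have hmem : ∀ (c0 : degreeLT K q0) (c1 : degreeLT K L),
      (c0 : K[X]) + Q * (c1 : K[X]) ∈ degreeLT K (q0 + L) := by
    intro c0 c1
    refine Submodule.add_mem _ ?_ ?_
    · exact degreeLT_mono (by omega) c0.2
    · rw [mem_degreeLT]
      by_cases h0 : (c1 : K[X]) = 0
      · rw [h0, mul_zero, degree_zero]
        exact WithBot.bot_lt_coe _
      · have h1 := (natDegree_lt_iff_degree_lt h0).2 (dl_deg c1)
        refine (natDegree_lt_iff_degree_lt (mul_ne_zero hQ.ne_zero h0)).1 ?_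
        rw [natDegree_mul hQ.ne_zero h0]
        omega
  rw [← Finset.sum_product']
  symm
  refine Finset.sum_bij (fun (p : degreeLT K q0 × degreeLT K L) _ =>
    (⟨(p.1 : K[X]) + Q * (p.2 : K[X]), hmem p.1 p.2⟩ : degreeLT K (q0 + L)))
    (fun _ _ => Finset.mem_univ _) ?_ ?_ (fun _ _ => rfl)
  · rintro ⟨c0, c1⟩ _ ⟨c0', c1'⟩ _ heq
    have h1 : (c0 : K[X]) + Q * (c1 : K[X]) = (c0' : K[X]) + Q * (c1' : K[X]) :=
      congrArg (fun w : degreeLT K (q0 + L) => (w : K[X])) heq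
    have h2 : Q * ((c1 : K[X]) - (c1' : K[X])) = (c0' : K[X]) - (c0 : K[X]) := by
      linear_combination h1
    have h3 : (c1 : K[X]) - (c1' : K[X]) = 0 := by
      by_contra h0
      have h4 : ((c0' : K[X]) - (c0 : K[X])).degree < (q0 : WithBot ℕ) :=
        lt_of_le_of_lt (degree_sub_le _ _) (max_lt (dl_deg c0') (dl_deg c0))
      rw [← h2] at h4
      have h5 := (natDegree_lt_iff_degree_lt (mul_ne_zero hQ.ne_zero h0)).2 h4
      rw [natDegree_mul hQ.ne_zero h0] at h5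
      omega
    have h4 : c1 = c1' := Subtype.ext (sub_eq_zero.1 h3)
    rw [h3, mul_zero] at h2
    have h5 : c0 = c0' := Subtype.ext (sub_eq_zero.1 h2.symm).symm
    rw [h4, h5]
  · intro c _
    have h1 : (c : K[X]) %ₘ Q ∈ degreeLT K q0 := by
      have h9 := degree_modByMonic_lt (c : K[X]) hQ
      rw [degree_eq_natDegree hQ.ne_zero, hq] at h9
      exact mem_degreeLT.2 h9
    have h2 : (c : K[X]) /ₘ Q ∈ degreeLT K L := by
      rw [mem_degreeLT]
      by_cases h0 : (c : K[X]) /ₘ Q = 0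
      · rw [h0, degree_zero]
        exact WithBot.bot_lt_coe _
      · refine (natDegree_lt_iff_degree_lt h0).1 ?_
        have h3 := natDegree_divByMonic (c : K[X]) hQ
        have h4 := natDeg_le (dl_deg c)
        have h5 : (c : K[X]) ≠ 0 := by
          intro h6
          rw [h6, zero_divByMonic] at h0
          exact h0 rfl
        have h6 := (natDegree_lt_iff_degree_lt h5).2 (dl_deg c)
        have h7 : (c : K[X]) /ₘ Q ≠ 0 := h0
        have h8 : Q.natDegree ≤ (c : K[X]).natDegree := by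
          by_contra h9
          exact h7 ((divByMonic_eq_zero_iff hQ).2 (degree_lt_degree (by omega)))
        omega
    refine ⟨(⟨_, h1⟩, ⟨_, h2⟩), Finset.mem_univ _, ?_⟩
    apply Subtype.ext
    exact modByMonic_add_div (c : K[X]) Q

/-- **Task WEYLMX**: the level of distribution of the twisted product of the phases. -/
theorem main : Pool.Agent.H526.PE.S_weylmxasm := by
  intro h0 h1 hg hph K _ _ _ nn γ b e κ s hγ hb hcase hκ
  obtain ⟨N, hN⟩ : ∃ N, Cub0 γ b e N ∨ Cub1 γ b e N := by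
    by_cases hom : om γ b = 0
    · obtain ⟨N, hN⟩ := h1 K nn γ b e hγ hb hom (hcase.resolve_left (not_not.2 hom))
      exact ⟨N, Or.inr hN⟩
    · obtain ⟨N, hN⟩ := h0 K nn γ b e hγ hb hom
      exact ⟨N, Or.inl hN⟩
  obtain ⟨M1, hM1, hM1κ⟩ : ∃ M1 : ℕ, 1 ≤ M1 ∧ 1 / κ ≤ M1 := by
    obtain ⟨M1, h⟩ := exists_nat_ge (1 / κ)
    refine ⟨M1 + 1, by omega, h.trans ?_⟩
    push_cast
    linarith
  obtain ⟨k, hk⟩ : ∃ k, k = 4 * M1 + 2 + s := ⟨_, rfl⟩
  have hk2 : 4 * M1 + 2 < 2 ^ k := by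
    have h5 : k < 2 ^ k := Nat.lt_two_pow_self
    omega
  have hsk : s ≤ k := by omega
  obtain ⟨n, hn⟩ : ∃ n, 2 ^ k = n + 1 := ⟨2 ^ k - 1, by omega⟩
  obtain ⟨P0, hP0⟩ : ∃ P0, P0 = 64 * M1 + 4 * n * (2 * n + 1) * (n + 1) := ⟨_, rfl⟩
  obtain ⟨W, hW⟩ : ∃ W, W = 16 * M1 * (2 * n + 2) + 8 * (n + 2) := ⟨_, rfl⟩
  have hP0p : 0 < P0 := by omega
  have hWp : 0 < W := by omega
  have hP0R : (0 : ℝ) < P0 := by exact_mod_cast hP0p
  have hWR : (0 : ℝ) < W := by exact_mod_cast hWp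
  refine ⟨1 / (2 * P0), 1 / W, by positivity, by positivity,
    2 * (N + 2 * n * N) + 4 * M1 * (0 + 1) +
      2 * M1 * ((om γ b).natDegree + (p1 γ b e).natDegree) + 2 * M1 * (4 * N + 8) +
      128 * M1 * ((bB γ b).natDegree + 1) + 1 +
      6 * P0, fun d L D r ψ hd hD hr hrd hL hDL hgap hψ => ?_⟩
  have hqpos : (0 : ℝ) < Fintype.card K := by exact_mod_cast Fintype.card_pos
  have hq2 : (2 : ℝ) ≤ Fintype.card K := by
    have : 2 ≤ Fintype.card K := Fintype.one_lt_card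
    exact_mod_cast this
  have hdpos : 0 < d := by omega
  have hdR : (0 : ℝ) < d := by exact_mod_cast hdpos
  have hML : d ≤ M1 * L := by
    have h5 : (d : ℝ) ≤ M1 * L := by
      have h6 : (d : ℝ) = 1 / κ * (κ * d) := by field_simp
      rw [h6]
      exact mul_le_mul hM1κ hL (by positivity) (by positivity)
    exact_mod_cast h5
  obtain ⟨G, hG⟩ : ∃ G, D.natDegree + L + G = d := ⟨d - D.natDegree - L, by omega⟩
  have hWG : W * G ≤ d := by
    have hGR : (D.natDegree : ℝ) + L + G = d := by exact_mod_cast hG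
    have h5 : (G : ℝ) ≤ 1 / W * d := by linarith
    rw [div_mul_eq_mul_div, one_mul, le_div_iff₀ hWR] at h5
    have h6 : ((W * G : ℕ) : ℝ) ≤ d := by push_cast; linarith
    exact_mod_cast h6
  obtain ⟨j, hj0, hj, hodd⟩ : ∃ j, d / (4 * M1) ≤ j ∧ j ≤ d / (4 * M1) + 1 ∧
      Odd (D.natDegree + (0 + j) + (p1 γ b e).natDegree) := by
    rcases Nat.even_or_odd (D.natDegree + (0 + d / (4 * M1)) + (p1 γ b e).natDegree)
      with h | h
    · refine ⟨d / (4 * M1) + 1, by omega, le_rfl, ?_⟩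
      have h5 := h.add_one
      rwa [show D.natDegree + (0 + d / (4 * M1)) + (p1 γ b e).natDegree + 1 =
        D.natDegree + (0 + (d / (4 * M1) + 1)) + (p1 γ b e).natDegree by ring] at h5
    · exact ⟨d / (4 * M1), le_rfl, by omega, h⟩
  have hq0L : 0 + j ≤ L := numM0 hM1 (by omega) hj hML
  obtain ⟨L', hL'⟩ : ∃ L', L = 0 + j + L' := ⟨L - (0 + j), by omega⟩
  -- the parameter `t`
  have hx1 : P0 * (d / P0) ≤ d := Nat.mul_div_le _ _
  have hx2 : d < P0 * (d / P0 + 1) := Nat.lt_mul_div_succ d hP0p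
  set x := d / P0 with hx
  have hx0 : 0 < x := by
    rcases Nat.eq_zero_or_pos x with h | h
    · rw [h] at hx2; omega
    · exact h
  obtain ⟨t, ht⟩ : ∃ t, x = t + 1 := ⟨x - 1, by omega⟩
  rw [ht] at hx1 hx2
  obtain ⟨n1, n2, n3, n4, n5, n6, n7, n8⟩ := numM (N := N) (n := n) (o := (om γ b).natDegree)
    (π := (p1 γ b e).natDegree) (βB := (bB γ b).natDegree) (D := D.natDegree) (G := G) hM1
    (by omega) hP0 hW (by omega) (by omega) (by omega) (by omega) (by omega) hj0 hj hL' hML hG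
    hWG hx1
  obtain ⟨Q, hQ⟩ : ∃ Q : K[X], Q = X ^ j := ⟨_, rfl⟩
  have hQm : Q.Monic := by rw [hQ]; exact monic_X_pow j
  have hQd : Q.natDegree = 0 + j := by
    rw [hQ, natDegree_X_pow, zero_add]
  have hDQ : (D * Q).Monic := hD.mul hQm
  have hDQd : (D * Q).natDegree = D.natDegree + (0 + j) := by
    rw [hD.natDegree_mul hQm, hQd]
  have hk1 : 1 ≤ k := by omega
  have hclass : ∀ c0 : degreeLT K (0 + j),
      ‖∑ c1 : degreeLT K L', ψ (r + D * (c0 : K[X]) + D * Q * (c1 : K[X])) *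
        (phP γ b e (r + D * (c0 : K[X]) + D * Q * (c1 : K[X])) : ℂ)‖ ≤
      2 * (Fintype.card K : ℝ) ^ L' / (Fintype.card K : ℝ) ^ t := by
    intro c0
    have hc := natDeg_le (dl_deg c0)
    have h7 : (D * (c0 : K[X])).degree < r.degree := by
      refine degree_lt_degree (lt_of_le_of_lt natDegree_mul_le ?_)
      omega
    refine main_MX hg hph (phP γ b e) (phP_sq γ b e) (phP_abs γ b e) ψ hsk hn hDQ
      (hr.add_of_left h7) (by rw [natDegree_add_eq_left_of_degree_lt h7, hrd])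
      (by rw [hDQd]; omega) n5 (fun z hz hzd hzr => ?_)
      (good_case hN hk1 hn (by omega) hDQ (by rw [hDQd]; exact hodd)
        (by rw [hDQd]; omega) n1 n2 n3 n4 n6 n7 (by rw [hDQd]; exact n8))
    refine hψ (D * Q) z (Dvd.intro Q rfl) hDQ hz hzd ?_
    have h8 : z - r = (z - (r + D * (c0 : K[X]))) + D * (c0 : K[X]) := by ring
    rw [h8]
    exact dvd_add ((Dvd.intro Q rfl).trans hzr) (Dvd.intro _ rfl)
  have hmain : ‖∑ c : degreeLT K (0 + j + L'), ψ (r + D * (c : K[X])) *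
      (phP γ b e (r + D * (c : K[X])) : ℂ)‖ ≤
      2 * (Fintype.card K : ℝ) ^ L / (Fintype.card K : ℝ) ^ t := by
    rw [split_MX hQm hQd (fun c => ψ (r + D * c) * (phP γ b e (r + D * c) : ℂ))]
    have e1 : ∀ (c0 : degreeLT K (0 + j)) (c1 : degreeLT K L'),
        ψ (r + D * ((c0 : K[X]) + Q * (c1 : K[X]))) *
          (phP γ b e (r + D * ((c0 : K[X]) + Q * (c1 : K[X]))) : ℂ) =
          ψ (r + D * (c0 : K[X]) + D * Q * (c1 : K[X])) *
          (phP γ b e (r + D * (c0 : K[X]) + D * Q * (c1 : K[X])) : ℂ) := by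
      intro c0 c1
      have e2 : r + D * ((c0 : K[X]) + Q * (c1 : K[X])) =
          r + D * (c0 : K[X]) + D * Q * (c1 : K[X]) := by ring
      rw [e2]
    simp only [e1]
    refine (norm_sum_le _ _).trans ((Finset.sum_le_sum fun c0 _ =>
      hclass c0).trans (le_of_eq ?_))
    rw [Finset.sum_const, Finset.card_univ, card_dl, nsmul_eq_mul, hL', pow_add _ (_ + j) L']
    push_cast
    ring
  have hfs : ∑ᶠ c ∈ {c : K[X] | c.degree < (L : WithBot ℕ)}, ψ (r + D * c) *
      (phP γ b e (r + D * c) : ℂ) =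
      ∑ c : degreeLT K (0 + j + L'), ψ (r + D * (c : K[X])) *
      (phP γ b e (r + D * (c : K[X])) : ℂ) := by
    rw [← hL']
    have h5 : {c : K[X] | c.degree < (L : WithBot ℕ)} = (degreeLT K L : Set K[X]) := by
      ext c
      rw [SetLike.mem_coe, mem_degreeLT]
      rfl
    rw [h5, ← finsum_set_coe_eq_finsum_mem, ← finsum_eq_sum_of_fintype]
    rfl
  rw [hfs]
  refine hmain.trans ?_
  have hx2' : (d : ℝ) < P0 * (t + 1 + 1) := by exact_mod_cast hx2
  have hd' : 6 * (P0 : ℝ) ≤ d := by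
    have : 6 * P0 ≤ d := by omega
    exact_mod_cast this
  have ht2 : 1 / (2 * P0) * (d : ℝ) + 3 ≤ (t : ℝ) + 2 := by
    have h5 : 1 / (2 * (P0 : ℝ)) * d + 3 = (d + 6 * P0) / (2 * P0) := by field_simp; ring
    rw [h5, div_le_iff₀ (by positivity)]
    nlinarith
  have e1 : 2 * (Fintype.card K : ℝ) ^ L / (Fintype.card K : ℝ) ^ t ≤
      (Fintype.card K : ℝ) ^ ((L : ℝ) - t + 1) := by
    rw [Real.rpow_add hqpos, Real.rpow_sub hqpos, Real.rpow_one, Real.rpow_natCast,
      Real.rpow_natCast, mul_div_assoc, mul_comm]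
    exact mul_le_mul_of_nonneg_left hq2 (by positivity)
  refine e1.trans (Real.rpow_le_rpow_of_exponent_le (by linarith) ?_)
  linarith

end Pool.Agent.H526.PE.WeylmxAsm
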