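import Pool.Agent.H526.PE.SAll
import Pool.Agent.H526.PE.Phl
import Pool.Agent.H526.PE.Gcsp
import Pool.Agent.H526.PE.WeylmxAsm
import Pool.Agent.H526.PE.ParlAsm
import Pool.Agent.H526.PE.TiimAsm
import Pool.Agent.H526.PE.Kataiq
import Pool.Agent.H526.PE.LocqAsm
import Pool.Agent.H526.PE.LocuAsm
import Pool.Agent.H526.PE.G1Asm
import Pool.Agent.H526.PE.G2Asm
import Pool.Agent.H526.PE.G3Asm
import Pool.Agent.H526.PE.Cls
import Pool.Agent.H526.PQ.Phm
import Pool.Agent.H604.LD.CubeM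
import Pool.Agent.H524.LD.ParInfG

/-!
# Project PE: the final theorems
-/

namespace Pool.Agent.H526.PE

theorem s_weylmx : S_weylmx :=
  WeylmxAsm.main Pool.Agent.H604.LD.cubem0 Pool.Agent.H604.LD.cubem1 Gcsp.main Phl.main

theorem s_parl : S_parl := ParlAsm.main Pool.Agent.H524.LD.s_parinfg Pool.Agent.H526.PQ.Phm.main

theorem s_tiim : S_tiim := TiimAsm.main s_weylmx s_parl Pool.Agent.H526.PQ.Phm.main Phl.main

theorem s_locq : S_locq := LocqAsm.main Pool.Agent.H524.LD.s_parinfg Phl.main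

theorem s_locu : S_locu := LocuAsm.main s_all Gcsp.main Phl.main

theorem s_G1 : S_G1 := G1Asm.main s_locu s_locq Phl.main

theorem s_G2 : S_G2 := G2Asm.main s_locu s_locq Kataiq.main Phl.main

theorem s_G3 : S_G3 := G3Asm.main s_tiim Kataiq.main Phl.main

end Pool.Agent.H526.PE
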