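import Pool.Agent.H526.PE.StmU
import Pool.Agent.H526.PE.G1Asm

/-!
# Task LUA: windows for the product (helper75, for helper526)
-/

set_option autoImplicit false
set_option linter.unusedSectionVars false

namespace Pool.Agent.H526.PE.LuaAsm

open Polynomial
open scoped Classical ComplexConjugate
open Pool.Agent.H694.Typ (Mn mem_Mn card_Mn)
open Pool.Agent.H526.PE.G1Asm (ph_mono ph_one ph_prod UH mem_UH)

theorem main : Pool.Agent.H526.PE.S_luaasm := by
  intro hlocu hlocq hphl K _ _ _ f μ n c s ε hf hc hε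
  choose γ b e hγ hb hce using fun i => Pool.Agent.H604.LD.FINM.data (hc i)
  obtain ⟨B, hB⟩ : ∃ B : K[X], B = ∏ i, b i ^ 6 := ⟨_, rfl⟩
  have hB0 : B ≠ 0 := by
    rw [hB]
    exact Finset.prod_ne_zero_iff.2 fun i _ => pow_ne_zero _ (hb i).ne_zero
  have hdvd : ∀ i, b i ^ 6 ∣ B := fun i => by
    rw [hB]
    exact Finset.dvd_prod_of_mem (fun i => b i ^ 6) (Finset.mem_univ i)
  obtain ⟨s', hs'⟩ : ∃ s', s' = max s 3 := ⟨_, rfl⟩
  have hs1 : s ≤ s' := by rw [hs']; exact le_max_left _ _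
  have hs3 : 3 ≤ s' := by rw [hs']; exact le_max_right _ _
  obtain ⟨H, N1, hN1⟩ := hlocu K f μ B s' ε hf hB0 hε
  choose N2 hN2 using fun i => hlocq K (γ i) (b i) (e i) (c i) 1 B (hγ i) (hb i) (hce i) monic_one
    (hdvd i) hB0 H
  refine ⟨B, H, N1 + (∑ i, N2 i), hB0, fun m hm P hP => ?_⟩
  have hmN : ∀ i, N2 i ≤ m := fun i => by
    have := Finset.single_le_sum (f := N2) (fun j _ => Nat.zero_le _) (Finset.mem_univ i)
    omega
  -- the data in the windows
  have hloc : ∀ a : K[X], ∃ (σ : ℂ) (Q : K[X] → ℂ), ‖σ‖ ≤ 1 ∧ Ph s' Q ∧ (a ∈ Mn K m →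
      ∀ u : K[X], u.degree < (H : WithBot ℕ) →
        P a u * (((∏ i, (lio ((a + B * u) ^ 2 + c i) : ℝ)) : ℝ) : ℂ) = σ * Q u) := by
    intro a
    by_cases ha : a ∈ Mn K m
    · have ha' := mem_Mn.1 ha
      choose σ Q hσ hQ hQu using fun i => hN2 i a ha'.1 (by rw [ha'.2]; exact hmN i)
      refine ⟨∏ i, σ i, fun u => P a u * ∏ i, Q i u, ?_, ?_, fun _ u hu => ?_⟩
      · rw [norm_prod]
        exact Finset.prod_le_one (fun i _ => norm_nonneg _) fun i _ => hσ i
      · refine hphl.1 K[X] s' _ _ ?_ ?_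
        · exact ph_mono hphl hs1 (hP a)
        · exact ph_prod hphl (by omega) Finset.univ Q fun i _ => ph_mono hphl hs3 (hQ i)
      · have h1 : (((∏ i, (lio ((a + B * u) ^ 2 + c i) : ℝ)) : ℝ) : ℂ) =
            ∏ i, (σ i * Q i u) := by
          rw [Complex.ofReal_prod]
          refine Finset.prod_congr rfl fun i _ => ?_
          have h2 := hQu i u hu
          rw [one_mul] at h2
          exact h2
        rw [h1, Finset.prod_mul_distrib]
        ring
    · exact ⟨0, fun _ => 1, by simp, ph_one hphl (by omega), fun h => absurd h ha⟩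
  choose σ Q hσ hQ hQu using hloc
  have hset : {u : K[X] | u.degree < (H : WithBot ℕ)} = ((UH K H : Finset K[X]) : Set K[X]) := by
    ext u
    exact mem_UH.symm
  have hmain := hN1 m (by omega) Q hQ
  simp only [hset, finsum_mem_coe_finset] at hmain ⊢
  refine (Finset.sum_le_sum fun a ha => ?_).trans hmain
  have h1 : ∑ u ∈ UH K H, (((lio (f.eval (a + B * u)) : ℝ) *
      ∏ i, (lio ((a + B * u) ^ 2 + c i) : ℝ) : ℝ) : ℂ) * P a u =
      σ a * ∑ u ∈ UH K H, ((lio (f.eval (a + B * u)) : ℝ) : ℂ) * Q a u := by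
    rw [Finset.mul_sum]
    refine Finset.sum_congr rfl fun u hu => ?_
    have h2 := hQu a ha u (mem_UH.1 hu)
    rw [Complex.ofReal_mul]
    linear_combination ((lio (f.eval (a + B * u)) : ℝ) : ℂ) * h2
  rw [h1, norm_mul]
  exact mul_le_of_le_one_left (norm_nonneg _) (hσ a)

end Pool.Agent.H526.PE.LuaAsm
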