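import Pool.Agent.H526.PE.StmU
import Pool.Agent.H526.PE.G1Asm

/-!
# Task LUB of the project PE (helper339, for helper526)
-/

set_option autoImplicit false
set_option linter.unusedSectionVars false

namespace Pool.Agent.H526.PE.LubAsm

open Polynomial
open scoped Classical ComplexConjugate
open Pool.Agent.H694.Typ (Mn mem_Mn card_Mn)
open Pool.Agent.H526.PE.G1Asm (UH mem_UH card_UH add_mem deg_mul)

section

variable {K : Type} [Field K] [Fintype K]

theorem uniq {B r r' y y' : K[X]} (hB : B ≠ 0) (hr : r.degree < B.degree)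
    (hr' : r'.degree < B.degree) (h : r + B * y = r' + B * y') : r = r' ∧ y = y' := by
  have h1 : B ∣ r - r' := ⟨y' - y, by linear_combination h⟩
  have h2 : r - r' = 0 := eq_zero_of_dvd_of_degree_lt h1
    ((degree_sub_le _ _).trans_lt (max_lt hr hr'))
  have h3 : r = r' := sub_eq_zero.1 h2
  refine ⟨h3, ?_⟩
  rw [h3] at h
  exact mul_left_cancel₀ hB (add_left_cancel h)

theorem shiftR {m : ℕ} (Φ : K[X] → ℝ) {w : K[X]} (hw : w.degree < (m : WithBot ℕ)) :
    ∑ a ∈ Mn K m, Φ (a + w) = ∑ a ∈ Mn K m, Φ a := by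
  refine Finset.sum_nbij' (fun a => a + w) (fun a => a - w) (fun a ha => add_mem ha hw)
    (fun a ha => ?_) (fun a _ => add_sub_cancel_right a w) (fun a _ => sub_add_cancel a w)
    (fun a _ => rfl)
  rw [sub_eq_add_neg]
  exact add_mem ha (by rwa [degree_neg])

/-- the index set of the windows -/
noncomputable def TT (K : Type) [Field K] [Fintype K] (b h : ℕ) : Finset (K[X] × K[X]) :=
  UH K b ×ˢ UH K h

/-- the translation of a window -/
noncomputable def tt (B : K[X]) (H : ℕ) (p : K[X] × K[X]) : K[X] := p.1 + B * (X ^ H * p.2)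

theorem tt_deg {B : K[X]} {H h H' : ℕ} (hB : B ≠ 0) (hH : H' = B.natDegree + H + h)
    {p : K[X] × K[X]} (hp : p ∈ TT K B.natDegree h) : (tt B H p).degree < (H' : WithBot ℕ) := by
  rw [TT, Finset.mem_product, mem_UH, mem_UH] at hp
  have h1 : (X ^ H * p.2).degree < ((H + h : ℕ) : WithBot ℕ) :=
    deg_mul (pow_ne_zero _ X_ne_zero) hp.2 (by rw [natDegree_X_pow])
  have h2 : (B * (X ^ H * p.2)).degree < (H' : WithBot ℕ) := deg_mul hB h1 (by omega)
  have h3 : p.1.degree < (H' : WithBot ℕ) :=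
    hp.1.trans_le (by exact_mod_cast (by omega : B.natDegree ≤ H'))
  exact (degree_add_le _ _).trans_lt (max_lt h3 h2)

theorem split {B : K[X]} {H h H' : ℕ} (hB : B ≠ 0) (hH : H' = B.natDegree + H + h)
    (F : K[X] → ℂ) :
    ∑ u ∈ UH K H', F u = ∑ p ∈ TT K B.natDegree h, ∑ v ∈ UH K H, F (tt B H p + B * v) := by
  rw [← Finset.sum_product']
  have hinj : Set.InjOn (fun x : (K[X] × K[X]) × K[X] => tt B H x.1 + B * x.2)
      (((TT K B.natDegree h) ×ˢ UH K H : Finset ((K[X] × K[X]) × K[X])) :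
        Set ((K[X] × K[X]) × K[X])) := by
    rintro ⟨⟨r, w⟩, v⟩ hx ⟨⟨r', w'⟩, v'⟩ hx' he
    simp only [TT, Finset.coe_product, Set.mem_prod, Finset.mem_coe, mem_UH] at hx hx'
    simp only [tt] at he
    have hBd : B.degree = (B.natDegree : WithBot ℕ) := degree_eq_natDegree hB
    obtain ⟨h1, h2⟩ := uniq (r := r) (r' := r') (y := v + X ^ H * w) (y' := v' + X ^ H * w') hB
      (by rw [hBd]; exact hx.1.1) (by rw [hBd]; exact hx'.1.1) (by linear_combination he)
    obtain ⟨h3, h4⟩ := uniq (B := (X ^ H : K[X])) (pow_ne_zero _ X_ne_zero)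
      (by rw [degree_X_pow]; exact hx.2) (by rw [degree_X_pow]; exact hx'.2) h2
    rw [h1, h3, h4]
  have himg : ((TT K B.natDegree h) ×ˢ UH K H).image
      (fun x : (K[X] × K[X]) × K[X] => tt B H x.1 + B * x.2) = UH K H' := by
    refine Finset.eq_of_subset_of_card_le ?_ ?_
    · intro u hu
      rw [Finset.mem_image] at hu
      obtain ⟨⟨p, v⟩, hx, rfl⟩ := hu
      rw [Finset.mem_product, mem_UH] at hx
      rw [mem_UH]
      exact (degree_add_le _ _).trans_lt (max_lt (tt_deg hB hH hx.1)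
        (deg_mul hB hx.2 (by omega)))
    · rw [Finset.card_image_of_injOn hinj, Finset.card_product, TT, Finset.card_product, card_UH,
        card_UH, card_UH, card_UH, ← pow_add, ← pow_add]
      exact le_of_eq (by rw [hH]; ring)
  rw [← himg, Finset.sum_image hinj]

end

theorem main : S_lubasm := by
  intro hphl K _ _ W s ε B H N hB hloc
  refine ⟨max N (B.natDegree + H), fun H' d hH' hd P hP => ?_⟩
  have hN : N ≤ H' := (le_max_left _ _).trans hH'
  have hB' : B.natDegree + H ≤ H' := (le_max_right _ _).trans hH'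
  obtain ⟨h, hh⟩ : ∃ h, H' = B.natDegree + H + h := ⟨H' - (B.natDegree + H), by omega⟩
  have hset : ∀ n : ℕ, {u : K[X] | u.degree < (n : WithBot ℕ)} =
      ((UH K n : Finset K[X]) : Set K[X]) := by
    intro n
    ext u
    exact mem_UH.symm
  have hl := hloc d (by omega)
  unfold LocU at hl
  simp only [hset, finsum_mem_coe_finset] at hl ⊢
  have h1 : ∀ a ∈ Mn K d, ‖∑ u ∈ UH K H', W (a + 1 * u) * P a u‖ ≤
      ∑ p ∈ TT K B.natDegree h, ‖∑ v ∈ UH K H,
        W (a + tt B H p + B * v) * P (a + tt B H p - tt B H p) (tt B H p + B * v)‖ := by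
    intro a _
    rw [split hB hh]
    refine (norm_sum_le _ _).trans (le_of_eq (Finset.sum_congr rfl fun p _ => ?_))
    congr 1
    refine Finset.sum_congr rfl fun v _ => ?_
    rw [one_mul, add_sub_cancel_right, ← add_assoc]
  refine (Finset.sum_le_sum h1).trans ?_
  rw [Finset.sum_comm]
  have h2 : ∀ p ∈ TT K B.natDegree h, ∑ a ∈ Mn K d, ‖∑ v ∈ UH K H,
        W (a + tt B H p + B * v) * P (a + tt B H p - tt B H p) (tt B H p + B * v)‖ ≤
      ε * (Fintype.card K : ℝ) ^ (d + H) := by
    intro p hp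
    have hdeg : (tt B H p).degree < (d : WithBot ℕ) :=
      (tt_deg hB hh hp).trans_le (by exact_mod_cast hd.le)
    rw [shiftR (fun a => ‖∑ v ∈ UH K H, W (a + B * v) * P (a - tt B H p) (tt B H p + B * v)‖) hdeg]
    exact hl (fun a v => P (a - tt B H p) (tt B H p + B * v))
      (fun a => hphl.2.2.2.1 K[X] K[X] s (P (a - tt B H p)) (AddMonoidHom.mulLeft B) (tt B H p)
        (hP _))
  refine (Finset.sum_le_sum h2).trans (le_of_eq ?_)
  rw [Finset.sum_const, nsmul_eq_mul, TT, Finset.card_product, card_UH, card_UH, hh]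
  push_cast
  ring

end Pool.Agent.H526.PE.LubAsm
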