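import Pool.Agent.H526.PE.Final
import Pool.Agent.H526.PE.LuaAsm
import Pool.Agent.H526.PE.LubAsm

/-!
# Local uniformity: the final theorem
-/

namespace Pool.Agent.H526.PE

theorem s_lua : S_lua := LuaAsm.main s_locu s_locq Phl.main

theorem s_lub : S_lub := LubAsm.main Phl.main

end Pool.Agent.H526.PE
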