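import Pool.Agent.H526.PE.StmH
import Pool.Agent.H526.PE.G2Asm

/-!
# Task G2H (helper876, for helper526)
-/

set_option autoImplicit false

namespace Pool.Agent.H526.PE.G2hAsm

open Polynomial
open scoped Classical ComplexConjugate
open Pool.Agent.H694.Typ (Mn mem_Mn)
open Pool.Agent.H526.PE
open Pool.Agent.H526.PE.G2Asm

section

variable {K : Type} [Field K]

theorem comp_ne {h : K[X][X]} (hh : h ≠ 0) {P : K[X]} (hP : P ≠ 0) : h.comp (C P * X) ≠ 0 := by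
  intro h0
  apply hh
  ext1 n
  have h1 : (h.comp (C P * X)).coeff n = 0 := by rw [h0, coeff_zero]
  rw [comp_C_mul_X_coeff] at h1
  rw [coeff_zero]
  exact (mul_eq_zero.1 h1).resolve_right (pow_ne_zero n hP)

theorem der_comp {h : K[X][X]} (hh : derivative h = 0) (P : K[X]) :
    derivative (h.comp (C P * X)) = 0 := by
  rw [derivative_comp, hh, zero_comp, mul_zero]

theorem eval_f {k : ℕ} (α β : Fin k → K[X]) (P₁ Q₁ B : K[X]) :
    (∏ x : Fin k × Bool, (C (α x.1 * RR P₁ Q₁ x.2) * X + C (β x.1)) : K[X][X]).eval B =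
      (∏ j, (α j * (P₁ * B) + β j)) * ∏ j, (α j * (Q₁ * B) + β j) := by
  rw [eval_prod_lin (fun x : Fin k × Bool => α x.1 * RR P₁ Q₁ x.2) (fun x => β x.1),
    Fintype.prod_prod_type, ← Finset.prod_mul_distrib]
  refine Finset.prod_congr rfl fun j _ => ?_
  rw [Fintype.prod_bool]
  change (α j * P₁ * B + β j) * (α j * Q₁ * B + β j) = _
  rw [mul_assoc, mul_assoc]

end

theorem pairh {K : Type} [Field K] [Fintype K] [CharP K 2] (hM : S_mhw)
    {k : ℕ} {α β : Fin k → K[X]} {h : K[X][X]} (hk : 1 ≤ k) (hα : ∀ j, α j ≠ 0)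
    (hβ : ∀ j, β j ≠ 0) (hαβ : ∀ i j, i ≠ j → α i * β j ≠ α j * β i) (hh : h ≠ 0)
    (hd : derivative h = 0) {P₁ Q₁ : K[X]} (hP : P₁.Monic) (hQ : Q₁.Monic)
    (hPi : Irreducible P₁) (hQi : Irreducible Q₁) (hne : P₁ ≠ Q₁)
    (hPd : ∀ i j, (α i * β j).natDegree < P₁.natDegree)
    (hQd : ∀ i j, (α i * β j).natDegree < Q₁.natDegree) (ε : ℝ) (hε : 0 < ε) :
    ∃ d₀ : ℕ, ∀ d : ℕ, d₀ ≤ d →
      ‖∑ B ∈ Mn K d, ((lio ((∏ j, (α j * (P₁ * B) + β j)) * h.eval (P₁ * B)) : ℝ) : ℂ) *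
        conj ((lio ((∏ j, (α j * (Q₁ * B) + β j)) * h.eval (Q₁ * B)) : ℝ) : ℂ)‖ ≤
        ε * (Fintype.card K : ℝ) ^ d := by
  have hR : ∀ t, RR P₁ Q₁ t ≠ 0 := by
    intro t
    cases t
    · exact hQ.ne_zero
    · exact hP.ne_zero
  have : Nonempty (Fin k) := ⟨⟨0, hk⟩⟩
  have hf := adf_prod (fun x : Fin k × Bool => α x.1 * RR P₁ Q₁ x.2) (fun x => β x.1)
    (fun x => mul_ne_zero (hα _) (hR _)) (det_ne hα hβ hαβ hP hQ hPi hQi hne hPd hQd)
  have hev := eval_f α β P₁ Q₁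
  generalize (∏ x : Fin k × Bool, (C (α x.1 * RR P₁ Q₁ x.2) * X + C (β x.1)) : K[X][X]) = f
    at hf hev
  have h2ne : h.comp (C P₁ * X) * h.comp (C Q₁ * X) ≠ 0 :=
    mul_ne_zero (comp_ne hh hP.ne_zero) (comp_ne hh hQ.ne_zero)
  have h2d : derivative (h.comp (C P₁ * X) * h.comp (C Q₁ * X)) = 0 := by
    rw [derivative_mul, der_comp hd, der_comp hd, zero_mul, mul_zero, add_zero]
  obtain ⟨n₀, hn₀⟩ := hM K f _ 1 hf h2ne h2d ε hε
  refine ⟨n₀, fun d hd' => ?_⟩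
  have h3 := hn₀ d hd'
  have h4 : ∀ B : K[X], ((lio ((∏ j, (α j * (P₁ * B) + β j)) * h.eval (P₁ * B)) : ℝ) : ℂ) *
        conj ((lio ((∏ j, (α j * (Q₁ * B) + β j)) * h.eval (Q₁ * B)) : ℝ) : ℂ) =
      ((lio (f.eval B * (h.comp (C P₁ * X) * h.comp (C Q₁ * X)).eval B) : ℝ) : ℂ) := by
    intro B
    rw [Complex.conj_ofReal, ← Complex.ofReal_mul, ← Int.cast_mul, ← lio_mul]
    congr 3
    rw [hev, eval_mul, eval_comp, eval_comp, eval_mul, eval_mul, eval_C, eval_C, eval_X]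
    ring
  rw [Finset.sum_congr rfl fun B _ => h4 B, ← Complex.ofReal_sum, Complex.norm_real,
    Real.norm_eq_abs]
  exact h3

theorem main : S_g2hasm := by
  intro hM hK K _ _ _ k α β h ε hk hα hβ hαβ hh hd hε
  have hmain := hK K {fun a => ((lio ((∏ j, (α j * a + β j)) * h.eval a) : ℝ) : ℂ)}
    (1 + ∑ i, ∑ j, (α i * β j).natDegree) ?_ ?_ ε hε
  · obtain ⟨m₀, hm₀⟩ := hmain
    exact ⟨m₀, fun m hm F hF => hm₀ m hm _ (Set.mem_singleton _) F hF⟩
  · intro g hg f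
    rw [Set.mem_singleton_iff] at hg
    subst hg
    change ‖((lio ((∏ j, (α j * f + β j)) * h.eval f) : ℝ) : ℂ)‖ ≤ 1
    rw [Complex.norm_real]
    exact abs_lio _
  · intro P₁ Q₁ hP hQ hPi hQi hne hdeg hz ε' hε'
    have hle : ∀ i j, (α i * β j).natDegree ≤ ∑ i, ∑ j, (α i * β j).natDegree := by
      intro i j
      refine le_trans ?_ (Finset.single_le_sum (f := fun i => ∑ j, (α i * β j).natDegree)
        (fun i _ => Nat.zero_le _) (Finset.mem_univ i))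
      exact Finset.single_le_sum (f := fun j => (α i * β j).natDegree)
        (fun i _ => Nat.zero_le _) (Finset.mem_univ j)
    obtain ⟨d₀, hd₀⟩ := pairh hM hk hα hβ hαβ hh hd hP hQ hPi hQi hne
      (fun i j => by have := hle i j; omega) (fun i j => by have := hle i j; omega) ε' hε'
    refine ⟨d₀, fun d hdd g hg => ?_⟩
    rw [Set.mem_singleton_iff] at hg
    subst hg
    exact hd₀ d hdd

end Pool.Agent.H526.PE.G2hAsm
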