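import Pool.Agent.H526.PE.StmM
import Pool.Agent.H524.Cw.Lio

/-!
# Task G2M (helper274, for helper526): a multiplicative function, linear forms and inseparable factors

The lemmas on products of linear forms are those of `Pool/Agent/H526/PE/G2Asm.lean` (helper328).
-/

set_option autoImplicit false

namespace Pool.Agent.H526.PE.G2mAsm

open Polynomial
open scoped Classical ComplexConjugate
open Pool.Agent.H694.Typ (Mn mem_Mn)
open Pool.Agent.H526.PE

/-! ### the Liouville function -/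

section lio

variable {K : Type} [Field K]

theorem lio_mul (F G : K[X]) : lio (F * G) = lio F * lio G := Pool.Agent.H524.Cw.lio_mul F G

theorem abs_lio (F : K[X]) : |(lio F : ℝ)| ≤ 1 := Pool.Agent.H524.Cw.abs_lio F

end lio

/-! ### products of linear forms -/

section lin

theorem sep_prod {F ι : Type} [Field F] [Fintype ι] (A b : ι → F) (hA : ∀ x, A x ≠ 0)
    (hAb : ∀ x y, x ≠ y → A x * b y ≠ A y * b x) : (∏ x, (C (A x) * X + C (b x))).Separable := by
  refine separable_prod' (fun x _ y _ hxy => ?_) fun x _ => ?_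
  · have hd : A x * b y - A y * b x ≠ 0 := sub_ne_zero.2 (hAb x y hxy)
    refine ⟨-(C (A x * b y - A y * b x)⁻¹ * C (A y)), C (A x * b y - A y * b x)⁻¹ * C (A x), ?_⟩
    have h1 : -(C (A x * b y - A y * b x)⁻¹ * C (A y)) * (C (A x) * X + C (b x)) +
        C (A x * b y - A y * b x)⁻¹ * C (A x) * (C (A y) * X + C (b y)) =
        C ((A x * b y - A y * b x)⁻¹ * (A x * b y - A y * b x)) := by
      rw [C_mul, C_sub, C_mul, C_mul]
      ring
    rw [h1, inv_mul_cancel₀ hd, C_1]
  · have h1 : derivative (C (A x) * X + C (b x)) = C (A x) := by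
      rw [derivative_add, derivative_mul, derivative_C, derivative_X, derivative_C]
      ring
    rw [Separable, h1]
    refine ⟨0, C (A x)⁻¹, ?_⟩
    rw [zero_mul, zero_add, ← C_mul, inv_mul_cancel₀ (hA x), C_1]

theorem eval_prod_lin {K : Type} [Field K] {ι : Type} [Fintype ι] (A b : ι → K[X]) (B : K[X]) :
    (∏ x, (C (A x) * X + C (b x)) : K[X][X]).eval B = ∏ x, (A x * B + b x) := by
  rw [eval_prod]
  refine Finset.prod_congr rfl fun x _ => ?_
  rw [eval_add, eval_mul, eval_C, eval_X, eval_C]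

theorem adf_prod {K : Type} [Field K] {ι : Type} [Fintype ι] [Nonempty ι] (A b : ι → K[X])
    (hA : ∀ x, A x ≠ 0) (hAb : ∀ x y, x ≠ y → A x * b y ≠ A y * b x) :
    Adf (∏ x, (C (A x) * X + C (b x)) : K[X][X]) 1 := by
  have hinj := RatFunc.algebraMap_injective K
  refine ⟨?_, ?_, one_ne_zero, ?_⟩
  · have h1 : ∀ x ∈ (Finset.univ : Finset ι), (C (A x) * X + C (b x) : K[X][X]) ≠ 0 := by
      intro x _ h0
      have := natDegree_linear (a := A x) (b := b x) (hA x)
      rw [h0, natDegree_zero] at this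
      omega
    rw [natDegree_prod _ _ h1, Finset.sum_congr rfl fun x _ => natDegree_linear (hA x),
      Finset.sum_const, Finset.card_univ, smul_eq_mul, mul_one]
    exact Fintype.card_pos
  · have h1 : (∏ x, (C (A x) * X + C (b x)) : K[X][X]).map (algebraMap K[X] (RatFunc K)) =
        ∏ x, (C (algebraMap K[X] (RatFunc K) (A x)) * X +
          C (algebraMap K[X] (RatFunc K) (b x))) := by
      rw [Polynomial.map_prod]
      refine Finset.prod_congr rfl fun x _ => ?_
      rw [Polynomial.map_add, Polynomial.map_mul, map_C, map_X, map_C]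
    rw [h1]
    refine sep_prod _ _ (fun x h0 => hA x (hinj (by rw [h0, map_zero]))) fun x y hxy h0 => ?_
    rw [← map_mul, ← map_mul] at h0
    exact hAb x y hxy (hinj h0)
  · intro θ hθ
    rw [map_prod, Finset.prod_eq_zero_iff] at hθ
    obtain ⟨x, _, hx⟩ := hθ
    rw [map_add, map_mul, aeval_C, aeval_C, aeval_X] at hx
    refine ⟨algebraMap K[X] (RatFunc K) (b x) / algebraMap K[X] (RatFunc K) (A x), 0, ?_, ?_⟩
    · have h0 := isSeparable_algebraMap (F := RatFunc K) (K := AlgebraicClosure (RatFunc K)) 0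
      rwa [map_zero] at h0
    · rw [IsScalarTower.algebraMap_apply K[X] (RatFunc K) (AlgebraicClosure (RatFunc K)),
        IsScalarTower.algebraMap_apply K[X] (RatFunc K) (AlgebraicClosure (RatFunc K))] at hx
      have hA0 : algebraMap (RatFunc K) (AlgebraicClosure (RatFunc K))
          (algebraMap K[X] (RatFunc K) (A x)) ≠ 0 := by
        intro h0
        have h1 : algebraMap K[X] (RatFunc K) (A x) = 0 :=
          (algebraMap (RatFunc K) (AlgebraicClosure (RatFunc K))).injective (by rw [h0, map_zero])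
        exact hA x (hinj (by rw [h1, map_zero]))
      rw [map_one, one_mul, map_div₀, zero_pow (by norm_num)]
      have h2 : θ + algebraMap (RatFunc K) (AlgebraicClosure (RatFunc K))
          (algebraMap K[X] (RatFunc K) (b x)) / algebraMap (RatFunc K)
          (AlgebraicClosure (RatFunc K)) (algebraMap K[X] (RatFunc K) (A x)) =
          (algebraMap (RatFunc K) (AlgebraicClosure (RatFunc K))
            (algebraMap K[X] (RatFunc K) (A x)) * θ +
          algebraMap (RatFunc K) (AlgebraicClosure (RatFunc K))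
            (algebraMap K[X] (RatFunc K) (b x))) / algebraMap (RatFunc K)
          (AlgebraicClosure (RatFunc K)) (algebraMap K[X] (RatFunc K) (A x)) := by
        rw [add_div, mul_div_cancel_left₀ _ hA0]
      rw [h2, hx, zero_div]

end lin

/-! ### two primes -/

section pair

variable {K : Type} [Field K]

/-- the product of all factors -/
noncomputable def FF {k n : ℕ} (α β : Fin k → K[X]) (δ c : Fin n → K[X]) (A : Fin n → K[X][X])
    (a : K[X]) : K[X] :=
  (∏ j, (α j * a + β j)) * ∏ i, (δ i * ((A i).eval a) ^ 2 + c i)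

/-- the two primes -/
def RR (P₁ Q₁ : K[X]) : Bool → K[X]
  | true => P₁
  | false => Q₁

theorem det_ne {k : ℕ} {α β : Fin k → K[X]} (hα : ∀ j, α j ≠ 0) (hβ : ∀ j, β j ≠ 0)
    (hαβ : ∀ i j, i ≠ j → α i * β j ≠ α j * β i) {P₁ Q₁ : K[X]} (hP : P₁.Monic) (hQ : Q₁.Monic)
    (hPi : Irreducible P₁) (hQi : Irreducible Q₁) (hne : P₁ ≠ Q₁)
    (hPd : ∀ i j, (α i * β j).natDegree < P₁.natDegree)
    (hQd : ∀ i j, (α i * β j).natDegree < Q₁.natDegree) (x y : Fin k × Bool) (hxy : x ≠ y) :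
    α x.1 * RR P₁ Q₁ x.2 * β y.1 ≠ α y.1 * RR P₁ Q₁ y.2 * β x.1 := by
  have hR : ∀ t, RR P₁ Q₁ t ≠ 0 := by
    intro t
    cases t
    · exact hQ.ne_zero
    · exact hP.ne_zero
  have key : ∀ (R S : K[X]) (i j : Fin k), R.Monic → S.Monic → Irreducible R → Irreducible S →
      R ≠ S → (α j * β i).natDegree < R.natDegree → α i * R * β j ≠ α j * S * β i := by
    intro R S i j hRm hSm hRi hSi hRS hd h
    have h1 : R ∣ S * (α j * β i) := ⟨α i * β j, by linear_combination -h⟩
    rcases hRi.prime.dvd_or_dvd h1 with h2 | h2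
    · exact hRS (eq_of_monic_of_associated hRm hSm (hRi.associated_of_dvd hSi h2))
    · have h3 := natDegree_le_of_dvd h2 (mul_ne_zero (hα j) (hβ i))
      omega
  obtain ⟨i, t⟩ := x
  obtain ⟨j, t'⟩ := y
  intro h
  by_cases ht : t = t'
  · subst ht
    have hij : i ≠ j := fun h0 => hxy (by rw [h0])
    apply hαβ i j hij
    apply mul_left_cancel₀ (hR t)
    linear_combination h
  · cases t <;> cases t'
    · exact ht rfl
    · exact key Q₁ P₁ i j hQ hP hQi hPi hne.symm (hQd j i) h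
    · exact key P₁ Q₁ i j hP hQ hPi hQi hne (hPd j i) h
    · exact ht rfl

theorem eval_lin {k : ℕ} (α β : Fin k → K[X]) (P₁ Q₁ B : K[X]) :
    (∏ x : Fin k × Bool, (C (α x.1 * RR P₁ Q₁ x.2) * X + C (β x.1)) : K[X][X]).eval B =
      (∏ j, (α j * (P₁ * B) + β j)) * ∏ j, (α j * (Q₁ * B) + β j) := by
  rw [eval_prod_lin (fun x : Fin k × Bool => α x.1 * RR P₁ Q₁ x.2) (fun x => β x.1),
    Fintype.prod_prod_type, ← Finset.prod_mul_distrib]
  refine Finset.prod_congr rfl fun j _ => ?_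
  rw [Fintype.prod_bool]
  change (α j * P₁ * B + β j) * (α j * Q₁ * B + β j) = _
  rw [mul_assoc, mul_assoc]

theorem prod_app {n : ℕ} (δ c : Fin n → K[X]) (A : Fin n → K[X][X]) (P₁ Q₁ B : K[X]) :
    ∏ i : Fin (n + n), (Fin.append δ δ i *
      ((Fin.append (fun i => (A i).comp (C P₁ * X)) (fun i => (A i).comp (C Q₁ * X)) i).eval B) ^ 2 +
        Fin.append c c i) =
      (∏ i, (δ i * ((A i).eval (P₁ * B)) ^ 2 + c i)) *
        ∏ i, (δ i * ((A i).eval (Q₁ * B)) ^ 2 + c i) := by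
  rw [Fin.prod_univ_add]
  have h1 : ∀ (R : K[X]) (i : Fin n), ((A i).comp (C R * X)).eval B = (A i).eval (R * B) := by
    intro R i
    rw [eval_comp, eval_mul, eval_C, eval_X]
  simp only [Fin.append_left, Fin.append_right, h1]

end pair

theorem pair {K : Type} [Field K] [Fintype K] [CharP K 2] (hm : S_mixw)
    {k n : ℕ} {α β : Fin k → K[X]} {δ c : Fin n → K[X]} {A : Fin n → K[X][X]} (hk : 1 ≤ k)
    (hα : ∀ j, α j ≠ 0) (hβ : ∀ j, β j ≠ 0) (hαβ : ∀ i j, i ≠ j → α i * β j ≠ α j * β i)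
    (hδ : ∀ i, δ i ≠ 0) (hc : ∀ i, ¬ IsSquare (δ i * c i))
    {P₁ Q₁ : K[X]} (hP : P₁.Monic) (hQ : Q₁.Monic)
    (hPi : Irreducible P₁) (hQi : Irreducible Q₁) (hne : P₁ ≠ Q₁)
    (hPd : ∀ i j, (α i * β j).natDegree < P₁.natDegree)
    (hQd : ∀ i j, (α i * β j).natDegree < Q₁.natDegree) (ε : ℝ) (hε : 0 < ε) :
    ∃ d₀ : ℕ, ∀ d : ℕ, d₀ ≤ d →
      ‖∑ B ∈ Mn K d, ((lio (FF α β δ c A (P₁ * B)) : ℝ) : ℂ) *
        conj ((lio (FF α β δ c A (Q₁ * B)) : ℝ) : ℂ)‖ ≤ ε * (Fintype.card K : ℝ) ^ d := by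
  have hR : ∀ t, RR P₁ Q₁ t ≠ 0 := by
    intro t
    cases t
    · exact hQ.ne_zero
    · exact hP.ne_zero
  have : Nonempty (Fin k) := ⟨⟨0, hk⟩⟩
  have hf := adf_prod (fun x : Fin k × Bool => α x.1 * RR P₁ Q₁ x.2) (fun x => β x.1)
    (fun x => mul_ne_zero (hα _) (hR _)) (det_ne hα hβ hαβ hP hQ hPi hQi hne hPd hQd)
  have h1 : ∀ i : Fin (n + n), Fin.append δ δ i ≠ 0 := by
    intro i
    refine Fin.addCases (fun i => ?_) (fun i => ?_) i
    · rw [Fin.append_left]
      exact hδ i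
    · rw [Fin.append_right]
      exact hδ i
  have h2 : ∀ i : Fin (n + n), ¬ IsSquare (Fin.append δ δ i * Fin.append c c i) := by
    intro i
    refine Fin.addCases (fun i => ?_) (fun i => ?_) i
    · rw [Fin.append_left, Fin.append_left]
      exact hc i
    · rw [Fin.append_right, Fin.append_right]
      exact hc i
  obtain ⟨d₀, hd₀⟩ := hm K _ 1 (n + n) (Fin.append δ δ) (Fin.append c c)
    (Fin.append (fun i => (A i).comp (C P₁ * X)) (fun i => (A i).comp (C Q₁ * X))) hf h1 h2 ε hε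
  refine ⟨d₀, fun d hd => ?_⟩
  have h3 := hd₀ d hd
  have h4 : ∑ B ∈ Mn K d, ((lio (FF α β δ c A (P₁ * B)) : ℝ) : ℂ) *
        conj ((lio (FF α β δ c A (Q₁ * B)) : ℝ) : ℂ) =
      ((∑ B ∈ Mn K d, (lio ((∏ x : Fin k × Bool,
        (C (α x.1 * RR P₁ Q₁ x.2) * X + C (β x.1)) : K[X][X]).eval B *
        ∏ i : Fin (n + n), (Fin.append δ δ i *
      ((Fin.append (fun i => (A i).comp (C P₁ * X)) (fun i => (A i).comp (C Q₁ * X)) i).eval B) ^ 2 +
        Fin.append c c i)) : ℝ) : ℝ) : ℂ) := by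
    rw [Complex.ofReal_sum]
    refine Finset.sum_congr rfl fun B _ => ?_
    rw [eval_lin, prod_app, Complex.conj_ofReal, ← Complex.ofReal_mul]
    congr 1
    have h5 : (∏ j, (α j * (P₁ * B) + β j)) * (∏ j, (α j * (Q₁ * B) + β j)) *
        ((∏ i, (δ i * ((A i).eval (P₁ * B)) ^ 2 + c i)) *
        ∏ i, (δ i * ((A i).eval (Q₁ * B)) ^ 2 + c i)) =
        FF α β δ c A (P₁ * B) * FF α β δ c A (Q₁ * B) := by
      unfold FF
      ring
    rw [h5, lio_mul]
    push_cast
    ring
  rw [h4, Complex.norm_real, Real.norm_eq_abs]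
  exact h3

theorem main : Pool.Agent.H526.PE.S_g2masm := by
  intro hm hK K _ _ _ k n α β δ c A ε hk hα hβ hαβ hδ hc hε
  have h := hK K {fun a => ((lio (FF α β δ c A a) : ℝ) : ℂ)}
    (1 + ∑ i, ∑ j, (α i * β j).natDegree) ?_ ?_ ε hε
  · obtain ⟨m₀, hm₀⟩ := h
    exact ⟨m₀, fun m hmm F hF => hm₀ m hmm _ rfl F hF⟩
  · rintro g rfl f
    change ‖((lio (FF α β δ c A f) : ℝ) : ℂ)‖ ≤ 1
    rw [Complex.norm_real]
    exact abs_lio _
  · intro P₁ Q₁ hP hQ hPi hQi hne hdeg hz ε' hε'
    have hle : ∀ i j, (α i * β j).natDegree ≤ ∑ i, ∑ j, (α i * β j).natDegree := by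
      intro i j
      refine le_trans ?_ (Finset.single_le_sum (f := fun i => ∑ j, (α i * β j).natDegree)
        (fun i _ => Nat.zero_le _) (Finset.mem_univ i))
      exact Finset.single_le_sum (f := fun j => (α i * β j).natDegree)
        (fun i _ => Nat.zero_le _) (Finset.mem_univ j)
    obtain ⟨d₀, hd₀⟩ := pair (A := A) hm hk hα hβ hαβ hδ hc hP hQ hPi hQi hne
      (fun i j => by have := hle i j; omega) (fun i j => by have := hle i j; omega) ε' hε'
    refine ⟨d₀, fun d hd g hg => ?_⟩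
    rw [Set.mem_singleton_iff] at hg
    subst hg
    exact hd₀ d hd

end Pool.Agent.H526.PE.G2mAsm
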