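import Pool.Agent.H526.PE.G2pAsm
import Pool.Agent.H526.PE.Final
import Pool.Agent.H140.MH.All

/-!
# Multiplicative weights, phases, linear forms and arbitrary inseparable factors (helper526)
-/

set_option autoImplicit false

namespace Pool.Agent.H526.PE.G2p

open Polynomial
open scoped Classical ComplexConjugate
open Pool.Agent.H694.Typ (Mn mem_Mn)
open Pool.Agent.H526.PE
open Pool.Agent.H526.PE.G2pAsm

theorem s_mhp : S_mhp := by
  intro K _ _ _ f h μ s hf hh hd ε hε
  obtain ⟨n₀, hn₀⟩ := Pool.Agent.H140.MH.s_fin K f h μ s hf.deg hf.sep hf.ne hf.sq hh hd ε hε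
  refine ⟨n₀, fun n hn P hP => ?_⟩
  have h1 := hn₀ n hn (fun _ => 1) (fun _ => by norm_num)
    (fun _ => ⟨1, fun u => by rw [AddChar.one_apply, mul_one]⟩) P hP
  simp only [one_mul] at h1
  exact h1

theorem s_G2p : S_G2p := main s_mhp Kataiq.main Phl.main

end Pool.Agent.H526.PE.G2p
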