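import Pool.Agent.H526.PE.G2hAsm

/-!
# Multiplicative weights, phases, linear forms and arbitrary inseparable factors (helper526, after
helper876's G2H)
-/

set_option autoImplicit false

namespace Pool.Agent.H526.PE.G2pAsm

open Polynomial
open scoped Classical ComplexConjugate
open Pool.Agent.H694.Typ (Mn mem_Mn)
open Pool.Agent.H526.PE
open Pool.Agent.H526.PE.G2Asm
open Pool.Agent.H526.PE.G2hAsm (comp_ne der_comp eval_f)

/-- The theorem of helper140 (project MH) with phases. -/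
def S_mhp : Prop :=
  ∀ (K : Type) [Field K] [Fintype K] [CharP K 2] (f h : K[X][X]) (μ : K[X]) (s : ℕ), Adf f μ →
    h ≠ 0 → derivative h = 0 → ∀ ε : ℝ, 0 < ε → ∃ n₀ : ℕ, ∀ n : ℕ, n₀ ≤ n →
      ∀ P : K[X] → ℂ, Ph s P →
        ‖∑ g ∈ Mn K n, ((lio (f.eval g * h.eval g) : ℝ) : ℂ) * P g‖ ≤
          ε * (Fintype.card K : ℝ) ^ n

/-- A multiplicative function, a phase, linear forms, and any inseparable factor. -/
def S_G2p : Prop :=
  ∀ (K : Type) [Field K] [Fintype K] [CharP K 2] (k : ℕ) (α β : Fin k → K[X]) (h : K[X][X])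
    (s : ℕ) (ε : ℝ), 1 ≤ k → (∀ j, α j ≠ 0) → (∀ j, β j ≠ 0) →
    (∀ i j, i ≠ j → α i * β j ≠ α j * β i) → h ≠ 0 → derivative h = 0 → 0 < ε →
    ∃ m₀ : ℕ, ∀ m : ℕ, m₀ ≤ m → ∀ P : K[X] → ℂ, Ph s P → ∀ F : K[X] → ℂ, BMult F →
      ‖∑ a ∈ Mn K m, F a * (P a * ((lio ((∏ j, (α j * a + β j)) * h.eval a) : ℝ) : ℂ))‖ ≤
        ε * (Fintype.card K : ℝ) ^ m

theorem pairp {K : Type} [Field K] [Fintype K] [CharP K 2] (hM : S_mhp) (hl : S_phl)
    {k : ℕ} {α β : Fin k → K[X]} {h : K[X][X]} (hk : 1 ≤ k) (hα : ∀ j, α j ≠ 0)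
    (hβ : ∀ j, β j ≠ 0) (hαβ : ∀ i j, i ≠ j → α i * β j ≠ α j * β i) (hh : h ≠ 0)
    (hd : derivative h = 0) {P₁ Q₁ : K[X]} (hP : P₁.Monic) (hQ : Q₁.Monic)
    (hPi : Irreducible P₁) (hQi : Irreducible Q₁) (hne : P₁ ≠ Q₁)
    (hPd : ∀ i j, (α i * β j).natDegree < P₁.natDegree)
    (hQd : ∀ i j, (α i * β j).natDegree < Q₁.natDegree) (s : ℕ) (ε : ℝ) (hε : 0 < ε) :
    ∃ d₀ : ℕ, ∀ d : ℕ, d₀ ≤ d → ∀ P : K[X] → ℂ, Ph s P →
      ‖∑ B ∈ Mn K d,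
        (P (P₁ * B) * ((lio ((∏ j, (α j * (P₁ * B) + β j)) * h.eval (P₁ * B)) : ℝ) : ℂ)) *
        conj (P (Q₁ * B) *
          ((lio ((∏ j, (α j * (Q₁ * B) + β j)) * h.eval (Q₁ * B)) : ℝ) : ℂ))‖ ≤
        ε * (Fintype.card K : ℝ) ^ d := by
  have hR : ∀ t, RR P₁ Q₁ t ≠ 0 := by
    intro t
    cases t
    · exact hQ.ne_zero
    · exact hP.ne_zero
  have : Nonempty (Fin k) := ⟨⟨0, hk⟩⟩
  have hf := adf_prod (fun x : Fin k × Bool => α x.1 * RR P₁ Q₁ x.2) (fun x => β x.1)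
    (fun x => mul_ne_zero (hα _) (hR _)) (det_ne hα hβ hαβ hP hQ hPi hQi hne hPd hQd)
  have hev := eval_f α β P₁ Q₁
  generalize (∏ x : Fin k × Bool, (C (α x.1 * RR P₁ Q₁ x.2) * X + C (β x.1)) : K[X][X]) = f
    at hf hev
  have h2ne : h.comp (C P₁ * X) * h.comp (C Q₁ * X) ≠ 0 :=
    mul_ne_zero (comp_ne hh hP.ne_zero) (comp_ne hh hQ.ne_zero)
  have h2d : derivative (h.comp (C P₁ * X) * h.comp (C Q₁ * X)) = 0 := by
    rw [derivative_mul, der_comp hd, der_comp hd, zero_mul, mul_zero, add_zero]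
  obtain ⟨n₀, hn₀⟩ := hM K f _ 1 s hf h2ne h2d ε hε
  refine ⟨n₀, fun d hd' P hPh => ?_⟩
  have hp1 : Ph s (fun B => P (P₁ * B)) := by
    have := Ph_lin hl hPh P₁ 0 1
    simpa using this
  have hp2 : Ph s (fun B => P (Q₁ * B)) := by
    have := Ph_lin hl hPh Q₁ 0 1
    simpa using this
  have hp3 : Ph s (fun B => P (P₁ * B) * conj (P (Q₁ * B))) :=
    hl.1 _ _ _ _ hp1 (hl.2.1 _ _ _ hp2)
  have h3 := hn₀ d hd' _ hp3
  have h4 : ∀ B : K[X],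
      (P (P₁ * B) * ((lio ((∏ j, (α j * (P₁ * B) + β j)) * h.eval (P₁ * B)) : ℝ) : ℂ)) *
        conj (P (Q₁ * B) *
          ((lio ((∏ j, (α j * (Q₁ * B) + β j)) * h.eval (Q₁ * B)) : ℝ) : ℂ)) =
      ((lio (f.eval B * (h.comp (C P₁ * X) * h.comp (C Q₁ * X)).eval B) : ℝ) : ℂ) *
        (P (P₁ * B) * conj (P (Q₁ * B))) := by
    intro B
    have h5 : ((lio (f.eval B * (h.comp (C P₁ * X) * h.comp (C Q₁ * X)).eval B) : ℝ) : ℂ) =
        ((lio ((∏ j, (α j * (P₁ * B) + β j)) * h.eval (P₁ * B)) : ℝ) : ℂ) *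
          ((lio ((∏ j, (α j * (Q₁ * B) + β j)) * h.eval (Q₁ * B)) : ℝ) : ℂ) := by
      rw [← Complex.ofReal_mul, ← Int.cast_mul, ← lio_mul]
      congr 3
      rw [hev, eval_mul, eval_comp, eval_comp, eval_mul, eval_mul, eval_C, eval_C, eval_X]
      ring
    rw [h5, map_mul, Complex.conj_ofReal]
    ring
  rw [Finset.sum_congr rfl fun B _ => h4 B]
  exact h3

theorem main : S_mhp → S_kataiq → S_phl → S_G2p := by
  intro hM hK hl K _ _ _ k α β h s ε hk hα hβ hαβ hh hd hε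
  have hmain := hK K {g | ∃ P : K[X] → ℂ, Ph s P ∧
    g = fun a => P a * ((lio ((∏ j, (α j * a + β j)) * h.eval a) : ℝ) : ℂ)}
    (1 + ∑ i, ∑ j, (α i * β j).natDegree) ?_ ?_ ε hε
  · obtain ⟨m₀, hm₀⟩ := hmain
    exact ⟨m₀, fun m hm P hP F hF => hm₀ m hm _ ⟨P, hP, rfl⟩ F hF⟩
  · rintro g ⟨P, hP, rfl⟩ f
    change ‖P f * ((lio ((∏ j, (α j * f + β j)) * h.eval f) : ℝ) : ℂ)‖ ≤ 1
    rw [norm_mul, hl.2.2.2.2.1 _ _ _ hP f, one_mul, Complex.norm_real]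
    exact abs_lio _
  · intro P₁ Q₁ hP hQ hPi hQi hne hdeg hz ε' hε'
    have hle : ∀ i j, (α i * β j).natDegree ≤ ∑ i, ∑ j, (α i * β j).natDegree := by
      intro i j
      refine le_trans ?_ (Finset.single_le_sum (f := fun i => ∑ j, (α i * β j).natDegree)
        (fun i _ => Nat.zero_le _) (Finset.mem_univ i))
      exact Finset.single_le_sum (f := fun j => (α i * β j).natDegree)
        (fun i _ => Nat.zero_le _) (Finset.mem_univ j)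
    obtain ⟨d₀, hd₀⟩ := pairp hM hl hk hα hβ hαβ hh hd hP hQ hPi hQi hne
      (fun i j => by have := hle i j; omega) (fun i j => by have := hle i j; omega) s ε' hε'
    refine ⟨d₀, fun d hdd g hg => ?_⟩
    obtain ⟨P, hPh, rfl⟩ := hg
    exact hd₀ d hdd P hPh

end Pool.Agent.H526.PE.G2pAsm
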