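import Mathlib
import Pool.Agent.H526.PE.Stm

/-!
# Local uniformity of `λ(f(a) ∏ (a² + c_i))` (helper526): statements of two parts
-/

namespace Pool.Agent.H526.PE

open Polynomial
open scoped Classical ComplexConjugate
open Pool.Agent.H694.Typ (Mn Irn)

/-- Uniformity in the windows `a + B u`, `deg u < H`. -/
def LocU {K : Type} [Field K] [Fintype K] (W : K[X] → ℂ) (s : ℕ) (B : K[X]) (H d : ℕ) (ε : ℝ) :
    Prop :=
  ∀ P : K[X] → K[X] → ℂ, (∀ a, Ph s (P a)) →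
    ∑ a ∈ Mn K d, ‖∑ᶠ u ∈ {u : K[X] | u.degree < (H : WithBot ℕ)}, W (a + B * u) * P a u‖ ≤
      ε * (Fintype.card K : ℝ) ^ (d + H)

/-- **Task LUA.**  (From `S_locu` with `B = ∏ b_i ^ 6` and `S_locq`; every non-square `c` is
`e ^ 2 + X (C γ * b) ^ 2`, see `G1Asm.lean`.) -/
def S_lua : Prop :=
  ∀ (K : Type) [Field K] [Fintype K] [CharP K 2] (f : K[X][X]) (μ : K[X]) (n : ℕ)
    (c : Fin n → K[X]) (s : ℕ) (ε : ℝ), Adf f μ → (∀ i, ¬ IsSquare (c i)) → 0 < ε →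
    ∃ (B : K[X]) (H N : ℕ), B ≠ 0 ∧ ∀ d : ℕ, N ≤ d →
      LocU (fun a => (((lio (f.eval a) : ℝ) * ∏ i, (lio (a ^ 2 + c i) : ℝ) : ℝ) : ℂ)) s B H d ε

def S_luaasm : Prop := S_locu → S_locq → S_phl → S_lua

/-- **Task LUB.**  From windows of one length with step `B` to all windows: `{u | deg u < H'}` is the
disjoint union of the `r + B (X ^ H w + v)`, `deg r < deg B`, `deg w < H' - H - deg B`, `deg v < H`. -/
def S_lub : Prop :=
  ∀ (K : Type) [Field K] [Fintype K] (W : K[X] → ℂ) (s : ℕ) (ε : ℝ) (B : K[X]) (H N : ℕ), B ≠ 0 →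
    (∀ d : ℕ, N ≤ d → LocU W s B H d ε) →
    ∃ H₀ : ℕ, ∀ H' d : ℕ, H₀ ≤ H' → H' < d → LocU W s 1 H' d ε

def S_lubasm : Prop := S_phl → S_lub

/-- **Task NSQ.**  Near the squares of squares the Möbius function of `a² + X` is constant: the
coefficient of `X⁻¹` in `X a'³ / a` vanishes. -/
def S_nsq : Prop :=
  ∀ (K : Type) [Field K] [Fintype K] [CharP K 2] (d : ℕ), ∃ σ : ℤ, (σ = 1 ∨ σ = -1) ∧
    ∀ g u : K[X], g.Monic → 2 * g.natDegree = d → 3 * u.natDegree ≤ d →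
      Pool.Agent.H985.Chow.mob ((g ^ 2 + u) ^ 2 + X) = σ

end Pool.Agent.H526.PE
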