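import Mathlib
import Pool.Agent.H526.PE.StmU
import Pool.Agent.H524.LD.ParInfG
import Pool.Agent.H985.Chow.RT

/-!
# Task NSQ
-/

namespace Pool.Agent.H526.PE.Nsq

open Polynomial
open scoped Classical
open Pool.Agent.H985.Chow (mob lc)
open Pool.Agent.H985.KP (sg)

set_option linter.unusedSectionVars false

variable {K : Type} [Field K] [Fintype K] [CharP K 2]

theorem sg_zero : sg (0 : K) = 1 := by
  unfold sg
  rw [if_pos ⟨0, by ring⟩]

theorem monic_deg {g u : K[X]} {d : ℕ} (hd : 0 < d) (hg : g.Monic) (hgd : 2 * g.natDegree = d)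
    (hu : 3 * u.natDegree ≤ d) : (g ^ 2 + u).Monic ∧ (g ^ 2 + u).natDegree = d := by
  have h1 : (g ^ 2).Monic := hg.pow 2
  have h2 : (g ^ 2).natDegree = d := by rw [hg.natDegree_pow]; exact hgd
  have h3 : u.degree < (g ^ 2).degree := by
    apply degree_lt_degree
    rw [h2]
    omega
  exact ⟨h1.add_of_left h3, by rw [natDegree_add_eq_left_of_degree_lt h3, h2]⟩

theorem phg_zero {g u : K[X]} {d : ℕ} (hd : 0 < d) (hg : g.Monic) (hgd : 2 * g.natDegree = d)
    (hu : 3 * u.natDegree ≤ d) : Pool.Agent.H604.LD.phg (1 : K) 1 (g ^ 2 + u) = 0 := by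
  obtain ⟨h1, h2⟩ := monic_deg hd hg hgd hu
  have h3 : derivative (g ^ 2 + u) = derivative u := by
    have h4 : (2 : K[X]) = 0 := by
      have h5 : ((2 : ℕ) : K[X]) = 0 := CharP.cast_eq_zero K[X] 2
      exact_mod_cast h5
    rw [derivative_add, derivative_pow]
    simp only [Nat.cast_ofNat]
    rw [show (C (2 : K) : K[X]) = 2 from rfl, h4]
    ring
  have h5 : (X * derivative u ^ 3).natDegree + 1 < ((g ^ 2 + u) * (1 : K[X]) ^ 2).natDegree := by
    rw [one_pow, mul_one, h2]
    rcases Nat.eq_zero_or_pos u.natDegree with h0 | hpos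
    · have h6 : derivative u = 0 := by
        rw [eq_C_of_natDegree_eq_zero h0, derivative_C]
      rw [h6]
      simp
      omega
    · have h6 : (derivative u).natDegree ≤ u.natDegree - 1 := natDegree_derivative_le u
      have h7 : (X * derivative u ^ 3).natDegree ≤ 1 + 3 * (u.natDegree - 1) := by
        refine natDegree_mul_le.trans ?_
        have h8 : (derivative u ^ 3).natDegree ≤ 3 * (u.natDegree - 1) :=
          natDegree_pow_le.trans (by omega)
        have h9 : (X : K[X]).natDegree ≤ 1 := natDegree_X_le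
        omega
      omega
  unfold Pool.Agent.H604.LD.phg
  rw [h3, Pool.Agent.H985.Chow.RT.lc_small (by rw [one_pow, mul_one]; exact h1) _ h5, mul_zero]

theorem main : Pool.Agent.H526.PE.S_nsq := by
  intro K _ _ _ d
  rcases Nat.eq_zero_or_pos d with h0 | hd
  · subst h0
    refine ⟨-1, Or.inr rfl, fun g u hg hgd hu => ?_⟩
    have hg1 : g = 1 := hg.natDegree_eq_zero.1 (by omega)
    have hu1 : u = C (u.coeff 0) := eq_C_of_natDegree_eq_zero (by omega)
    have e : (g ^ 2 + u) ^ 2 + X = X + C ((1 + u.coeff 0) ^ 2) := by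
      rw [hg1]
      nth_rewrite 1 [hu1]
      rw [C_pow, C_add, C_1]
      ring
    have hirr : Irreducible (X + C ((1 + u.coeff 0) ^ 2) : K[X]) :=
      irreducible_of_degree_eq_one (degree_X_add_C _)
    obtain ⟨q, _, hq⟩ := prime_factors_irreducible hirr
      (f := UniqueFactorizationMonoid.factors (X + C ((1 + u.coeff 0) ^ 2) : K[X]))
      ⟨fun x hx => UniqueFactorizationMonoid.prime_of_factor x hx,
        UniqueFactorizationMonoid.factors_prod hirr.ne_zero⟩
    rw [e]
    unfold mob
    rw [if_pos hirr.squarefree, hq, Multiset.card_singleton, pow_one]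
  · obtain ⟨η, hη, h⟩ := Pool.Agent.H524.LD.s_parinfg K 1 1 0 d one_ne_zero monic_one
      isCoprime_one_right (by simpa using hd)
    have key : ∀ g u : K[X], g.Monic → 2 * g.natDegree = d → 3 * u.natDegree ≤ d →
        (mob ((g ^ 2 + u) ^ 2 + X) : ℝ) = η := by
      intro g u hg hgd hu
      obtain ⟨h1, h2⟩ := monic_deg hd hg hgd hu
      have h3 := h (g ^ 2 + u) h1 h2 (by rw [one_pow]; exact one_dvd _)
      rw [phg_zero hd hg hgd hu, sg_zero, mul_one] at h3
      have h4 : Pool.Agent.H604.LD.fa (1 : K) 1 (g ^ 2 + u) = (g ^ 2 + u) ^ 2 + X := by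
        unfold Pool.Agent.H604.LD.fa
        rw [C_1]
        ring
      rwa [h4] at h3
    rcases hη with hη | hη
    · refine ⟨1, Or.inl rfl, fun g u hg hgd hu => ?_⟩
      have := key g u hg hgd hu
      rw [hη] at this
      exact_mod_cast this
    · refine ⟨-1, Or.inr rfl, fun g u hg hgd hu => ?_⟩
      have := key g u hg hgd hu
      rw [hη] at this
      exact_mod_cast this

end Pool.Agent.H526.PE.Nsq
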