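import Mathlib
import Pool.Agent.H526.PE.Stm
import Pool.Agent.H140.E.All
import Pool.Agent.H524.Ch.ExtA

namespace Pool.Agent.H526.PE

open Polynomial
open Pool.Agent.H694.Typ (Mn)

theorem s_all : S_all := by
  intro K _ _ _ f μ h ε hε
  obtain ⟨n₀, hn⟩ := Pool.Agent.H140.E.all K f μ h.deg h.sep h.ne h.sq ε hε
  refine ⟨n₀, fun n hn0 => ?_⟩
  have h1 := (hn n hn0 (fun _ => 1) (fun _ => by norm_num)
    (fun _ => ⟨1, fun x => by rw [AddChar.one_apply, mul_one]⟩)).1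
  rw [Pool.Agent.H524.Ext.finsum_MD] at h1
  have h2 : ∀ g : K[X], (1 : ℝ) * (Pool.Agent.H140.Q.liou (f.eval g) : ℝ) = (lio (f.eval g) : ℝ) :=
    fun g => by rw [one_mul]; rfl
  rw [Finset.sum_congr rfl fun g _ => h2 g] at h1
  exact h1

end Pool.Agent.H526.PE
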