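import Mathlib
import Pool.Agent.H526.PE.Stm

/-!
# Multiplicative weights and arbitrary inseparable factors (helper526)
-/

namespace Pool.Agent.H526.PE

open Polynomial
open scoped Classical
open Pool.Agent.H694.Typ (Mn Irn)

/-- The theorem of helper140 (project MH): `h` is any nonzero polynomial in `T ^ 2`. -/
def S_mhw : Prop :=
  ∀ (K : Type) [Field K] [Fintype K] [CharP K 2] (f h : K[X][X]) (μ : K[X]), Adf f μ → h ≠ 0 →
    derivative h = 0 → ∀ ε : ℝ, 0 < ε → ∃ n₀ : ℕ, ∀ n : ℕ, n₀ ≤ n →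
      |∑ g ∈ Mn K n, (lio (f.eval g * h.eval g) : ℝ)| ≤ ε * (Fintype.card K : ℝ) ^ n

/-- **Task G2H.**  A multiplicative function, linear forms, and any inseparable factor. -/
def S_G2h : Prop :=
  ∀ (K : Type) [Field K] [Fintype K] [CharP K 2] (k : ℕ) (α β : Fin k → K[X]) (h : K[X][X])
    (ε : ℝ), 1 ≤ k → (∀ j, α j ≠ 0) → (∀ j, β j ≠ 0) →
    (∀ i j, i ≠ j → α i * β j ≠ α j * β i) → h ≠ 0 → derivative h = 0 → 0 < ε →
    ∃ m₀ : ℕ, ∀ m : ℕ, m₀ ≤ m → ∀ F : K[X] → ℂ, BMult F →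
      ‖∑ a ∈ Mn K m, F a * ((lio ((∏ j, (α j * a + β j)) * h.eval a) : ℝ) : ℂ)‖ ≤
        ε * (Fintype.card K : ℝ) ^ m

def S_g2hasm : Prop := S_mhw → S_kataiq → S_G2h

end Pool.Agent.H526.PE
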