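import Mathlib
import Pool.Agent.H526.PE.Stm

/-!
# Multiplicative weights and general inseparable factors `α A(T) ^ 2 + c` (helper526)
-/

namespace Pool.Agent.H526.PE

open Polynomial
open scoped Classical
open Pool.Agent.H694.Typ (Mn Irn)

/-- The theorem of helper140 (`Pool.Agent.H140.MX.s_mix`), without weights. -/
def S_mixw : Prop :=
  ∀ (K : Type) [Field K] [Fintype K] [CharP K 2] (f : K[X][X]) (μ : K[X]) (r : ℕ)
    (α c : Fin r → K[X]) (A : Fin r → K[X][X]), Adf f μ → (∀ i, α i ≠ 0) →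
    (∀ i, ¬ IsSquare (α i * c i)) → ∀ ε : ℝ, 0 < ε → ∃ n₀ : ℕ, ∀ n : ℕ, n₀ ≤ n →
      |∑ g ∈ Mn K n, (lio (f.eval g * ∏ i, (α i * ((A i).eval g) ^ 2 + c i)) : ℝ)| ≤
        ε * (Fintype.card K : ℝ) ^ n

/-- **Task G2M.**  A multiplicative function, linear forms, and any inseparable factors. -/
def S_G2m : Prop :=
  ∀ (K : Type) [Field K] [Fintype K] [CharP K 2] (k n : ℕ) (α β : Fin k → K[X])
    (δ c : Fin n → K[X]) (A : Fin n → K[X][X]) (ε : ℝ), 1 ≤ k → (∀ j, α j ≠ 0) →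
    (∀ j, β j ≠ 0) → (∀ i j, i ≠ j → α i * β j ≠ α j * β i) → (∀ i, δ i ≠ 0) →
    (∀ i, ¬ IsSquare (δ i * c i)) → 0 < ε →
    ∃ m₀ : ℕ, ∀ m : ℕ, m₀ ≤ m → ∀ F : K[X] → ℂ, BMult F →
      ‖∑ a ∈ Mn K m, F a * ((lio ((∏ j, (α j * a + β j)) *
        ∏ i, (δ i * ((A i).eval a) ^ 2 + c i)) : ℝ) : ℂ)‖ ≤ ε * (Fintype.card K : ℝ) ^ m

def S_g2masm : Prop := S_mixw → S_kataiq → S_G2m

end Pool.Agent.H526.PE
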